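import Pool.Agent.MP_9125cf_lc.KB

set_option autoImplicit false

namespace Pool.Agent.MP_9125cf_lc

open Classical

attribute [fun_prop] Computable ComputablePred Dl Sg

section
variable {α β γ : Type} [Primcodable α] [Primcodable β] [Primcodable γ]

@[fun_prop] theorem c_id : Computable fun x : α => x := Computable.id
@[fun_prop] theorem c_const (c : β) : Computable fun _ : α => c := Computable.const c
@[fun_prop] theorem c_comp {f : β → γ} {g : α → β} (hf : Computable f) (hg : Computable g) :
    Computable fun x => f (g x) := hf.comp hg
@[fun_prop] theorem c_fst {f : α → β × γ} (hf : Computable f) : Computable fun x => (f x).1 :=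
  Computable.fst.comp hf
@[fun_prop] theorem c_snd {f : α → β × γ} (hf : Computable f) : Computable fun x => (f x).2 :=
  Computable.snd.comp hf
@[fun_prop] theorem c_pair {f : α → β} {g : α → γ} (hf : Computable f) (hg : Computable g) :
    Computable fun x => (f x, g x) := hf.pair hg
@[fun_prop] theorem c_add {f g : α → ℕ} (hf : Computable f) (hg : Computable g) :
    Computable fun x => f x + g x := Primrec.nat_add.to_comp.comp hf hg
@[fun_prop] theorem c_tsub {f g : α → ℕ} (hf : Computable f) (hg : Computable g) :
    Computable fun x => f x - g x := Primrec.nat_sub.to_comp.comp hf hg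
@[fun_prop] theorem c_mul {f g : α → ℕ} (hf : Computable f) (hg : Computable g) :
    Computable fun x => f x * g x := Primrec.nat_mul.to_comp.comp hf hg
@[fun_prop] theorem c_div {f g : α → ℕ} (hf : Computable f) (hg : Computable g) :
    Computable fun x => f x / g x := Primrec.nat_div.to_comp.comp hf hg
@[fun_prop] theorem c_mod {f g : α → ℕ} (hf : Computable f) (hg : Computable g) :
    Computable fun x => f x % g x := Primrec.nat_mod.to_comp.comp hf hg
@[fun_prop] theorem c_npair {f g : α → ℕ} (hf : Computable f) (hg : Computable g) :
    Computable fun x => Nat.pair (f x) (g x) := Primrec₂.natPair.to_comp.comp hf hg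
@[fun_prop] theorem c_unpair {f : α → ℕ} (hf : Computable f) :
    Computable fun x => Nat.unpair (f x) := Computable.unpair.comp hf
@[fun_prop] theorem c_encode {f : α → β} (hf : Computable f) :
    Computable fun x => Encodable.encode (f x) := Computable.encode.comp hf
@[fun_prop] theorem c_ofNat {δ : Type} [Denumerable δ] {f : α → ℕ} (hf : Computable f) :
    Computable fun x => Denumerable.ofNat δ (f x) := (Computable.ofNat δ).comp hf
@[fun_prop] theorem c_some {f : α → β} (hf : Computable f) :
    Computable fun x => some (f x) := Computable.option_some.comp hf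
@[fun_prop] theorem c_length {f : α → List β} (hf : Computable f) :
    Computable fun x => (f x).length := Computable.list_length.comp hf
@[fun_prop] theorem c_cons {f : α → β} {g : α → List β} (hf : Computable f)
    (hg : Computable g) : Computable fun x => f x :: g x := Computable.list_cons.comp hf hg
@[fun_prop] theorem c_append {f g : α → List β} (hf : Computable f)
    (hg : Computable g) : Computable fun x => f x ++ g x := Computable.list_append.comp hf hg
@[fun_prop] theorem c_tail {f : α → List β} (hf : Computable f) :
    Computable fun x => (f x).tail := Primrec.list_tail.to_comp.comp hf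
@[fun_prop] theorem c_head? {f : α → List β} (hf : Computable f) :
    Computable fun x => (f x).head? := Primrec.list_head?.to_comp.comp hf
@[fun_prop] theorem c_getD {f : α → List β} {g : α → ℕ} (d : β) (hf : Computable f)
    (hg : Computable g) : Computable fun x => (f x).getD (g x) d :=
  (Primrec.list_getD d).to_comp.comp hf hg
@[fun_prop] theorem c_range {f : α → ℕ} (hf : Computable f) :
    Computable fun x => List.range (f x) := Primrec.list_range.to_comp.comp hf
@[fun_prop] theorem c_evaln {k : α → ℕ} {c : α → Nat.Partrec.Code} {n : α → ℕ}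
    (hk : Computable k) (hc : Computable c) (hn : Computable n) :
    Computable fun x => Nat.Partrec.Code.evaln (k x) (c x) (n x) :=
  Nat.Partrec.Code.primrec_evaln.to_comp.comp ((hk.pair hc).pair hn)
@[fun_prop] theorem c_ite' {p : α → Prop} {d : ∀ a, Decidable (p a)} {f g : α → β}
    (hp : ComputablePred p) (hf : Computable f) (hg : Computable g) :
    Computable fun a => @ite _ (p a) (d a) (f a) (g a) :=
  (c_ite hp hf hg).of_eq fun a => by congr
@[fun_prop] theorem c_decide {p : α → Prop} {d : ∀ a, Decidable (p a)}
    (hp : ComputablePred p) : Computable fun a => @decide (p a) (d a) :=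
  hp.decide.of_eq fun a => by congr

theorem c_foldr_range {n : α → ℕ} {b : α → γ} {h : α → ℕ → γ → γ} (hn : Computable n)
    (hb : Computable b) (hh : Computable fun z : α × ℕ × γ => h z.1 z.2.1 z.2.2) :
    Computable fun a => Nat.rec (motive := fun _ => γ) (b a) (h a) (n a) :=
  Computable.nat_rec (h := fun a (q : ℕ × γ) => h a q.1 q.2) hn hb hh.to₂

@[fun_prop] theorem c_foldr {L : α → List β} {b : α → γ} {h : α → β → γ → γ} [Inhabited β]
    (hL : Computable L) (hb : Computable b)
    (hh : Computable fun z : α × β × γ => h z.1 z.2.1 z.2.2) :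
    Computable fun a => (L a).foldr (h a) (b a) := by
  have := c_foldr_range (n := fun a => (L a).length) (b := b)
    (h := fun a j c => h a ((L a).getD ((L a).length - 1 - j) default) c) (by fun_prop) hb
    (hh.comp (g := fun z : α × ℕ × γ =>
      (z.1, (L z.1).getD ((L z.1).length - 1 - z.2.1) default, z.2.2)) (by fun_prop))
  refine this.of_eq fun a => ?_
  have key : ∀ (l : List β) (m : ℕ), m ≤ l.length → Nat.rec (motive := fun _ => γ) (b a)
      (fun j c => h a (l.getD (l.length - 1 - j) default) c) m
      = (l.drop (l.length - m)).foldr (h a) (b a) := by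
    intro l m
    induction m with
    | zero => simp
    | succ m ih =>
      intro hm
      have e : l.length - m = (l.length - 1 - m) + 1 := by omega
      have e' : l.length - (m + 1) = l.length - 1 - m := by omega
      simp only [ih (by omega)]
      rw [e', List.drop_eq_getElem_cons (i := l.length - 1 - m) (by omega), List.foldr_cons, ← e,
        List.getD_eq_getElem _ _ (by omega)]
  simpa using key (L a) _ le_rfl

@[fun_prop] theorem c_map {L : α → List β} {h : α → β → γ} [Inhabited β]
    (hL : Computable L) (hh : Computable fun z : α × β => h z.1 z.2) :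
    Computable fun a => (L a).map (h a) := by
  have : Computable fun a => (L a).foldr (fun x c => h a x :: c) [] := by fun_prop
  refine this.of_eq fun a => ?_
  induction L a with
  | nil => rfl
  | cons x l ih => simp [ih]

@[fun_prop] theorem c_take {L : α → List ℕ} {n : α → ℕ} (hL : Computable L) (hn : Computable n) :
    Computable fun a => (L a).take (n a) := by
  have : Computable fun a => (List.range (if n a < (L a).length then n a else (L a).length)).map
      fun j => (L a).getD j 0 :=
    c_map (c_range (c_ite' (cp_lt hn (c_length hL)) hn (c_length hL))) (by fun_prop)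
  refine this.of_eq fun a => List.ext_getElem ?_ ?_
  · simp only [List.length_map, List.length_range, List.length_take]
    split_ifs <;> omega
  · intro i h1 h2
    simp only [List.length_take] at h2
    simp [List.getD_eq_getElem?_getD, show i < (L a).length by omega]

variable {p q : α → Prop}

@[fun_prop] theorem p_const (P : Prop) : ComputablePred fun _ : α => P := cp_const P
@[fun_prop] theorem p_comp {p : β → Prop} {g : α → β} (hp : ComputablePred p)
    (hg : Computable g) : ComputablePred fun a => p (g a) := cp_comp hp hg
@[fun_prop] theorem p_and (hp : ComputablePred p) (hq : ComputablePred q) :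
    ComputablePred fun a => p a ∧ q a := cp_and hp hq
@[fun_prop] theorem p_or (hp : ComputablePred p) (hq : ComputablePred q) :
    ComputablePred fun a => p a ∨ q a := cp_or hp hq
@[fun_prop] theorem p_imp (hp : ComputablePred p) (hq : ComputablePred q) :
    ComputablePred fun a => p a → q a := cp_imp hp hq
@[fun_prop] theorem p_not (hp : ComputablePred p) : ComputablePred fun a => ¬ p a := hp.not
@[fun_prop] theorem p_eq {f g : α → β} (hf : Computable f) (hg : Computable g) :
    ComputablePred fun a => f a = g a := cp_eq hf hg
@[fun_prop] theorem p_ne {f g : α → β} (hf : Computable f) (hg : Computable g) :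
    ComputablePred fun a => f a ≠ g a := (cp_eq hf hg).not
@[fun_prop] theorem p_lt {f g : α → ℕ} (hf : Computable f) (hg : Computable g) :
    ComputablePred fun a => f a < g a := cp_lt hf hg
@[fun_prop] theorem p_le {f g : α → ℕ} (hf : Computable f) (hg : Computable g) :
    ComputablePred fun a => f a ≤ g a := (cp_lt hg hf).not.of_eq fun _ => not_lt

/-- Bounded universal quantifier. -/
def Ball (n : ℕ) (P : ℕ → Prop) : Prop := ∀ j < n, P j

@[fun_prop] theorem p_ball {n : α → ℕ} {P : α → ℕ → Prop} (hn : Computable n)
    (hP : ComputablePred fun z : α × ℕ => P z.1 z.2) : ComputablePred fun a => Ball (n a) (P a) :=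
  cp_ball hP hn

@[fun_prop] theorem d_const (P : Prop) : Dl fun _ : α => P := .of_cp (cp_const P)
@[fun_prop] theorem d_comp {p : β → Prop} {g : α → β} (hp : Dl p)
    (hg : Computable g) : Dl fun a => p (g a) := hp.comp hg
@[fun_prop] theorem d_and (hp : Dl p) (hq : Dl q) : Dl fun a => p a ∧ q a := hp.and hq
@[fun_prop] theorem d_or (hp : Dl p) (hq : Dl q) : Dl fun a => p a ∨ q a := hp.or hq
@[fun_prop] theorem d_imp (hp : Dl p) (hq : Dl q) : Dl fun a => p a → q a := hp.imp hq
@[fun_prop] theorem d_iff (hp : Dl p) (hq : Dl q) : Dl fun a => p a ↔ q a := hp.iff hq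
@[fun_prop] theorem d_not (hp : Dl p) : Dl fun a => ¬ p a := hp.not
@[fun_prop] theorem d_ex {δ : Type} [Denumerable δ] {P : α → δ → Prop}
    (h : Dl fun z : α × δ => P z.1 z.2) : Dl fun a => ∃ x, P a x := h.ex
@[fun_prop] theorem d_all {δ : Type} [Denumerable δ] {P : α → δ → Prop}
    (h : Dl fun z : α × δ => P z.1 z.2) : Dl fun a => ∀ x, P a x := h.all
@[fun_prop] theorem d_eq {f g : α → β} (hf : Computable f) (hg : Computable g) :
    Dl fun a => f a = g a := .of_cp (cp_eq hf hg)
@[fun_prop] theorem d_ne {f g : α → β} (hf : Computable f) (hg : Computable g) :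
    Dl fun a => f a ≠ g a := .of_cp (cp_eq hf hg).not
@[fun_prop] theorem d_lt {f g : α → ℕ} (hf : Computable f) (hg : Computable g) :
    Dl fun a => f a < g a := .of_cp (cp_lt hf hg)
@[fun_prop] theorem d_le {f g : α → ℕ} (hf : Computable f) (hg : Computable g) :
    Dl fun a => f a ≤ g a := .of_cp (p_le hf hg)

@[fun_prop] theorem s_const (P : Prop) : Sg fun _ : α => P := .of_cp (cp_const P)
@[fun_prop] theorem s_comp {p : β → Prop} {g : α → β} (hp : Sg p)
    (hg : Computable g) : Sg fun a => p (g a) := hp.comp hg
@[fun_prop] theorem s_and (hp : Sg p) (hq : Sg q) : Sg fun a => p a ∧ q a := hp.and hq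
@[fun_prop] theorem s_or (hp : Sg p) (hq : Sg q) : Sg fun a => p a ∨ q a := hp.or hq
@[fun_prop] theorem s_imp (hp : Dl p) (hq : Sg q) : Sg fun a => p a → q a :=
  (hp.2.or hq).of_eq fun a => by tauto
@[fun_prop] theorem s_iff (hp : Dl p) (hq : Dl q) : Sg fun a => p a ↔ q a := (hp.iff hq).1
@[fun_prop] theorem s_not (hp : Dl p) : Sg fun a => ¬ p a := hp.2
@[fun_prop] theorem s_ex {δ : Type} [Denumerable δ] {P : α → δ → Prop}
    (h : Sg fun z : α × δ => P z.1 z.2) : Sg fun a => ∃ x, P a x := h.ex
@[fun_prop] theorem s_all {δ : Type} [Denumerable δ] {P : α → δ → Prop}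
    (h : Sg fun z : α × δ => P z.1 z.2) : Sg fun a => ∀ x, P a x := h.all
@[fun_prop] theorem s_eq {f g : α → β} (hf : Computable f) (hg : Computable g) :
    Sg fun a => f a = g a := .of_cp (cp_eq hf hg)
@[fun_prop] theorem s_ne {f g : α → β} (hf : Computable f) (hg : Computable g) :
    Sg fun a => f a ≠ g a := .of_cp (cp_eq hf hg).not
@[fun_prop] theorem s_lt {f g : α → ℕ} (hf : Computable f) (hg : Computable g) :
    Sg fun a => f a < g a := .of_cp (cp_lt hf hg)
@[fun_prop] theorem s_le {f g : α → ℕ} (hf : Computable f) (hg : Computable g) :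
    Sg fun a => f a ≤ g a := .of_cp (p_le hf hg)

end

end Pool.Agent.MP_9125cf_lc
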