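import Pool.Agent.Mg.F9125cf.Gbd52a8

set_option autoImplicit false

namespace Pool.Agent.MP_9125cf_lc.U

open Classical Nat.Partrec Denumerable

/-- The transposition of the two components of `q`. -/
def sw (q : ℕ × ℕ) (z : ℕ) : ℕ := if z = q.1 then q.2 else if z = q.2 then q.1 else z

theorem sw_sw (q : ℕ × ℕ) (z : ℕ) : sw q (sw q z) = z := by
  unfold sw
  split_ifs <;> simp_all

/-- The letter `σ` of level `n` has a descendant of level `m`. -/
def Desc (lev par : ℕ → ℕ) (n σ m : ℕ) : Prop := ∃ τ, lev τ = m ∧ par^[m - n] τ = σ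

section Comp
variable {α β : Type} [Primcodable α] [Primcodable β]

@[fun_prop] theorem c_sw {q : α → ℕ × ℕ} {z : α → ℕ} (hq : Computable q) (hz : Computable z) :
    Computable fun a => sw (q a) (z a) := by
  unfold sw
  fun_prop

@[fun_prop] theorem c_act {σ : α → ℕ} {w : α → List ℕ} (h1 : Computable σ) (h2 : Computable w) :
    Computable fun a => act (σ a) (w a) := by
  unfold act
  fun_prop

@[fun_prop] theorem c_red {w : α → List ℕ} (h : Computable w) : Computable fun a => red (w a) := by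
  unfold red
  exact c_foldr (h := fun _ => act) h (by fun_prop) (by fun_prop)

@[fun_prop] theorem c_iter {par : ℕ → ℕ} {k σ : α → ℕ} (hp : Computable par) (hk : Computable k)
    (hs : Computable σ) : Computable fun a => par^[k a] (σ a) := by
  refine (c_foldr_range (n := k) (b := σ) (h := fun _ _ τ => par τ) hk hs (by fun_prop)).of_eq
    fun a => ?_
  induction k a with
  | zero => rfl
  | succ j ih => rw [Function.iterate_succ_apply', ← ih]

@[fun_prop] theorem c_ogetD {f : α → Option β} {g : α → β} (hf : Computable f)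
    (hg : Computable g) : Computable fun a => (f a).getD (g a) := Computable.option_getD hf hg

@[fun_prop] theorem p_mem {f : α → ℕ} {L : α → List ℕ} (hf : Computable f) (hL : Computable L) :
    ComputablePred fun a => f a ∈ L a := by
  have : ComputablePred fun a => ¬ Ball (L a).length fun j => (L a).getD j 0 ≠ f a := by fun_prop
  refine this.of_eq fun a => ?_
  simp only [Ball, not_forall, not_not, List.mem_iff_getElem]
  refine exists_congr fun j => ⟨fun ⟨hj, h⟩ => ⟨hj, ?_⟩, fun ⟨hj, h⟩ => ⟨hj, ?_⟩⟩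
  · rwa [List.getD_eq_getElem _ _ hj] at h
  · rwa [List.getD_eq_getElem _ _ hj]

end Comp

/-! The killing forest. -/

/-- Decoding of a letter. -/
def dec (σ : ℕ) : List ℕ := ofNat (List ℕ) σ

/-- The entries of a letter. -/
def fn (σ k : ℕ) : ℕ := (dec σ).getD k 0

/-- The letter with entries `c 0, ..., c (n - 1)`. -/
def nd (c : ℕ → ℕ) (n : ℕ) : ℕ := Encodable.encode ((List.range n).map c)

@[simp] theorem dec_nd (c : ℕ → ℕ) (n : ℕ) : dec (nd c n) = (List.range n).map c := ofNat_encode _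

theorem fn_nd (c : ℕ → ℕ) {n k : ℕ} (h : k < n) : fn (nd c n) k = c k := by
  simp [fn, List.getD_eq_getElem?_getD, h]

theorem nd_congr {c c' : ℕ → ℕ} {n : ℕ} (h : ∀ k < n, c k = c' k) : nd c n = nd c' n := by
  unfold nd
  congr 1
  exact List.map_congr_left fun k hk => h k (List.mem_range.1 hk)

/-- Version. -/
def eV (x : ℕ) : ℕ := x.unpair.1
/-- Value of the witness. -/
def eI (x : ℕ) : ℕ := x.unpair.2.unpair.1
/-- Guess. -/
def eG (x : ℕ) : ℕ := x.unpair.2.unpair.2.unpair.1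
/-- Stage. -/
def eS (x : ℕ) : ℕ := x.unpair.2.unpair.2.unpair.2

/-- The word computed by program `e` on input `k` within `s` steps. -/
def val (s e k : ℕ) : List ℕ := dec ((Code.evaln s (ofNat Code e) k).getD 0)

/-! Good points of a system. -/

section Sem
variable {lev par : ℕ → ℕ} {α : Type} (S : Sys lev par α) (x : ℕ → α)

/-- Projection to level `n` of the base point of level `m`. -/
def yy (n m : ℕ) : α := S.p^[m - n] (x m)

/-- The cocycle of the base points. -/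
noncomputable def coc (n : ℕ) : List ℕ := S.wd (x n) (S.p (x (n + 1)))

theorem lv_yy (hx : ∀ n, S.lv (x n) = n) {n m : ℕ} (h : n ≤ m) : S.lv (yy S x n m) = n :=
  S.lv_iter _ _ _ (by rw [hx]; omega)

theorem p_yy {n m : ℕ} (h : n + 1 ≤ m) : S.p (yy S x (n + 1) m) = yy S x n m := by
  rw [yy, yy, ← Function.iterate_succ_apply' S.p, show (m - (n + 1)).succ = m - n by omega]

theorem wd_p {u v : α} {n : ℕ} (hu : S.lv u = n + 1) (hv : S.lv v = n + 1) :
    S.wd (S.p u) (S.p v) = red ((S.wd u v).map par) := by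
  obtain ⟨-, h2, h3⟩ := S.wd_spec (hu.trans hv.symm)
  rw [← S.wd_app (by rw [S.lv_p _ _ hu]; exact S.at_par (hu ▸ h2)), ← S.p_app h2 (by omega), h3]

theorem mem_wd_trans {u v w : α} (h1 : S.lv u = S.lv v) (h2 : S.lv v = S.lv w) {σ : ℕ}
    (h : σ ∈ S.wd u w) : σ ∈ S.wd u v ∨ σ ∈ S.wd v w := by
  obtain ⟨-, a2, a3⟩ := S.wd_spec h1
  obtain ⟨-, b2, b3⟩ := S.wd_spec h2
  have : S.wd u w = red (S.wd v w ++ S.wd u v) := by
    rw [← S.wd_app (At.append (h1 ▸ b2) a2), S.app_append, a3, b3]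
  rw [this] at h
  exact (List.mem_append.1 (mem_red h)).symm

theorem mem_wd_symm {u v : α} (h1 : S.lv u = S.lv v) {σ : ℕ} (h : σ ∈ S.wd v u) :
    σ ∈ S.wd u v := by
  obtain ⟨-, a2, a3⟩ := S.wd_spec h1
  have : S.wd v u = red (S.wd u v).reverse := by
    rw [← S.wd_app (h1 ▸ a2.reverse)]
    conv_lhs => rw [← S.app_rev a2, a3]
  rw [this] at h
  exact List.mem_reverse.1 (mem_red h)

end Sem

/-- The least point of each level. -/
noncomputable def bp {lev par : ℕ → ℕ} (S : Sys lev par ℕ) (n : ℕ) : ℕ := Nat.find (S.ne n)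

/-- Words between projections of two points of level `m` have descendants of level `m`. -/
def DescW : Prop := ∀ (lev par : ℕ → ℕ) (α : Type) (S : Sys lev par α) (u v : α) (n m : ℕ),
  n ≤ m → S.lv u = m → S.lv v = m →
  ∀ σ ∈ S.wd (S.p^[m - n] u) (S.p^[m - n] v), Desc lev par n σ m

/-- The cocycle of a computable system is computable. -/
def CocC : Prop := ∀ (lev par : ℕ → ℕ) (S : Sys lev par ℕ), IsComp S.rel →
  Computable (coc S (bp S))

/-! First order forms. -/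

/-! Labelled systems. -/

/-- The even relations. -/
def ev (M : Str) : Str := fun i => M (2 * i)

/-- The relations of a labelled system. -/
def relL {lev par : ℕ → ℕ} {α : Type} (S : Sys lev par α) (lab : α → ℕ) (i : ℕ) (x y : α) : Prop :=
  (i % 2 = 0 ∧ S.rel (i / 2) x y) ∨ (i % 2 = 1 ∧ x = y ∧ S.lv x = 0 ∧ lab x = i / 2)

/-- Equivariant labellings. -/
def Eqv {lev par : ℕ → ℕ} {α : Type} (S : Sys lev par α) (pr : ℕ → ℕ × ℕ) (lab : α → ℕ) : Prop :=
  ∀ σ x, lev σ = 0 → S.lv x = 0 → lab (S.f σ x) = sw (pr σ) (lab x)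

@[simp] theorem relL_even {lev par : ℕ → ℕ} {α : Type} (S : Sys lev par α) (lab : α → ℕ) (i : ℕ)
    (x y : α) : relL S lab (2 * i) x y ↔ S.rel i x y := by
  simp [relL]

@[simp] theorem relL_odd {lev par : ℕ → ℕ} {α : Type} (S : Sys lev par α) (lab : α → ℕ) (a : ℕ)
    (x y : α) : relL S lab (2 * a + 1) x y ↔ x = y ∧ S.lv x = 0 ∧ lab x = a := by
  have h1 : (2 * a + 1) % 2 = 1 := by omega
  have h2 : (2 * a + 1) / 2 = a := by omega
  simp [relL, h1, h2]

theorem ev_relL {lev par : ℕ → ℕ} (S : Sys lev par ℕ) (lab : ℕ → ℕ) : ev (relL S lab) = S.rel := by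
  funext i x y
  simp [ev]

/-- Equal labels at threads give an isomorphism. -/
def IsoL : Prop := ∀ (lev par : ℕ → ℕ) (pr : ℕ → ℕ × ℕ) (S S' : Sys lev par ℕ) (lab lab' : ℕ → ℕ)
  (ξ ξ' : ℕ → ℕ), Eqv S pr lab → Eqv S' pr lab' → S.Thread ξ → S'.Thread ξ' →
  lab (ξ 0) = lab' (ξ' 0) → Iso (relL S lab) (relL S' lab')

/-- Isomorphic systems have equivalent labels at threads. -/
def IsoE : Prop := ∀ (lev par : ℕ → ℕ) (pr : ℕ → ℕ × ℕ) (E : ℕ → ℕ → Prop), Equivalence E →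
  (∀ σ, lev σ = 0 → Ill lev par σ → E (pr σ).1 (pr σ).2) →
  ∀ (S S' : Sys lev par ℕ) (lab lab' : ℕ → ℕ) (ξ ξ' : ℕ → ℕ), Eqv S' pr lab' → S.Thread ξ →
  S'.Thread ξ' → Iso (relL S lab) (relL S' lab') → E (lab (ξ 0)) (lab' (ξ' 0))

/-- Moving a thread along an infinite branch; transport along an isomorphism. -/
def Shift : Prop := ∀ (lev par : ℕ → ℕ) (pr : ℕ → ℕ × ℕ) (S : Sys lev par ℕ) (lab : ℕ → ℕ)
  (ξ : ℕ → ℕ), Eqv S pr lab → S.Thread ξ →
  (∀ σ, lev σ = 0 → Ill lev par σ → ∃ ξ', S.Thread ξ' ∧ lab (ξ' 0) = sw (pr σ) (lab (ξ 0))) ∧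
  ∀ N : Str, Iso N (relL S lab) → ∃ (S' : Sys lev par ℕ) (lab' : ℕ → ℕ) (ξ' : ℕ → ℕ),
    N = relL S' lab' ∧ Eqv S' pr lab' ∧ S'.Thread ξ'

/-- The computable family. -/
def Fam : Prop := ∀ (lev par : ℕ → ℕ) (pr : ℕ → ℕ × ℕ), Computable lev → Computable par →
  Computable pr → (∀ σ n, lev σ = n + 1 → lev (par σ) = n) →
  ∃ (S : Sys lev par ℕ) (lab : ℕ → ℕ → ℕ) (ξ : ℕ → ℕ),
    (ComputablePred fun q : ℕ × ℕ × ℕ × ℕ => relL S (lab q.1) q.2.1 q.2.2.1 q.2.2.2) ∧
    S.Thread ξ ∧ Computable ξ ∧ ∀ a, Eqv S pr (lab a) ∧ lab a (ξ 0) = a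

section Comp
variable {α : Type} [Primcodable α]

@[fun_prop] theorem c_dec {σ : α → ℕ} (h : Computable σ) : Computable fun a => dec (σ a) := by
  unfold dec
  fun_prop

@[fun_prop] theorem c_fn {σ k : α → ℕ} (h : Computable σ) (hk : Computable k) :
    Computable fun a => fn (σ a) (k a) := by
  unfold fn
  fun_prop

@[fun_prop] theorem c_nd {c : α → ℕ → ℕ} {n : α → ℕ} (h : Computable fun z : α × ℕ => c z.1 z.2)
    (hn : Computable n) : Computable fun a => nd (c a) (n a) := by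
  unfold nd
  fun_prop

@[fun_prop] theorem c_eV {σ : α → ℕ} (h : Computable σ) : Computable fun a => eV (σ a) := by
  unfold eV
  fun_prop

@[fun_prop] theorem c_eI {σ : α → ℕ} (h : Computable σ) : Computable fun a => eI (σ a) := by
  unfold eI
  fun_prop

@[fun_prop] theorem c_eG {σ : α → ℕ} (h : Computable σ) : Computable fun a => eG (σ a) := by
  unfold eG
  fun_prop

@[fun_prop] theorem c_eS {σ : α → ℕ} (h : Computable σ) : Computable fun a => eS (σ a) := by
  unfold eS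
  fun_prop

@[fun_prop] theorem c_val {s e k : α → ℕ} (hs : Computable s) (he : Computable e)
    (hk : Computable k) : Computable fun a => val (s a) (e a) (k a) := by
  unfold val
  fun_prop

end Comp

section Iter
variable {lev par : ℕ → ℕ} {α : Type} (S : Sys lev par α)

include S in
theorem lev_iter (k : ℕ) : ∀ n σ, lev σ = n + k → lev (par^[k] σ) = n := by
  induction k with
  | zero => intro n x h; exact h
  | succ k ih => intro n x h; exact ih n _ (S.lev_par _ _ h)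

theorem iter_app (j : ℕ) : ∀ (n : ℕ) (L : List ℕ) (x : α), S.lv x = n + j → At lev (n + j) L →
    S.p^[j] (S.app L x) = S.app (L.map par^[j]) (S.p^[j] x) := by
  induction j with
  | zero => intro n L x _ _; simp
  | succ j ih =>
    intro n L x hx hL
    rw [Function.iterate_succ_apply, S.p_app (hx ▸ hL) (by omega),
      ih n _ _ (S.lv_p _ _ hx) (S.at_par hL), List.map_map, Function.iterate_succ_apply]
    rfl

include S in
theorem at_iter {n j : ℕ} {L : List ℕ} (hL : At lev (n + j) L) : At lev n (L.map par^[j]) := by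
  intro σ hσ
  obtain ⟨τ, h1, rfl⟩ := List.mem_map.1 hσ
  exact lev_iter S _ _ _ (hL τ h1)

theorem thread_iter {ξ : ℕ → α} (h : S.Thread ξ) (n j : ℕ) : S.p^[j] (ξ (n + j)) = ξ n := by
  induction j with
  | zero => rfl
  | succ j ih => rw [Function.iterate_succ_apply, ← add_assoc, (h _).2, ih]

end Iter

theorem pDescW : DescW := by
  intro lev par α S u v n m h hu hv σ hσ
  obtain ⟨-, a2, a3⟩ := S.wd_spec (hu.trans hv.symm)
  obtain ⟨j, rfl⟩ := Nat.exists_eq_add_of_le h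
  rw [Nat.add_sub_cancel_left] at hσ
  rw [hu] at a2
  rw [← a3, iter_app S j n _ _ hu a2,
    S.wd_app (by rw [S.lv_iter j n _ hu]; exact at_iter S a2)] at hσ
  obtain ⟨τ, h1, h2⟩ := List.mem_map.1 (mem_red hσ)
  exact ⟨τ, a2 τ h1, by rwa [Nat.add_sub_cancel_left]⟩

theorem fin_bound {B : Set ℕ} (hB : B.Finite) {Q : ℕ → ℕ → Prop}
    (hm : ∀ σ K K', K ≤ K' → Q σ K → Q σ K') (h : ∀ σ ∈ B, ∃ K, Q σ K) :
    ∃ K, ∀ σ ∈ B, Q σ K := by
  choose! F hF using h
  obtain ⟨K, hK⟩ := (hB.image F).bddAbove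
  exact ⟨K, fun σ hσ => hm σ _ _ (hK ⟨σ, hσ, rfl⟩) (hF σ hσ)⟩

theorem mem_wd_yy {lev par : ℕ → ℕ} {α : Type} (S : Sys lev par α) {u v : α} {n σ : ℕ}
    (hu : S.lv u = n + 1) (hv : S.lv v = n + 1) (h : σ ∈ S.wd (S.p u) (S.p v)) :
    ∃ τ ∈ S.wd u v, lev τ = n + 1 ∧ par τ = σ := by
  rw [wd_p S hu hv] at h
  obtain ⟨τ, h1, h2⟩ := List.mem_map.1 (mem_red h)
  exact ⟨τ, h1, hu ▸ (S.wd_spec (hu.trans hv.symm)).2.1 τ h1, h2⟩

theorem split_suffix (P : ℕ → Prop) (u : List ℕ) : ∃ q t, u = q ++ t ∧ (∀ σ ∈ t, P σ) ∧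
    ∀ σ ∈ q.getLast?, ¬ P σ := by
  induction u with
  | nil => exact ⟨[], [], rfl, by simp, by simp⟩
  | cons a u ih =>
    obtain ⟨q, t, rfl, h2, h3⟩ := ih
    cases q with
    | nil =>
      by_cases ha : P a
      · exact ⟨[], a :: t, rfl, by simpa [ha] using h2, by simp⟩
      · exact ⟨[a], t, rfl, h2, by simpa using ha⟩
    | cons b q => exact ⟨a :: b :: q, t, rfl, h2, by simpa [List.getLast?_cons_cons] using h3⟩

section Tr
variable {lev par : ℕ → ℕ} (S : Sys lev par ℕ)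

theorem walk_wd {L P : List ℕ} (h1 : RdI L) (h2 : Walk S.rel L P) :
    S.lv (P.getD L.length 0) = S.lv (P.getD 0 0) ∧
      S.wd (P.getD L.length 0) (P.getD 0 0) = L := by
  obtain ⟨a1, a2⟩ := Sys.walk_spec h2
  rw [← a2, S.wd_app a1, red_of_rd (rdI_iff.1 h1), S.lv_app]
  exact ⟨rfl, rfl⟩

theorem wd_walk {u v : ℕ} (h : S.lv u = S.lv v) : ∃ P, RdI (S.wd u v) ∧ Walk S.rel (S.wd u v) P ∧
    P.getD (S.wd u v).length 0 = u ∧ P.getD 0 0 = v := by
  obtain ⟨a1, a2, a3⟩ := S.wd_spec h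
  obtain ⟨P, b1, b2, b3⟩ := Sys.exists_walk (S := S) a2
  exact ⟨P, rdI_iff.2 a1, b1, b2, b3.trans a3⟩

theorem lv_bp (n : ℕ) : S.lv (bp S n) = n := Nat.find_spec (S.ne n)

end Tr

theorem p_rdI {α : Type} [Primcodable α] {L : α → List ℕ} (hL : Computable L) :
    ComputablePred fun a => RdI (L a) := by
  have : ComputablePred fun a => Ball ((L a).length - 1)
      fun j => (L a).getD j 0 ≠ (L a).getD (j + 1) 0 := by fun_prop
  exact this.of_eq fun q => forall_congr' fun j => by rw [Nat.lt_sub_iff_add_lt]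

theorem pCocC : CocC := by
  intro lev par S hS
  have h := hS.cp
  have hb : Computable (bp S) :=
    (Computable.find (P := fun n x => S.rel (2 * n + 1) x x) (by fun_prop)
      fun n => by simpa using S.ne n).of_eq fun n => by simp [bp]
  let d : ℕ → List ℕ × List ℕ := ofNat _
  have hd : Computable d := Computable.ofNat _
  have ex : ∀ n, ∃ t, RdI (d t).1 ∧ Walk S.rel (d t).1 (d t).2 ∧
      (d t).2.getD (d t).1.length 0 = bp S n ∧ S.rel 0 (bp S (n + 1)) ((d t).2.getD 0 0) := by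
    intro n
    obtain ⟨P, a1, a2, a3, a4⟩ := wd_walk S (u := bp S n) (v := S.p (bp S (n + 1)))
      (by rw [lv_bp, S.lv_p _ _ (lv_bp S _)])
    refine ⟨Encodable.encode (coc S (bp S) n, P), ?_⟩
    simp only [d, ofNat_encode]
    exact ⟨a1, a2, a3, by rw [a4]; simp [lv_bp]⟩
  have hf := Computable.find (P := fun n t => RdI (d t).1 ∧ Walk S.rel (d t).1 (d t).2 ∧
      (d t).2.getD (d t).1.length 0 = bp S n ∧ S.rel 0 (bp S (n + 1)) ((d t).2.getD 0 0))
    (p_and (p_rdI (by fun_prop)) (by unfold Walk; fun_prop)) ex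
  refine (c_fst (hd.comp hf)).of_eq fun n => ?_
  obtain ⟨a1, a2, a3, a4⟩ := Nat.find_spec (ex n)
  rw [← (walk_wd S a1 a2).2, a3, ← ((S.rel_zero _ _).1 a4).2]
  rfl

theorem par_cases (i : ℕ) : (∃ k, i = 2 * k) ∨ ∃ k, i = 2 * k + 1 := by
  rcases Nat.even_or_odd' i with ⟨k, h | h⟩
  exacts [Or.inl ⟨k, h⟩, Or.inr ⟨k, h⟩]

section Dls
variable {α : Type} [Primcodable α] {lev par : ℕ → ℕ}

theorem d_desc (hl : Computable lev) (hp : Computable par) :
    Dl fun z : ℕ × ℕ × ℕ => Desc lev par z.1 z.2.1 z.2.2 := by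
  unfold Desc
  fun_prop

@[fun_prop] theorem d_evh {e a b c : α → ℕ} (he : Computable e) (ha : Computable a)
    (hb : Computable b) (hc : Computable c) : Dl fun z => ev (Hold (e z)) (a z) (b z) (c z) := by
  unfold ev
  fun_prop

@[fun_prop] theorem d_desc' {a b c : α → ℕ} (hl : Computable lev) (hp : Computable par)
    (ha : Computable a) (hb : Computable b) (hc : Computable c) :
    Dl fun z => Desc lev par (a z) (b z) (c z) :=
  (d_desc hl hp).comp (g := fun z => (a z, b z, c z)) (by fun_prop)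

end Dls

theorem lab_app {lev par : ℕ → ℕ} {α : Type} {S : Sys lev par α} {pr : ℕ → ℕ × ℕ} {lab : α → ℕ}
    (h : Eqv S pr lab) {x : α} (hx : S.lv x = 0) {L : List ℕ} (hL : At lev 0 L) :
    lab (S.app L x) = L.foldr (fun σ => sw (pr σ)) (lab x) := by
  induction L with
  | nil => rfl
  | cons σ L ih =>
    rw [Sys.app_cons, h _ _ (hL σ (by simp)) (by simpa using hx), ih (hL.sub (by simp)),
      List.foldr_cons]

theorem relL_iff {lev par : ℕ → ℕ} {α β : Type} {S : Sys lev par α} {S' : Sys lev par β}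
    {lab : α → ℕ} {lab' : β → ℕ} {g : α → β} (hg : Sys.Mor S S' g)
    (hl : ∀ x, S.lv x = 0 → lab' (g x) = lab x) (i : ℕ) (x y : α) :
    relL S lab i x y ↔ relL S' lab' i (g x) (g y) := by
  rcases par_cases i with ⟨k, rfl⟩ | ⟨k, rfl⟩
  · rw [relL_even, relL_even, hg.pres]
  · rw [relL_odd, relL_odd, hg.bij.1.eq_iff, hg.lv]
    exact and_congr_right fun _ => and_congr_right fun h => by rw [hl x h]

theorem pIsoL : IsoL := by
  intro lev par pr S S' lab lab' ξ ξ' h1 h2 h h' e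
  obtain ⟨g, hg, h3⟩ := Sys.mor_of_chain S S' (fun n => (ξ n, ξ' n)) fun n =>
    ⟨by simp [(h _).1], by simp [(h _).1, (h' _).1], by simp [(h _).1, (h' _).1], [],
      by simp [At], (h n).2.symm, (h' n).2.symm⟩
  refine ⟨Equiv.ofBijective g hg.bij, relL_iff (g := g) hg fun x hx => ?_⟩
  obtain ⟨-, a2, a3⟩ := S.wd_spec ((h 0).1.trans hx.symm)
  have a4 := (h 0).1 ▸ a2
  rw [← a3, hg.app a2, lab_app h1 (h 0).1 a4, show g (ξ 0) = ξ' 0 from h3 0,
    lab_app h2 (h' 0).1 a4, e]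

theorem pIsoE : IsoE := by
  rintro lev par pr E he hi S S' lab lab' ξ ξ' h2 h h' ⟨g, hg⟩
  have m : Sys.Mor S S' g := Sys.mor_of_pres fun i x y a =>
    (relL_even _ _ _ _ _).1 ((hg (2 * i) x y).1 ((relL_even _ _ _ _ _).2 a))
  have l : lab' (g (ξ 0)) = lab (ξ 0) := ((relL_odd _ _ _ _ _).1 ((hg _ _ _).1
    ((relL_odd S lab _ _ _).2 ⟨rfl, (h 0).1, rfl⟩))).2.2
  have t := m.thread_map h
  rw [← l]
  have w := fun n => S'.wd_spec ((t n).1.trans (h' n).1.symm)
  have il : ∀ σ, (∃ n, σ ∈ S'.wd (g (ξ n)) (ξ' n)) → Ill lev par σ := fun σ hσ => by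
    refine ill_of_step (P := fun σ => ∃ n, σ ∈ S'.wd (g (ξ n)) (ξ' n)) ?_ hσ
    rintro σ ⟨n, a⟩
    have l0 := ((w n).2.1 σ a).trans (t n).1
    have e1 : g (ξ n) = S'.p (g (ξ (n + 1))) := (t n).2.symm
    rw [e1, ← (h' n).2, wd_p S' (t _).1 (h' _).1] at a
    obtain ⟨τ, b1, b2⟩ := List.mem_map.1 (mem_red a)
    exact ⟨τ, ⟨_, b1⟩, by rw [l0]; exact ((w _).2.1 τ b1).trans (t _).1, b2⟩
  obtain ⟨-, a2, a3⟩ := w 0
  have a4 : At lev 0 (S'.wd (g (ξ 0)) (ξ' 0)) := fun σ a => (a2 σ a).trans (t 0).1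
  have a5 : ∀ σ ∈ S'.wd (g (ξ 0)) (ξ' 0), E (pr σ).1 (pr σ).2 :=
    fun σ a => hi σ (a4 σ a) (il σ ⟨0, a⟩)
  have a6 := lab_app h2 (x := g (ξ 0)) (t 0).1 a4
  rw [show S'.app _ _ = ξ' 0 from a3] at a6
  rw [a6]
  generalize S'.wd (g (ξ 0)) (ξ' 0) = L at a5
  induction L with
  | nil => exact he.refl _
  | cons σ L ih =>
    refine he.trans (ih fun τ a => a5 τ (by simp [a])) ?_
    have := a5 σ (by simp)
    rw [List.foldr_cons, sw]
    split_ifs with c1 c2
    · rwa [c1]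
    · rw [c2]
      exact he.symm this
    · exact he.refl _

theorem pShift : Shift := by
  intro lev par pr S lab ξ h1 h
  refine ⟨?_, ?_⟩
  · rintro σ h0 ⟨t, rfl, ht⟩
    rw [h0] at ht
    refine ⟨fun n => S.f (t n) (ξ n), fun n => ⟨by simp only [S.lv_f, (h n).1], ?_⟩,
      h1 _ _ h0 (h 0).1⟩
    simp only []
    rw [S.p_f _ _ (by rw [(ht _).1, (h _).1, zero_add]) (by rw [(h _).1]; omega), (ht n).2,
      (h n).2]
  · rintro N ⟨g, hg⟩
    refine ⟨S.map g.symm, fun x => lab (g x), _, ?_, fun σ x a b => ?_,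
      (S.mor_map g.symm).thread_map h⟩
    · funext i x y
      rw [hg]
      exact propext (relL_iff (S.mor_map' g.symm) (fun _ _ => rfl) i x y).symm
    · simpa [Sys.map] using h1 σ (g x) a b

/-- Reduced words of a given level. -/
def Vq (lev : ℕ → ℕ) (q : ℕ × List ℕ) : Prop := Rd q.2 ∧ At lev q.1 q.2

/-- The involutions. -/
def fq (lev : ℕ → ℕ) (σ : ℕ) (q : ℕ × List ℕ) : ℕ × List ℕ :=
  if lev σ = q.1 then (q.1, act σ q.2) else q

/-- The projection. -/
def pq (par : ℕ → ℕ) (q : ℕ × List ℕ) : ℕ × List ℕ :=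
  if q.1 = 0 then q else (q.1 - 1, red (q.2.map par))

section Triv
variable {lev par : ℕ → ℕ}

theorem Vq.fq {q : ℕ × List ℕ} (h : Vq lev q) (σ : ℕ) : Vq lev (fq lev σ q) := by
  unfold U.fq
  split_ifs with h1
  · exact ⟨h.1.act σ, fun τ hτ => (mem_act hτ).elim (fun e => e ▸ h1) (h.2 τ)⟩
  · exact h

theorem Vq.pq (hp : ∀ σ n, lev σ = n + 1 → lev (par σ) = n) {q : ℕ × List ℕ} (h : Vq lev q) :
    Vq lev (pq par q) := by
  unfold U.pq
  split_ifs with h1
  · exact h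
  · refine ⟨rd_red _, fun τ hτ => ?_⟩
    obtain ⟨ρ, h2, rfl⟩ := List.mem_map.1 (mem_red hτ)
    exact hp _ _ (by rw [h.2 ρ h2]; simp only; omega)

theorem fq_fst (σ : ℕ) (q : ℕ × List ℕ) : (fq lev σ q).1 = q.1 := by
  unfold fq
  split_ifs <;> rfl

theorem foldr_fq (x : {q // Vq lev q}) {L : List ℕ} (h : At lev x.1.1 L) :
    (L.foldr (fun σ (y : {q // Vq lev q}) => (⟨fq lev σ y.1, y.2.fq σ⟩ : {q // Vq lev q})) x).1
      = (x.1.1, L.foldr act x.1.2) := by
  induction L with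
  | nil => rfl
  | cons σ L ih =>
    simp only [List.foldr_cons, ih (h.sub (by simp))]
    exact if_pos (h σ (by simp))

/-- The trivial system. -/
def TS (hp : ∀ σ n, lev σ = n + 1 → lev (par σ) = n) : Sys lev par {q // Vq lev q} where
  lv x := x.1.1
  f σ x := ⟨fq lev σ x.1, x.2.fq σ⟩
  p x := ⟨pq par x.1, x.2.pq hp⟩
  lev_par := hp
  lv_f σ x := fq_fst σ x.1
  f_f σ x h := Subtype.ext (by simp [fq, h, act_act x.2.1])
  lv_p x n h := by simp [pq, h]
  p_f σ x h h' := Subtype.ext (by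
    have h1 : lev (par σ) = x.1.1 - 1 := hp _ _ (by omega)
    simp only [fq, pq, if_pos h, if_neg h'.ne', h1, if_true, Prod.mk.injEq, true_and]
    by_cases h2 : x.1.2.head? = some σ
    · obtain ⟨t, ht⟩ := List.head?_eq_some_iff.1 h2
      rw [ht, List.map_cons, red_cons, act_act (rd_red _)]
      simp [act]
    · conv_lhs => rw [act, if_neg h2]
      rfl)
  ne n := ⟨⟨(n, []), by simp, by simp [At]⟩, rfl⟩
  conn x y h := ⟨y.1.2 ++ x.1.2.reverse, At.append (h ▸ y.2.2) x.2.2.reverse, Subtype.ext (by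
    rw [foldr_fq x (At.append (h ▸ y.2.2) x.2.2.reverse), List.foldr_append,
      foldr_act_rev x.2.1, h]
    exact Prod.ext rfl (red_of_rd y.2.1))⟩
  free x L h1 h2 h3 := foldr_act_free x.1.2 h2 (by
    have := foldr_fq x h1
    rw [h3] at this
    exact (congrArg Prod.snd this).symm)

theorem cp_vq (hl : Computable lev) : ComputablePred (Vq lev) := by
  have : ComputablePred fun q : ℕ × List ℕ => RdI q.2 ∧
      Ball q.2.length fun j => lev (q.2.getD j 0) = q.1 :=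
    p_and (p_rdI (by fun_prop)) (by fun_prop)
  refine this.of_eq fun q => and_congr rdI_iff ?_
  unfold At Ball
  rw [List.forall_mem_iff_forall_getElem]
  refine forall_congr' fun j => ⟨fun h hj => ?_, fun h hj => ?_⟩
  · simpa [List.getD_eq_getElem?_getD, hj] using h hj
  · simpa [List.getD_eq_getElem?_getD, hj] using h hj

theorem exists_enq (hl : Computable lev) :
    ∃ E : ℕ ≃ {q // Vq lev q}, Computable fun n => (E n).1 := by
  have hi : {n | Vq lev (ofNat (ℕ × List ℕ) n)}.Infinite :=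
    Set.infinite_of_injective_forall_mem (f := fun n : ℕ => Encodable.encode (n, ([] : List ℕ)))
      (fun a b h => by simpa using Encodable.encode_injective h) fun n => by
        simp only [Set.mem_ofPred_eq, ofNat_encode]
        exact ⟨by simp, by simp [At]⟩
  have hc := c_nth (cp_comp (cp_vq hl) (Computable.ofNat _)) hi
  refine ⟨Equiv.ofBijective (fun n => ⟨_, Nat.nth_mem_of_infinite hi n⟩) ⟨fun a b h => ?_,
    fun q => ?_⟩, (Computable.ofNat _).comp hc⟩
  · exact Nat.nth_injective hi ((eqv (ℕ × List ℕ)).symm.injective (congrArg Subtype.val h))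
  · refine ⟨Nat.count (fun n => Vq lev (ofNat (ℕ × List ℕ) n)) (Encodable.encode q.1),
      Subtype.ext ?_⟩
    simp only
    rw [Nat.nth_count (by simpa only [ofNat_encode] using q.2), ofNat_encode]

end Triv

theorem foldr_sw_act (pr : ℕ → ℕ × ℕ) (a σ : ℕ) (w : List ℕ) :
    (act σ w).foldr (fun σ => sw (pr σ)) a = sw (pr σ) (w.foldr (fun σ => sw (pr σ)) a) := by
  unfold act
  split_ifs with h
  · obtain ⟨t, rfl⟩ := List.head?_eq_some_iff.1 h
    simp [sw_sw]
  · rfl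

theorem pFam : Fam := by
  intro lev par pr hl hp hr hlp
  obtain ⟨E, hE⟩ := exists_enq hl
  have th : (TS hlp).Thread fun n => ⟨(n, []), by simp, by simp [At]⟩ :=
    fun n => ⟨rfl, Subtype.ext (by simp [TS, pq, red])⟩
  refine ⟨(TS hlp).map E.symm, fun a x => (E x).1.2.foldr (fun σ => sw (pr σ)) a, _, ?_,
    ((TS hlp).mor_map E.symm).thread_map th, ?_, fun a => ⟨fun σ x h1 h2 => ?_, by simp⟩⟩
  · have h2 : Computable fun z : ℕ × ℕ × List ℕ => fq lev z.1 z.2 := by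
      unfold fq
      fun_prop
    have h3 : Computable fun z : ℕ × List ℕ => pq par z := by
      unfold pq
      fun_prop
    have h4 : Computable fun z : ℕ × List ℕ => z.2.foldr (fun σ => sw (pr σ)) z.1 :=
      c_foldr (h := fun _ σ => sw (pr σ)) (by fun_prop) (by fun_prop) (by fun_prop)
    have h5 : ComputablePred fun q : ℕ × ℕ × ℕ =>
        (q.1 = 0 ∧ 0 < (E q.2.1).1.1 ∧ pq par (E q.2.1).1 = (E q.2.2).1) ∨
        (q.1 % 2 = 1 ∧ q.2.1 = q.2.2 ∧ (E q.2.1).1.1 = q.1 / 2) ∨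
        (q.1 ≠ 0 ∧ q.1 % 2 = 0 ∧ lev (q.1 / 2 - 1) = (E q.2.1).1.1 ∧
          fq lev (q.1 / 2 - 1) (E q.2.1).1 = (E q.2.2).1) := by
      generalize hF : (fun n => (E n).1) = F at hE
      have : ∀ n, (E n).1 = F n := fun n => congrFun hF n
      simp only [this]
      fun_prop
    have h6 : ComputablePred fun q : ℕ × ℕ × ℕ =>
        ((TS hlp).map E.symm).rel q.1 q.2.1 q.2.2 := h5.of_eq fun q => by
      simp only [Sys.rel, Sys.map, TS, Equiv.symm_symm, Equiv.symm_apply_eq, Subtype.ext_iff]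
    have h7 : Computable ((TS hlp).map E.symm).lv := c_fst hE
    have h8 : Computable fun z : ℕ × ℕ => (E z.2).1.2.foldr (fun σ => sw (pr σ)) z.1 :=
      h4.comp (g := fun z : ℕ × ℕ => (z.1, (E z.2).1.2))
        (c_pair (by fun_prop) (c_snd (hE.comp Computable.snd)))
    unfold relL
    exact p_or (p_and (by fun_prop) (cp_comp h6 (g := fun q : ℕ × ℕ × ℕ × ℕ =>
      (q.2.1 / 2, q.2.2.1, q.2.2.2)) (by fun_prop))) (p_and (by fun_prop) (p_and (by fun_prop)
      (p_and (p_eq (h7.comp (by fun_prop)) (by fun_prop)) (p_eq (h8.comp (g := fun q : ℕ × ℕ × ℕ × ℕ => (q.1, q.2.2.1))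
        (by fun_prop)) (by fun_prop)))))
  · refine (Computable.find (P := fun n x => (E x).1 = (n, []))
      (p_eq (hE.comp Computable.snd) (by fun_prop))
      fun n => ⟨E.symm ⟨(n, []), by simp, by simp [At]⟩, by simp⟩).of_eq fun n => ?_
    exact E.eq_symm_apply.2 (Subtype.ext (Nat.find_spec (p := fun x => (E x).1 = (n, [])) _))
  · have h3 : lev σ = (E x).1.1 := h1.trans h2.symm
    simp only [Sys.map, TS, Equiv.symm_symm, Equiv.apply_symm_apply, fq, if_pos h3,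
      foldr_sw_act]

/-! The chain forest. -/

/-- The first level of depth `k`. -/
def tp (d : ℕ → ℕ) : ℕ → ℕ
  | 0 => 0
  | k + 1 => tp d k + eG (d k) + 1

/-- The depth at level `m`. -/
def dp (d : ℕ → ℕ) : ℕ → ℕ
  | 0 => 0
  | m + 1 => if tp d (dp d m + 1) ≤ m + 1 then dp d m + 1 else dp d m

theorem tp_mono (d : ℕ → ℕ) : StrictMono (tp d) :=
  strictMono_nat_of_lt_succ fun k => by rw [tp]; omega

theorem tp_congr {d d' : ℕ → ℕ} {k : ℕ} (h : ∀ j < k, eG (d j) = eG (d' j)) :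
    tp d k = tp d' k := by
  induction k with
  | zero => rfl
  | succ k ih => rw [tp, tp, h k (by omega), ih fun j hj => h j (by omega)]

theorem eG_lt_tp (d : ℕ → ℕ) {e k : ℕ} (h : e ≤ k) : eG (d e) < tp d (k + 1) := by
  have : tp d (e + 1) ≤ tp d (k + 1) := (tp_mono d).monotone (by omega)
  rw [tp] at this
  omega

theorem dp_spec (d : ℕ → ℕ) (m : ℕ) : tp d (dp d m) ≤ m ∧ m < tp d (dp d m + 1) := by
  induction m with
  | zero => simp [dp, tp]
  | succ m ih =>
    rw [dp]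
    split_ifs with h
    · have := tp_mono d (Nat.lt_succ_self (dp d m + 1))
      exact ⟨h, by simp only [Nat.succ_eq_add_one] at this; omega⟩
    · omega

theorem dp_eq {d : ℕ → ℕ} {m k : ℕ} (h1 : tp d k ≤ m) (h2 : m < tp d (k + 1)) : dp d m = k := by
  obtain ⟨a, b⟩ := dp_spec d m
  have c1 := (tp_mono d).lt_iff_lt.1 (h1.trans_lt b)
  have c2 := (tp_mono d).lt_iff_lt.1 (a.trans_lt h2)
  omega

theorem dp_mono (d : ℕ → ℕ) {m m' : ℕ} (h : m ≤ m') : dp d m ≤ dp d m' := by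
  have := (tp_mono d).lt_iff_lt.1 (((dp_spec d m).1.trans h).trans_lt (dp_spec d m').2)
  omega

theorem dp_le (d : ℕ → ℕ) (m : ℕ) : dp d m ≤ m := (tp_mono d).le_apply.trans (dp_spec d m).1

theorem dp_congr {d d' : ℕ → ℕ} {m : ℕ} (h : ∀ j ≤ dp d m, d j = d' j) : dp d' m = dp d m := by
  have e1 : tp d (dp d m) = tp d' (dp d m) := tp_congr fun j hj => by rw [h j (by omega)]
  have e2 : tp d (dp d m + 1) = tp d' (dp d m + 1) := tp_congr fun j hj => by rw [h j (by omega)]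
  exact dp_eq (e1 ▸ (dp_spec d m).1) (e2 ▸ (dp_spec d m).2)

/-- The letter of level `m` on the branch with data `d`. -/
def lt (d : ℕ → ℕ) (m : ℕ) : ℕ := Nat.pair m (nd d (dp d m + 1))

/-- The data of a letter. -/
def dt (σ : ℕ) : ℕ → ℕ := fn σ.unpair.2

theorem dt_lt (d : ℕ → ℕ) {m j : ℕ} (h : j ≤ dp d m) : dt (lt d m) j = d j := by
  rw [dt, lt, Nat.unpair_pair, fn_nd _ (by omega)]

theorem lt_congr {d d' : ℕ → ℕ} {m : ℕ} (h : ∀ j ≤ dp d m, d j = d' j) : lt d m = lt d' m := by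
  rw [lt, lt, dp_congr h, nd_congr fun k hk => h k (by omega)]

theorem lt_inj {d d' : ℕ → ℕ} {m : ℕ} (h : lt d m = lt d' m) : dp d m = dp d' m ∧
    ∀ j ≤ dp d m, d j = d' j := by
  have e : dp d m = dp d' m :=
    (dp_congr fun j hj => (dt_lt d hj).symm).symm.trans
      (h ▸ dp_congr fun j hj => (dt_lt d' hj).symm)
  exact ⟨e, fun j hj => by rw [← dt_lt d hj, h, dt_lt d' (e ▸ hj)]⟩

/-- Parent. -/
def cpar (σ : ℕ) : ℕ := lt (dt σ) (σ.unpair.1 - 1)

/-- The pair carried by a letter. -/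
def cpr (σ : ℕ) : ℕ × ℕ := (eI (dt σ 0)).unpair

/-- Program `e` halts on `k` within `s` steps with a value below `s`. -/
def Hl (s e k : ℕ) : Prop := (Code.evaln s (ofNat Code e) k).getD s < s

/-- The conditions at depth `j`. -/
def Cd (R : (ℕ × ℕ) × List ℕ → Prop) (d : ℕ → ℕ) (j : ℕ) : Prop :=
  R ((eI (d 0)).unpair, (List.range j).map fun k => eI (d (k + 1))) ∧ tp d (j + 1) ≤ eS (d j) ∧
  Ball (j + 1) fun e =>
    (Ball (if eG (d e) = 0 then tp d (j + 1) else eG (d e) - 1) fun k => Hl (eS (d j)) e k) ∧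
    (eG (d e) ≠ 0 → ¬ Hl (eS (d j)) e (eG (d e) - 1))

/-- Level. -/
noncomputable def clev (R : (ℕ × ℕ) × List ℕ → Prop) (σ : ℕ) : ℕ :=
  if σ = lt (dt σ) σ.unpair.1 ∧ Ball (dp (dt σ) σ.unpair.1 + 1) (Cd R (dt σ)) then σ.unpair.1
  else 0

theorem Cd_congr {R : (ℕ × ℕ) × List ℕ → Prop} {d d' : ℕ → ℕ} {j : ℕ}
    (h : ∀ k ≤ j, d k = d' k) (H : Cd R d j) : Cd R d' j := by
  obtain ⟨h1, h2, h3⟩ := H
  have e : tp d (j + 1) = tp d' (j + 1) := tp_congr fun k hk => by rw [h k (by omega)]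
  refine ⟨?_, by rwa [← e, ← h j le_rfl], fun i hi => ?_⟩
  · rw [← h 0 (by omega), ← List.map_congr_left (f := fun k => eI (d (k + 1)))
      fun k hk => by rw [h _ (List.mem_range.1 hk)]]
    exact h1
  · beta_reduce
    rw [← h i (by omega), ← h j le_rfl, ← e]
    exact h3 i hi

theorem cpar_lt (d : ℕ → ℕ) (m : ℕ) : cpar (lt d (m + 1)) = lt d m := by
  rw [cpar]
  conv_lhs => arg 2; rw [lt, Nat.unpair_pair]
  exact (lt_congr fun j hj => (dt_lt d (hj.trans (dp_mono d (by omega)))).symm).symm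

theorem cpar_iter (d : ℕ → ℕ) (n j : ℕ) : cpar^[j] (lt d (n + j)) = lt d n := by
  induction j with
  | zero => rfl
  | succ j ih => rw [Function.iterate_succ_apply, ← add_assoc, cpar_lt, ih]

theorem clev_lt {R : (ℕ × ℕ) × List ℕ → Prop} {d : ℕ → ℕ} {m : ℕ}
    (h : ∀ j ≤ dp d m, Cd R d j) : clev R (lt d m) = m := by
  have e : (lt d m).unpair.1 = m := by rw [lt, Nat.unpair_pair]
  have a : ∀ j ≤ dp d m, d j = dt (lt d m) j := fun j hj => (dt_lt d hj).symm
  rw [clev, e, if_pos]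
  refine ⟨lt_congr a, fun j hj => ?_⟩
  rw [dp_congr a] at hj
  exact Cd_congr (fun i hi => a i (by omega)) (h j (by omega))

theorem clev_pos {R : (ℕ × ℕ) × List ℕ → Prop} {σ m : ℕ} (h : clev R σ = m) (hm : 0 < m) :
    σ = lt (dt σ) m ∧ ∀ j ≤ dp (dt σ) m, Cd R (dt σ) j := by
  unfold clev at h
  split_ifs at h with h1
  · rw [h] at h1
    exact ⟨h1.1, fun j hj => h1.2 j (by omega)⟩
  · omega

theorem clev_cpar (R : (ℕ × ℕ) × List ℕ → Prop) (σ n : ℕ) (h : clev R σ = n + 1) :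
    clev R (cpar σ) = n := by
  obtain ⟨h1, h2⟩ := clev_pos h (by omega)
  rw [h1, cpar_lt]
  exact clev_lt fun j hj => h2 j (hj.trans (dp_mono _ (by omega)))

section Comp
variable {α : Type} [Primcodable α]

theorem c_tp0 : Computable fun z : ℕ × ℕ => tp (dt z.1) z.2 := by
  refine (c_foldr_range (n := fun z : ℕ × ℕ => z.2) (b := fun _ => 0)
    (h := fun z k t => t + eG (fn z.1.unpair.2 k) + 1) (by fun_prop) (by fun_prop)
    (by fun_prop)).of_eq fun z => ?_
  induction z.2 with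
  | zero => rfl
  | succ k ih => rw [tp, ← ih]; rfl

@[fun_prop] theorem c_tp {σ k : α → ℕ} (h : Computable σ) (hk : Computable k) :
    Computable fun a => tp (dt (σ a)) (k a) :=
  c_tp0.comp (g := fun a => (σ a, k a)) (by fun_prop)

theorem c_dp0 : Computable fun z : ℕ × ℕ => dp (dt z.1) z.2 := by
  refine (c_foldr_range (n := fun z : ℕ × ℕ => z.2) (b := fun _ => 0)
    (h := fun z m t => if tp (dt z.1) (t + 1) ≤ m + 1 then t + 1 else t) (by fun_prop)
    (by fun_prop) (by fun_prop)).of_eq fun z => ?_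
  induction z.2 with
  | zero => rfl
  | succ k ih => rw [dp, ← ih]

@[fun_prop] theorem c_dp {σ k : α → ℕ} (h : Computable σ) (hk : Computable k) :
    Computable fun a => dp (dt (σ a)) (k a) :=
  c_dp0.comp (g := fun a => (σ a, k a)) (by fun_prop)

@[fun_prop] theorem c_dt {σ k : α → ℕ} (h : Computable σ) (hk : Computable k) :
    Computable fun a => dt (σ a) (k a) := by
  unfold dt
  fun_prop

@[fun_prop] theorem c_lt {σ k : α → ℕ} (h : Computable σ) (hk : Computable k) :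
    Computable fun a => lt (dt (σ a)) (k a) := by
  unfold lt
  exact c_npair hk (c_nd (c := fun a => dt (σ a)) (by fun_prop) (by fun_prop))

@[fun_prop] theorem p_hl {s e k : α → ℕ} (hs : Computable s) (he : Computable e)
    (hk : Computable k) : ComputablePred fun a => Hl (s a) (e a) (k a) := by
  unfold Hl
  fun_prop

theorem c_cpar : Computable cpar := by
  unfold cpar
  fun_prop

theorem c_cpr : Computable cpr := by
  unfold cpr
  fun_prop

theorem c_clev {R : (ℕ × ℕ) × List ℕ → Prop} (hR : ComputablePred R) : Computable (clev R) := by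
  have h : ComputablePred fun z : ℕ × ℕ => Cd R (dt z.1) z.2 := by
    unfold Cd
    fun_prop
  unfold clev
  fun_prop

end Comp

theorem Hl.mono {s s' e k : ℕ} (h : Hl s e k) (hs : s ≤ s') : Hl s' e k := by
  unfold Hl at *
  cases hy : Code.evaln s (ofNat Code e) k with
  | none => simp [hy] at h
  | some y =>
    rw [hy] at h
    rw [show Code.evaln s' (ofNat Code e) k = some y from Code.evaln_mono hs hy]
    exact lt_of_lt_of_le h hs

theorem cTwo' {R : (ℕ × ℕ) × List ℕ → Prop} {t : ℕ → ℕ}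
    (ht : ∀ k, clev R (t k) = k ∧ cpar (t (k + 1)) = t k) :
    ∃ f : ℕ → ℕ, (∀ n, R (cpr (t 0), (List.range n).map f)) ∧ ∀ k y, f k = y ↔
      ∃ n, 0 < n ∧ k + 1 ≤ dp (dt (t n)) n ∧ eI (dt (t n) (k + 1)) = y := by
  have it : ∀ n j, cpar^[j] (t (n + j)) = t n := fun n j => by
    induction j with
    | zero => rfl
    | succ j ih => rw [Function.iterate_succ_apply, ← add_assoc, (ht _).2, ih]
  have e1 : ∀ n N, n ≤ N → 0 < N → t n = lt (dt (t N)) n := fun n N h hN => by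
    obtain ⟨j, rfl⟩ := Nat.exists_eq_add_of_le h
    rw [← it n j, (clev_pos (ht _).1 hN).1, cpar_iter, ← (clev_pos (ht _).1 hN).1]
  have e2 : ∀ n N, n ≤ N → 0 < N → dp (dt (t n)) n = dp (dt (t N)) n ∧
      ∀ j ≤ dp (dt (t n)) n, dt (t n) j = dt (t N) j := fun n N h hN =>
    lt_inj ((e1 n (N + 1) (by omega) (by omega) ▸ lt_congr fun j hj =>
      (dt_lt _ hj).symm : t n = lt (dt (t n)) n).symm.trans (e1 n N h hN))
  have ub : ∀ j, ∃ n, 0 < n ∧ j ≤ dp (dt (t n)) n := fun j => by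
    induction j with
    | zero => exact ⟨1, by omega, by omega⟩
    | succ j ih =>
      obtain ⟨n, a, b⟩ := ih
      obtain ⟨N, hN⟩ : ∃ N, N = n + tp (dt (t n)) (dp (dt (t n)) n + 1) := ⟨_, rfl⟩
      obtain ⟨c1, c2⟩ := e2 n N (by omega) (by omega)
      have c3 : tp (dt (t n)) (dp (dt (t n)) n + 1) = tp (dt (t N)) (dp (dt (t n)) n + 1) :=
        tp_congr fun i hi => by rw [c2 i (by omega)]
      have c4 := (tp_mono _).lt_iff_lt.1 ((show tp (dt (t N)) (dp (dt (t n)) n + 1) ≤ N by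
        omega).trans_lt (dp_spec _ N).2)
      exact ⟨N, by omega, by omega⟩
  choose ν ν1 ν2 using ub
  have e3 : ∀ j n, 0 < n → j ≤ dp (dt (t n)) n → dt (t n) j = dt (t (ν j)) j := by
    intro j n a b
    rcases le_total n (ν j) with h | h
    · exact (e2 _ _ h (ν1 j)).2 j b
    · exact ((e2 _ _ h a).2 j (ν2 j)).symm
  refine ⟨fun k => eI (dt (t (ν (k + 1))) (k + 1)), fun n => ?_, fun k y =>
    ⟨fun h => ⟨_, ν1 _, ν2 _, h⟩, fun ⟨n, a, b, c⟩ => by rw [← c, e3 _ n a b]⟩⟩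
  have := ((clev_pos (ht _).1 (ν1 n)).2 n (ν2 n)).1
  rw [← (e2 0 _ (by omega) (ν1 n)).2 0 (by omega),
    List.map_congr_left (g := fun k => eI (dt (t (ν (k + 1))) (k + 1))) fun k hk => by
      rw [e3 (k + 1) _ (ν1 n) (le_trans (List.mem_range.1 hk) (ν2 n))]] at this
  exact this

theorem cTwo {R : (ℕ × ℕ) × List ℕ → Prop} {σ : ℕ} (h0 : clev R σ = 0)
    (h : Ill (clev R) cpar σ) : ∃ f : ℕ → ℕ, ∀ n, R (cpr σ, (List.range n).map f) := by
  obtain ⟨t, rfl, ht⟩ := h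
  rw [h0] at ht
  simp only [zero_add] at ht
  exact (cTwo' ht).imp fun f h => h.1

/-- `γ` lists the true guesses. -/
def TrG (γ : ℕ → ℕ) : Prop := ∀ e, (∀ k, γ e = 0 ∨ k + 1 < γ e → ∃ s, Hl s e k) ∧
  (γ e ≠ 0 → ∀ s, ¬ Hl s e (γ e - 1))

theorem exists_trG : ∃ γ, TrG γ := by
  have : ∀ e : ℕ, ∃ g : ℕ, (∀ k, g = 0 ∨ k + 1 < g → ∃ s, Hl s e k) ∧
      (g ≠ 0 → ∀ s, ¬ Hl s e (g - 1)) := fun e => by
    by_cases h : ∃ k, ∀ s, ¬ Hl s e k
    · refine ⟨Nat.find h + 1, fun k hk => ?_, fun _ => Nat.find_spec h⟩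
      simpa using Nat.find_min h (show k < Nat.find h by omega)
    · exact ⟨0, fun k _ => by simpa using not_exists.1 h k, by simp⟩
  choose γ h using this
  exact ⟨γ, h⟩

/-- Canonical branches. -/
def Brs (lev par : ℕ → ℕ) (pr : ℕ → ℕ × ℕ) (R : (ℕ × ℕ) × List ℕ → Prop)
    (br : ℕ × ℕ → (ℕ → ℕ) → ℕ → ℕ) : Prop :=
  (∀ q φ φ' n, (∀ t < n, φ t = φ' t) → br q φ n = br q φ' n) ∧
  (∀ q φ n, par (br q φ (n + 1)) = br q φ n) ∧
  (∀ q φ n, (∀ j ≤ n, R (q, (List.range j).map φ)) → lev (br q φ n) = n) ∧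
  ∀ q φ, pr (br q φ 0) = q

theorem exists_brs (R : (ℕ × ℕ) × List ℕ → Prop) : ∃ br, Brs (clev R) cpar cpr R br := by
  obtain ⟨γ, hγ⟩ := exists_trG
  let d0 : ℕ → ℕ := fun j => Nat.pair 0 (Nat.pair 0 (Nat.pair (γ j) 0))
  have es : ∀ j, ∃ s, tp d0 (j + 1) ≤ s ∧ ∀ e ≤ j,
      ∀ k < (if γ e = 0 then tp d0 (j + 1) else γ e - 1), Hl s e k := fun j => by
    obtain ⟨K, hK⟩ := fin_bound (Set.finite_le_nat j) (Q := fun e s =>
        ∀ k < (if γ e = 0 then tp d0 (j + 1) else γ e - 1), Hl s e k)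
      (fun e s s' h h' k hk => (h' k hk).mono h) fun e _ =>
        fin_bound (Set.finite_lt_nat _) (Q := fun k s => Hl s e k) (fun k s s' h h' => h'.mono h)
          fun k hk => (hγ e).1 k (by
            have : k < _ := hk
            split_ifs at this <;> omega)
    exact ⟨max K (tp d0 (j + 1)), le_max_right _ _,
      fun e he k hk => (hK e he k hk).mono (le_max_left _ _)⟩
  choose s s1 s2 using es
  let d : ℕ × ℕ → (ℕ → ℕ) → ℕ → ℕ := fun q φ j =>
    Nat.pair 0 (Nat.pair (Nat.casesOn j (Nat.pair q.1 q.2) φ) (Nat.pair (γ j) (s j)))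
  have e2 : ∀ q φ n, eG (d q φ n) = γ n := fun q φ n => by simp [d, eG]
  have e3 : ∀ q φ n, eS (d q φ n) = s n := fun q φ n => by simp [d, eS]
  have e4 : ∀ q φ, (eI (d q φ 0)).unpair = q := fun q φ => by simp [d, eI]
  have e5 : ∀ q φ n, eI (d q φ (n + 1)) = φ n := fun q φ n => by simp [d, eI]
  have e6 : ∀ q φ k, tp (d q φ) k = tp d0 k := fun q φ k =>
    tp_congr fun j _ => by rw [e2]; simp [d0, eG]
  refine ⟨fun q φ => lt (d q φ), fun q φ φ' n h => lt_congr fun j hj => ?_,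
    fun q φ n => cpar_lt _ _, fun q φ n h => clev_lt fun j hj => ⟨?_, ?_, fun e he => ?_⟩,
    fun q φ => ?_⟩
  · have := dp_le (d q φ) n
    cases j with
    | zero => rfl
    | succ j => simp only [d, h j (by omega)]
  · simpa only [e4, e5] using h j (hj.trans (dp_le _ _))
  · rw [e6, e3]
    exact s1 j
  · beta_reduce
    rw [e6, e3, e2]
    exact ⟨s2 j e (by omega), fun h => (hγ e).2 h _⟩
  · rw [cpr, dt_lt _ (by omega), e4]

/-- What the forest does to a sequence of words. -/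
def CatAt (lev par : ℕ → ℕ) (h : ℕ → List ℕ) : Prop :=
  ∃ (n1 : ℕ) (P : ℕ → ℕ → Prop) (T : ℕ → ℕ) (C : ℕ × ℕ → Prop), Computable T ∧ ComputablePred C ∧
    (∀ n, n ≤ T n) ∧ ∀ n, n1 ≤ n →
    (∀ σ ∈ h n, lev σ = n → P n σ) ∧
    (∀ τ, lev τ = n + 1 → P (n + 1) τ → P n (par τ)) ∧
    (∀ σ, lev σ = n → P n σ → ∃ K, ∀ m, K ≤ m → ¬ Desc lev par n σ m) ∧
    (∀ σ, lev σ = n → P n σ → Desc lev par n σ (T n) → C (n, σ)) ∧
    ∀ σ σ', lev σ = n → lev σ' = n → C (n, σ) → C (n, σ') →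
      par^[n - n1] σ = par^[n - n1] σ' → σ = σ'

theorem le_encode {L : List ℕ} {x : ℕ} (h : x ∈ L) : x ≤ Encodable.encode L := by
  induction L with
  | nil => simp at h
  | cons a L ih =>
    rw [Encodable.encode_list_cons]
    have h1 := Nat.left_le_pair (Encodable.encode a) (Encodable.encode L)
    have h2 := Nat.right_le_pair (Encodable.encode a) (Encodable.encode L)
    rcases List.mem_cons.1 h with rfl | h
    · exact Nat.le_succ_of_le h1
    · exact Nat.le_succ_of_le ((ih h).trans h2)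

theorem eS_le_lt (d : ℕ → ℕ) (m : ℕ) : eS (d (dp d m)) ≤ lt d m :=
  ((Nat.unpair_right_le _).trans ((Nat.unpair_right_le _).trans (Nat.unpair_right_le _))).trans
    ((le_encode (List.mem_map.2 ⟨dp d m, by simp, rfl⟩)).trans (Nat.right_le_pair _ _))

/-- Some wrong guess about a total program. -/
def Wit (γ : ℕ → ℕ) (e : ℕ) (d : ℕ → ℕ) (k : ℕ) : Prop :=
  ∃ i, i ≤ e ∧ i ≤ k ∧ γ i = 0 ∧ eG (d i) ≠ 0

theorem dich {γ : ℕ → ℕ} (hγ : TrG γ) (R : (ℕ × ℕ) × List ℕ → Prop) (e : ℕ) :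
    ∃ N, 0 < N ∧ ∀ d k, Cd R d k → N < tp d (k + 1) →
      Wit γ e d k ∨ (e ≤ k ∧ ∀ i ≤ e, eG (d i) = γ i) := by
  obtain ⟨K, hK⟩ := fin_bound (Set.finite_le_nat e) (Q := fun i s => γ i ≤ s ∧
      ∀ w < γ i - 1, Hl s i w)
    (fun i s s' h h' => ⟨h'.1.trans h, fun w hw => (h'.2 w hw).mono h⟩) fun i _ => by
      obtain ⟨s, hs⟩ := fin_bound (Set.finite_lt_nat (γ i - 1)) (Q := fun k s => Hl s i k)
        (fun k s s' h h' => h'.mono h) fun k hk => (hγ i).1 k (by
          have : k < _ := hk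
          omega)
      exact ⟨max s (γ i), le_max_right _ _, fun w hw => (hs w hw).mono (le_max_left _ _)⟩
  let d0 : ℕ → ℕ := fun j => Nat.pair 0 (Nat.pair 0 (Nat.pair (γ j) 0))
  refine ⟨K + tp d0 e + 1, by omega, fun d k ⟨_, h2, h3⟩ hN => or_iff_not_imp_left.2 fun hw => ?_⟩
  have key : ∀ i ≤ e, i ≤ k → eG (d i) = γ i := fun i a b => by
    obtain ⟨c1, c2⟩ := h3 i (by omega)
    obtain ⟨c3, c4⟩ := hK i a
    by_contra hne
    by_cases g0 : γ i = 0
    · exact hw ⟨i, a, b, g0, g0 ▸ hne⟩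
    · by_cases g1 : eG (d i) ≠ 0 ∧ eG (d i) < γ i
      · exact c2 g1.1 ((c4 _ (by omega)).mono (by omega))
      · exact (hγ i).2 g0 _ (c1 _ (by split_ifs <;> omega))
  by_cases hk : e ≤ k
  · exact ⟨hk, fun i hi => key i hi (by omega)⟩
  · have e1 : tp d (k + 1) = tp d0 (k + 1) :=
      tp_congr fun j hj => by rw [key j (by omega) (by omega)]; simp [d0, eG]
    have : tp d0 (k + 1) ≤ tp d0 e := (tp_mono _).monotone (by omega)
    omega

theorem cdesc {R : (ℕ × ℕ) × List ℕ → Prop} {d : ℕ → ℕ} {n m i s : ℕ} (hn : 0 < n) (hm : n ≤ m)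
    (h : Desc (clev R) cpar n (lt d n) m) (hi : i ≤ dp d n) (hg : eG (d i) ≠ 0)
    (hs : Hl s i (eG (d i) - 1)) : m < s := by
  obtain ⟨τ, h1, h2⟩ := h
  obtain ⟨a1, a2⟩ := clev_pos h1 (by omega)
  obtain ⟨j, rfl⟩ := Nat.exists_eq_add_of_le hm
  rw [a1, Nat.add_sub_cancel_left, cpar_iter] at h2
  obtain ⟨b1, b2⟩ := lt_inj h2
  obtain ⟨-, c2, c3⟩ := a2 _ le_rfl
  have := dp_mono (dt τ) hm
  have c4 := (c3 i (by omega)).2
  rw [b2 i (by omega)] at c4
  have c5 := (dp_spec (dt τ) (n + j)).2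
  by_contra hc
  exact c4 hg (hs.mono (by omega))

theorem cCat (R : (ℕ × ℕ) × List ℕ → Prop) (h : ℕ → List ℕ) (hc : Computable h) :
    CatAt (clev R) cpar h := by
  obtain ⟨γ, hγ⟩ := exists_trG
  obtain ⟨cd, hcd⟩ := Code.exists_code.1 (Partrec.nat_iff.1 (c_encode hc).partrec)
  obtain ⟨e, rfl⟩ : ∃ e, cd = ofNat Code e := ⟨Encodable.encode cd, (ofNat_encode _).symm⟩
  have g0 : γ e = 0 := by
    by_contra hg
    obtain ⟨s, hs⟩ := (Code.evaln_complete (c := ofNat Code e) (n := γ e - 1)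
      (x := Encodable.encode (h (γ e - 1)))).1 (by rw [hcd]; simp)
    refine (hγ e).2 hg (s + Encodable.encode (h (γ e - 1)) + 1) ?_
    rw [Hl, show Code.evaln _ _ _ = some _ from Code.evaln_mono (by omega) hs]
    simp only [Option.getD_some]
    omega
  have ev : ∀ s k, Hl s e k → Encodable.encode (h k) < s := fun s k H => by
    unfold Hl at H
    cases hy : Code.evaln s (ofNat Code e) k with
    | none => simp [hy] at H
    | some y =>
      have := Code.evaln_sound (show y ∈ Code.evaln s (ofNat Code e) k from hy)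
      rw [hcd] at this
      obtain rfl : y = Encodable.encode (h k) := by simpa using this
      simpa [hy] using H
  obtain ⟨N, N0, hN⟩ := dich hγ R e
  obtain ⟨Lt, hLt⟩ : ∃ Lt : List ℕ, ∀ i, i ∈ Lt ↔ i ≤ e ∧ γ i = 0 :=
    ⟨(List.range (e + 1)).filter fun i => γ i = 0, fun i => by simp⟩
  have ex : ∀ n, ∃ s, n ≤ s ∧ Ball (e + 1) fun i => i ∈ Lt → Ball (n + 1) fun w => Hl s i w := by
    intro n
    obtain ⟨K, hK⟩ := fin_bound Lt.finite_toSet (Q := fun i s => ∀ w < n + 1, Hl s i w)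
      (fun i s s' h h' w hw => (h' w hw).mono h) fun i hi =>
        fin_bound (Set.finite_lt_nat _) (Q := fun k s => Hl s i k) (fun k s s' h h' => h'.mono h)
          fun k _ => (hγ i).1 k (Or.inl ((hLt i).1 hi).2)
    exact ⟨max K n, le_max_right _ _, fun i _ hi w hw => (hK i hi w hw).mono (le_max_left _ _)⟩
  have nw : ∀ d k, (∀ i ≤ e, eG (d i) = γ i) → ¬ Wit γ e d k :=
    fun d k a ⟨i, b1, _, b3, b4⟩ => b4 ((a i b1).trans b3)
  refine ⟨N, fun n σ => Wit γ e (dt σ) (dp (dt σ) n), fun n => Nat.find (ex n),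
    fun z => tp (dt z.2) (dp (dt z.2) z.1) ≤ N,
    Computable.find (P := fun n s => n ≤ s ∧ Ball (e + 1) fun i => i ∈ Lt →
      Ball (n + 1) fun w => Hl s i w) (by fun_prop) ex, by fun_prop,
    fun n => (Nat.find_spec (ex n)).1, fun n hn => ⟨fun σ h1 h2 => ?_, fun τ h1 h2 => ?_,
      fun σ h1 h2 => ?_, fun σ h1 h2 h3 => ?_, fun σ σ' h1 h2 h3 h4 h5 => ?_⟩⟩
  · obtain ⟨a1, a2⟩ := clev_pos h2 (by omega)
    have sp := (dp_spec (dt σ) n).2
    refine (hN _ _ (a2 _ le_rfl) (by omega)).resolve_right fun ⟨b1, b2⟩ => ?_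
    have c1 := ev _ _ (((a2 _ le_rfl).2.2 e (by omega)).1 n (by rwa [b2 e le_rfl, if_pos g0]))
    have c2 := eS_le_lt (dt σ) n
    have c3 := le_encode h1
    omega
  · obtain ⟨a1, a2⟩ := clev_pos h1 (by omega)
    have a3 : ∀ j ≤ dp (dt τ) n, dt τ j = dt (cpar τ) j := fun j hj => by
      rw [a1, cpar_lt, dt_lt _ hj, ← a1]
    have sp := (dp_spec (dt τ) n).2
    obtain ⟨i, b1, b2, b3, b4⟩ := (hN _ _ (a2 _ (dp_mono _ (Nat.le_succ n)))
      (by omega)).resolve_right fun b => nw _ _ b.2 h2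
    exact ⟨i, b1, by rwa [dp_congr a3], b3, by rwa [← a3 i b2]⟩
  · obtain ⟨i, b1, b2, b3, b4⟩ := h2
    obtain ⟨s, hs⟩ := (hγ i).1 (eG (dt σ i) - 1) (Or.inl b3)
    refine ⟨s + n, fun m hm hd => ?_⟩
    rw [(clev_pos h1 (by omega)).1] at hd
    have := cdesc (by omega) (by omega) hd b2 b4 hs
    omega
  · obtain ⟨a1, a2⟩ := clev_pos h1 (by omega)
    rw [a1] at h3
    have sp := (dp_spec (dt σ) n).1
    change tp (dt σ) (dp (dt σ) n) ≤ N
    rcases hk : dp (dt σ) n with _ | k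
    · exact Nat.zero_le _
    · by_contra hc
      rw [hk] at sp
      obtain ⟨i, b1, b2, b3, b4⟩ := (hN _ _ (a2 k (by omega)) (by omega)).resolve_right
        fun b => nw _ _ b.2 h2
      have := eG_lt_tp (dt σ) b2
      exact lt_irrefl _ (cdesc (by omega) (Nat.find_spec (ex n)).1 h3 (i := i) (by omega) b4
        ((Nat.find_spec (ex n)).2 i (by omega) ((hLt i).2 ⟨b1, b3⟩) _ (by omega)))
  · obtain ⟨j, rfl⟩ := Nat.exists_eq_add_of_le hn
    have a1 := (clev_pos h1 (by omega)).1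
    have a2 := (clev_pos h2 (by omega)).1
    rw [a1, a2, Nat.add_sub_cancel_left, cpar_iter, cpar_iter] at h5
    have b1 : dp (dt σ) N = dp (dt σ) (N + j) :=
      dp_eq h3 (lt_of_le_of_lt (by omega) (dp_spec _ (N + j)).2)
    rw [a1, a2]
    exact lt_congr fun i hi => (lt_inj h5).2 i (b1 ▸ hi)

/-! Computable threads. -/

theorem limit_thread {lev par : ℕ → ℕ} {α : Type} (S : Sys lev par α) (x η : ℕ → α) (n1 : ℕ)
    (P : ℕ → ℕ → Prop) (hx : ∀ n, S.lv (x n) = n) (hη : S.Thread η)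
    (h1 : ∀ n, n1 ≤ n → ∀ σ ∈ coc S x n, lev σ = n → P n σ)
    (h2 : ∀ n, n1 ≤ n → ∀ τ, lev τ = n + 1 → P (n + 1) τ → P n (par τ))
    (h3 : ∀ n, n1 ≤ n → ∀ σ, lev σ = n → P n σ → ∃ K, ∀ m, K ≤ m → ¬ Desc lev par n σ m) :
    ∃ z, S.Thread z ∧ ∀ n, n1 ≤ n → ∀ m, n ≤ m →
      ∀ σ ∈ S.wd (yy S x n m) (z n), P n σ ∧ Desc lev par n σ m := by
  have l : ∀ {n m}, n ≤ m → S.lv (yy S x n m) = n := fun h => lv_yy S x hx h
  have A : ∀ j n, n1 ≤ n → ∀ σ ∈ S.wd (x n) (yy S x n (n + j)), P n σ := fun j => by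
    induction j with
    | zero =>
      intro n _ σ hσ
      have := S.wd_app (x := x n) (L := []) (by simp [At])
      simp only [yy, add_zero, Nat.sub_self, Function.iterate_zero, id] at hσ
      rw [Sys.app_nil] at this
      simp [this, red] at hσ
    | succ j ih =>
      intro n hn σ hσ
      have lp := S.lv_p _ _ (hx (n + 1))
      rcases mem_wd_trans S (v := S.p (x (n + 1))) ((hx n).trans lp.symm)
        (lp.trans (l (by omega)).symm) hσ with h | h
      · exact h1 n hn σ h ((hx n) ▸ (S.wd_spec ((hx n).trans lp.symm)).2.1 σ h)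
      · rw [← p_yy S x (by omega)] at h
        obtain ⟨τ, b1, b2, rfl⟩ := mem_wd_yy S (hx _) (l (by omega)) h
        exact h2 n hn τ b2 (ih (n + 1) (by omega) τ (by rwa [add_right_comm]))
  have B : ∀ n, ∃ w, n1 ≤ n → S.lv w = n ∧ ∀ m, n ≤ m →
      ∀ σ ∈ S.wd (yy S x n m) w, P n σ ∧ Desc lev par n σ m := fun n => by
    obtain ⟨a1, a2, a3⟩ := S.wd_spec ((hx n).trans (hη n).1.symm)
    obtain ⟨q, t, e, b2, b3⟩ := split_suffix (P n) (S.wd (x n) (η n))
    rw [e] at a1 a2 a3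
    have at1 : At lev (S.lv (x n)) t := a2.sub (by simp)
    refine ⟨S.app t (x n), fun hn => ⟨by rw [S.lv_app, hx], fun m hm => ?_⟩⟩
    have hl : S.lv (yy S x n m) = S.lv (S.app t (x n)) := by rw [S.lv_app, hx, l hm]
    obtain ⟨c1, c2, c3⟩ := S.wd_spec hl
    have hP : ∀ σ ∈ S.wd (yy S x n m) (S.app t (x n)), P n σ := fun σ hσ => by
      rcases mem_wd_trans S (v := x n) (by rw [hx, l hm]) (by simp) hσ with h | h
      · obtain ⟨j, rfl⟩ := Nat.exists_eq_add_of_le hm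
        exact A j n hn σ (mem_wd_symm S (by rw [hx, l hm]) h)
      · rw [S.wd_app at1] at h
        exact b2 σ (mem_red h)
    have hr : Rd (q ++ S.wd (yy S x n m) (S.app t (x n))) := by
      rw [Rd, List.isChain_append] at a1 ⊢
      exact ⟨a1.1, c1, fun a ha b hb e => b3 a ha (e ▸ hP b (List.mem_of_mem_head? hb))⟩
    have hat : At lev (S.lv (yy S x n m)) (q ++ S.wd (yy S x n m) (S.app t (x n))) :=
      At.append (by rw [l hm, ← hx n]; simpa only [hx] using a2.sub (by simp)) c2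
    have hw := S.wd_app hat
    rw [red_of_rd hr, S.app_append, c3, ← S.app_append, a3] at hw
    intro σ hσ
    refine ⟨hP σ hσ, pDescW lev par α S (x m) (η m) n m hm (hx _) (hη _).1 σ ?_⟩
    have := thread_iter S hη n (m - n)
    rw [show n + (m - n) = m by omega] at this
    rw [this, ← yy, hw]
    simp [hσ]
  choose w hw using B
  have C : ∀ n, n1 ≤ n → S.p (w (n + 1)) = w n := fun n hn => by
    obtain ⟨a1, a2⟩ := hw n hn
    obtain ⟨b1, b2⟩ := hw (n + 1) (by omega)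
    have lp := S.lv_p _ _ b1
    have key : ∀ m, n + 1 ≤ m → ∀ σ ∈ S.wd (S.p (w (n + 1))) (w n),
        P n σ ∧ Desc lev par n σ m := fun m hm σ hσ => by
      rcases mem_wd_trans S (v := yy S x n m) (lp.trans (l (by omega)).symm)
        ((l (by omega)).trans a1.symm) hσ with h | h
      · have h' := mem_wd_symm S ((l (by omega)).trans lp.symm) h
        rw [← p_yy S x hm] at h'
        obtain ⟨τ, c1, c2, rfl⟩ := mem_wd_yy S (l hm) b1 h'
        obtain ⟨c3, ρ, c4, c5⟩ := b2 m hm τ c1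
        refine ⟨h2 n hn τ c2 c3, ρ, c4, ?_⟩
        rw [← c5, ← Function.iterate_succ_apply' par]
        congr 1
        omega
      · exact a2 m (by omega) σ h
    obtain ⟨-, c2, c3⟩ := S.wd_spec (lp.trans a1.symm)
    have e : S.wd (S.p (w (n + 1))) (w n) = [] := List.eq_nil_iff_forall_not_mem.2 fun σ hσ => by
      obtain ⟨K, hK⟩ := h3 n hn σ (lp ▸ c2 σ hσ) (key _ le_rfl σ hσ).1
      exact hK (K + n + 1) (by omega) (key _ (by omega) σ hσ).2
    rwa [e] at c3
  have D : ∀ j n, n1 ≤ n → S.p^[j] (w (n + j)) = w n := fun j n hn => by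
    induction j with
    | zero => rfl
    | succ j ih => rw [Function.iterate_succ_apply, ← add_assoc, C _ (by omega), ih]
  refine ⟨fun n => S.p^[n1] (w (n + n1)), fun n => ⟨S.lv_iter _ _ _ (hw _ (by omega)).1, ?_⟩,
    fun n hn => ?_⟩
  · simp only []
    rw [← Function.iterate_succ_apply' S.p, Function.iterate_succ_apply, add_right_comm,
      C _ (by omega)]
  · simp only [D n1 n hn]
    exact (hw n hn).2

section CS
variable {lev par : ℕ → ℕ} (S : Sys lev par ℕ)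

/-- Total version of the action. -/
def fC (σ x : ℕ) : ℕ := if lev σ = S.lv x then S.f σ x else x

/-- Total version of the projection. -/
def pC (x : ℕ) : ℕ := if S.lv x = 0 then x else S.p x

/-- Total version of the word between two points. -/
noncomputable def wC (x y : ℕ) : List ℕ := if S.lv x = S.lv y then S.wd x y else []

theorem foldr_fC {L : List ℕ} {x : ℕ} (h : At lev (S.lv x) L) : L.foldr (fC S) x = S.app L x := by
  induction L with
  | nil => rfl
  | cons σ L ih =>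
    rw [List.foldr_cons, ih (h.sub (by simp)), fC, if_pos (by simpa using h σ (by simp))]
    rfl

theorem iter_pC (j : ℕ) : ∀ x, j ≤ S.lv x → (pC S)^[j] x = S.p^[j] x := by
  induction j with
  | zero => intro x _; rfl
  | succ j ih =>
    intro x h
    rw [Function.iterate_succ_apply, Function.iterate_succ_apply, pC, if_neg (by omega),
      ih _ (by rw [S.lv_p x (S.lv x - 1) (by omega)]; omega)]

variable {S} {α : Type} [Primcodable α]

theorem p_forall_mem {L : α → List ℕ} {Q : α → ℕ → Prop} (hL : Computable L)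
    (hQ : ComputablePred fun z : α × ℕ => Q z.1 z.2) :
    ComputablePred fun a => ∀ σ ∈ L a, Q a σ := by
  have : ComputablePred fun a => Ball (L a).length fun j => Q a ((L a).getD j 0) :=
    p_ball (by fun_prop) (cp_comp hQ (g := fun z : α × ℕ => (z.1, (L z.1).getD z.2 0))
      (by fun_prop))
  refine this.of_eq fun a => ?_
  unfold Ball
  rw [List.forall_mem_iff_forall_getElem]
  refine forall_congr' fun j => ⟨fun h hj => ?_, fun h hj => ?_⟩
  · simpa [List.getD_eq_getElem?_getD, hj] using h hj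
  · simpa [List.getD_eq_getElem?_getD, hj] using h hj

theorem c_lv (hS : IsComp S.rel) : Computable S.lv := by
  have h := hS.cp
  exact (Computable.find (P := fun x n => S.rel (2 * n + 1) x x) (by fun_prop)
    fun x => ⟨S.lv x, by simp⟩).of_eq fun x => by simp [Nat.find_eq_iff]; omega

theorem c_of_graph {f : α → ℕ} {Q : α → ℕ → Prop} (hQ : ComputablePred fun z : α × ℕ => Q z.1 z.2)
    (h : ∀ a y, Q a y ↔ f a = y) : Computable f :=
  (Computable.find (P := Q) hQ fun a => ⟨f a, (h _ _).2 rfl⟩).of_eq fun a =>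
    ((h _ _).1 (Nat.find_spec (p := Q a) _)).symm

theorem c_fC (hS : IsComp S.rel) (hl : Computable lev) :
    Computable fun z : ℕ × ℕ => fC S z.1 z.2 := by
  have h := hS.cp
  have h1 := c_lv hS
  refine c_of_graph (Q := fun z y => S.rel (2 * z.1 + 2) z.2 y ∨ (lev z.1 ≠ S.lv z.2 ∧ z.2 = y))
    (by fun_prop) fun z y => ?_
  unfold fC
  split_ifs with a <;> simp [a]

theorem c_pC (hS : IsComp S.rel) : Computable (pC S) := by
  have h := hS.cp
  have h1 := c_lv hS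
  refine c_of_graph (Q := fun x y => S.rel 0 x y ∨ (S.lv x = 0 ∧ x = y)) (by fun_prop)
    fun x y => ?_
  unfold pC
  split_ifs with a <;> simp [a, Nat.pos_iff_ne_zero]

theorem c_appC (hS : IsComp S.rel) (hl : Computable lev) {L : α → List ℕ} {x : α → ℕ}
    (hL : Computable L) (hx : Computable x) : Computable fun a => (L a).foldr (fC S) (x a) :=
  c_foldr (h := fun _ => fC S) hL hx
    ((c_fC hS hl).comp (g := fun z : α × ℕ × ℕ => z.2) (by fun_prop))

theorem c_wC (hS : IsComp S.rel) (hl : Computable lev) :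
    Computable fun z : ℕ × ℕ => wC S z.1 z.2 := by
  have h1 := c_lv hS
  refine (c_dec (c_of_graph (f := fun z : ℕ × ℕ => Encodable.encode (wC S z.1 z.2))
    (Q := fun z t => (RdI (dec t) ∧ (∀ σ ∈ dec t, lev σ = S.lv z.1) ∧
      (dec t).foldr (fC S) z.1 = z.2) ∨ (S.lv z.1 ≠ S.lv z.2 ∧ dec t = []))
    (p_or (p_and (p_rdI (by fun_prop)) (p_and (p_forall_mem (by fun_prop) (by fun_prop))
      (p_eq (c_appC hS hl (by fun_prop) (by fun_prop)) (by fun_prop)))) (by fun_prop))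
    fun z t => ?_)).of_eq fun z => ofNat_encode _
  have e : ∀ L : List ℕ, Encodable.encode L = t ↔ L = dec t := fun L =>
    ⟨fun h => by rw [← h, dec, ofNat_encode], fun h => by rw [h, dec, encode_ofNat]⟩
  rw [e, wC]
  generalize dec t = L
  constructor
  · rintro (⟨a, b, c⟩ | ⟨a, b⟩)
    · rw [foldr_fC S b] at c
      rw [← c, if_pos (by simp), S.wd_app b, red_of_rd (rdI_iff.1 a)]
    · rw [if_neg a, b]
  · split_ifs with a
    · rintro rfl
      obtain ⟨b1, b2, b3⟩ := S.wd_spec a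
      exact Or.inl ⟨rdI_iff.2 b1, b2, (foldr_fC S b2).trans b3⟩
    · rintro rfl
      exact Or.inr ⟨a, rfl⟩

theorem comp_thread (hS : IsComp S.rel) (hl : Computable lev) {η : ℕ → ℕ} (hη : S.Thread η)
    (hC : CatAt lev par (coc S (bp S))) : ∃ z, S.Thread z ∧ Computable z := by
  obtain ⟨n1, P, T, C, cT, cC, hT, H⟩ := hC
  obtain ⟨z, hz, hP⟩ := limit_thread S (bp S) η n1 P (lv_bp S) hη (fun n h => (H n h).1)
    (fun n h => (H n h).2.1) fun n h => (H n h).2.2.1
  have h := hS.cp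
  have c1 := c_lv hS
  have c2 := c_pC hS
  have c3 := c_wC hS hl
  have hb : Computable (bp S) :=
    (Computable.find (P := fun n x => S.rel (2 * n + 1) x x) (by fun_prop)
      fun n => by simpa using S.ne n).of_eq fun n => by simp [bp]
  have cy : Computable fun n => yy S (bp S) n (T n) :=
    (c_iter (k := fun n => T n - n) (σ := fun n => bp S (T n)) c2 (by fun_prop)
      (by fun_prop)).of_eq fun n => iter_pC S _ _ (by rw [lv_bp]; omega)
  have ly : ∀ n, S.lv (yy S (bp S) n (T n)) = n := fun n => lv_yy S _ (lv_bp S) (hT n)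
  generalize hy : (fun n => yy S (bp S) n (T n)) = y at cy
  have hy' : ∀ n, yy S (bp S) n (T n) = y n := congrFun hy
  simp only [hy'] at ly
  have key : Computable fun n => z (n1 + n) := by
    refine c_of_graph (Q := fun n w => S.lv w = n1 + n ∧ (pC S)^[n] w = z n1 ∧
      ∀ σ ∈ wC S (y (n1 + n)) w, C (n1 + n, σ)) (p_and (by fun_prop) (p_and (by fun_prop)
      (p_forall_mem (c3.comp (g := fun q : ℕ × ℕ => (y (n1 + q.1), q.2)) (by fun_prop))
        (by fun_prop)))) fun n w => ?_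
    obtain ⟨-, -, -, h4, h5⟩ := H (n1 + n) (by omega)
    have lz := (hz (n1 + n)).1
    have a0 : ∀ σ ∈ S.wd (y (n1 + n)) (z (n1 + n)), C (n1 + n, σ) := fun σ hσ => by
      obtain ⟨b1, b2⟩ := hP (n1 + n) (by omega) _ (hT _) σ (by rwa [hy'])
      exact h4 σ (((S.wd_spec ((ly _).trans lz.symm)).2.1 σ hσ).trans (ly _)) b1 b2
    constructor
    · rintro ⟨a1, a2, a3⟩
      rw [iter_pC S _ _ (by omega)] at a2
      rw [wC, if_pos ((ly _).trans a1.symm)] at a3
      obtain ⟨b1, b2, b3⟩ := S.wd_spec (a1.trans lz.symm)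
      rw [a1] at b2
      have b4 : ∀ σ ∈ S.wd w (z (n1 + n)), C (n1 + n, σ) := fun σ hσ =>
        (mem_wd_trans S (a1.trans (ly _).symm) ((ly _).trans lz.symm) hσ).elim
          (fun h => a3 σ (mem_wd_symm S ((ly _).trans a1.symm) h)) (a0 σ)
      have b5 := iter_app S n n1 _ w a1 b2
      rw [b3, thread_iter S hz, a2] at b5
      have b6 := S.free _ _ (by rw [(hz n1).1]; exact at_iter S b2)
        ((List.isChain_map _).2 (b1.imp_of_mem_imp fun σ σ' m1 m2 hne e => hne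
          (h5 σ σ' (b2 _ m1) (b2 _ m2) (b4 _ m1) (b4 _ m2)
            (by rwa [Nat.add_sub_cancel_left])))) b5.symm
      rw [List.map_eq_nil_iff.1 b6] at b3
      exact b3.symm
    · rintro rfl
      refine ⟨lz, by rw [iter_pC S _ _ (by omega), thread_iter S hz], ?_⟩
      rw [wC, if_pos ((ly _).trans lz.symm)]
      exact a0
  refine ⟨z, hz, (c_iter (k := fun _ => n1) c2 (by fun_prop) key).of_eq fun n => ?_⟩
  rw [iter_pC S _ _ (by rw [(hz _).1]; omega), add_comm, thread_iter S hz]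

end CS

/-- Computably isomorphic structures. -/
def CIso (M N : Str) : Prop :=
  ∃ g : ℕ ≃ ℕ, Computable g ∧ ∀ i x y, M i x y ↔ N i (g x) (g y)

theorem cIso_of_thread {lev par : ℕ → ℕ} {pr : ℕ → ℕ × ℕ} {S S' : Sys lev par ℕ}
    {lab lab' ξ ξ' : ℕ → ℕ} (hl : Computable lev) (hS : IsComp S.rel) (hS' : IsComp S'.rel)
    (h1 : Eqv S pr lab) (h2 : Eqv S' pr lab') (h : S.Thread ξ) (h' : S'.Thread ξ')
    (c : Computable ξ) (c' : Computable ξ') (e : lab (ξ 0) = lab' (ξ' 0)) :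
    CIso (relL S lab) (relL S' lab') := by
  obtain ⟨g, hg, h3⟩ := Sys.mor_of_chain S S' (fun n => (ξ n, ξ' n)) fun n =>
    ⟨by simp [(h _).1], by simp [(h _).1, (h' _).1], by simp [(h _).1, (h' _).1], [],
      by simp [At], (h n).2.symm, (h' n).2.symm⟩
  have c1 := c_lv hS
  refine ⟨Equiv.ofBijective g hg.bij, ?_, relL_iff (g := g) hg fun x hx => ?_⟩
  · refine (c_appC hS' hl ((c_wC hS hl).comp (g := fun x => (ξ (S.lv x), x)) (by fun_prop))
      (c'.comp c1)).of_eq fun x => ?_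
    obtain ⟨-, a2, a3⟩ := S.wd_spec (x := ξ (S.lv x)) (y := x) (h _).1
    change _ = g x
    simp only [wC, if_pos (h (S.lv x)).1]
    rw [foldr_fC S' (by rw [(h' _).1]; rwa [(h _).1] at a2),
      ← show g (ξ _) = ξ' _ from h3 (S.lv x), ← hg.app a2, a3]
  · obtain ⟨-, a2, a3⟩ := S.wd_spec ((h 0).1.trans hx.symm)
    have a4 := (h 0).1 ▸ a2
    rw [← a3, hg.app a2, lab_app h1 (h 0).1 a4, show g (ξ 0) = ξ' 0 from h3 0,
      lab_app h2 (h' 0).1 a4, e]

/-! A computable tree with a path and without hyperarithmetic path. -/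

theorem deep_step {γ : Type} {r r' : γ → γ → Prop} {s s' t : γ}
    (h : ∀ β, Deep r β s → Deep r' β t) (hs : r s' s) :
    ∃ t', r' t' t ∧ ∀ β, Deep r β s' → Deep r' β t' := by
  by_contra hc
  have : ∀ t', ∃ β, Deep r β s' ∧ (r' t' t → ¬ Deep r' β t') := fun t' => by
    by_cases h1 : r' t' t
    · have := not_and.1 (not_exists.1 hc t') h1
      simp only [not_forall] at this
      obtain ⟨β, a, b⟩ := this
      exact ⟨β, a, fun _ => b⟩
    · exact ⟨0, deep_iff.2 (by simp), fun h => absurd h h1⟩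
  choose B B1 B2 using this
  have d1 : Deep r (⨆ t', B t') s' := deep_iff.2 fun δ hδ => by
    obtain ⟨t', h⟩ := Ordinal.lt_iSup_iff.1 hδ
    exact deep_iff.1 (B1 t') δ h
  obtain ⟨t', a, b⟩ := deep_iff.1 (h ((⨆ t', B t') + 1) (deep_iff.2 fun δ hδ =>
    ⟨s', hs, d1.mono (Order.lt_succ_iff.1 hδ)⟩)) _ (Order.lt_succ _)
  exact B2 t' a (b.mono (Ordinal.le_iSup B t'))

/-- Children in the `b`-th half of the `n`-th tree. -/
def Kc (n b : ℕ) (s' s : List ℕ) : Prop := Rt n (b :: s'.reverse) ∧ s' ≠ [] ∧ s'.tail = s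

/-- One half embeds in the other. -/
def Sim (n b b' : ℕ) : Prop := ∃ φ : List ℕ → List ℕ, ∀ s s',
  (s = [] → φ s = []) ∧ (Kc n b s' s → Kc n b' (φ s') (φ s))

theorem sg_sim : Sg fun z : ℕ × ℕ × ℕ => Sim z.1 z.2.1 z.2.2 := by
  have rv : Computable fun l : List ℕ => l.reverse := Primrec.list_reverse.to_comp
  have : ComputablePred fun z : ℕ × ℕ × List ℕ × List ℕ => Kc z.1 z.2.1 z.2.2.1 z.2.2.2 := by
    unfold Kc
    fun_prop
  exact sg_fun2 (Q := fun (z : ℕ × ℕ × ℕ) (s u s' u' : List ℕ) =>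
    (s = [] → u = []) ∧ (Kc z.1 z.2.1 s' s → Kc z.1 z.2.2 u' u)) (Sg.of_cp (by fun_prop))

theorem sim_of_deep {n b b' : ℕ} (h : ∀ β, Deep (Kc n b) β [] → Deep (Kc n b') β []) :
    Sim n b b' := by
  have : ∀ s' t : List ℕ, ∃ t', (∀ β, Deep (Kc n b) β s'.tail → Deep (Kc n b') β t) →
      Kc n b s' s'.tail → Kc n b' t' t ∧ ∀ β, Deep (Kc n b) β s' → Deep (Kc n b') β t' := by
    intro s' t
    by_cases h1 : (∀ β, Deep (Kc n b) β s'.tail → Deep (Kc n b') β t) ∧ Kc n b s' s'.tail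
    · exact (deep_step h1.1 h1.2).imp fun _ h _ _ => h
    · exact ⟨[], fun a b => absurd ⟨a, b⟩ h1⟩
  choose Y hY using this
  let φ : List ℕ → List ℕ := fun s => List.rec [] (fun x s t => Y (x :: s) t) s
  have key : ∀ s, s = [] ∨ Rt n (b :: s.reverse) →
      ∀ β, Deep (Kc n b) β s → Deep (Kc n b') β (φ s) := fun s => by
    induction s with
    | nil => exact fun _ => h
    | cons x s ih =>
      intro hs
      have h1 := hs.resolve_left (by simp)
      exact (hY (x :: s) (φ s) (ih (Or.inr (by simpa using h1.take (s.length + 1))))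
        ⟨h1, by simp, rfl⟩).2
  refine ⟨φ, fun s s' => ⟨fun h => by rw [h], ?_⟩⟩
  rintro ⟨h1, h2, rfl⟩
  obtain ⟨x, s, rfl⟩ := List.exists_cons_of_ne_nil h2
  exact (hY (x :: s) (φ s) (key s (Or.inr (by simpa using h1.take (s.length + 1))))
    ⟨h1, h2, rfl⟩).1

theorem sim_total (n b b' : ℕ) : Sim n b b' ∨ Sim n b' b := by
  by_cases h : ∀ β, Deep (Kc n b) β [] → Deep (Kc n b') β []
  · exact Or.inl (sim_of_deep h)
  · simp only [not_forall] at h
    obtain ⟨β, h1, h2⟩ := h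
    exact Or.inr (sim_of_deep fun δ hδ => h1.mono (not_le.1 fun h => h2 (hδ.mono h)).le)

theorem Sim.path {n b b' : ℕ} (h : Sim n b b')
    (hf : ∃ f : ℕ → ℕ, ∀ k, Rt n (b :: (List.range k).map f)) :
    ∃ f : ℕ → ℕ, ∀ k, Rt n (b' :: (List.range k).map f) := by
  obtain ⟨φ, hφ⟩ := h
  obtain ⟨f, hf⟩ := hf
  have a : ∀ k, Kc n b' (φ ((List.range (k + 1)).map f).reverse)
      (φ ((List.range k).map f).reverse) := fun k =>
    (hφ _ _).2 ⟨by rw [List.reverse_reverse]; exact hf _, by simp, by simp [List.range_succ]⟩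
  have e : ∀ k, (φ ((List.range k).map f).reverse).reverse = (List.range k).map
      fun j => (φ ((List.range (j + 1)).map f).reverse).headI := fun k => by
    induction k with
    | zero => simp [(hφ [] []).1 rfl]
    | succ k ih =>
      obtain ⟨-, a2, a3⟩ := a k
      obtain ⟨x, s, hx⟩ := List.exists_cons_of_ne_nil a2
      conv_rhs => rw [List.range_succ, List.map_append, ← ih, ← a3]
      simp only [List.map_cons, List.map_nil, hx]
      simp
  refine ⟨fun j => (φ ((List.range (j + 1)).map f).reverse).headI, fun k => ?_⟩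
  have := (a k).1.take (k + 1)
  rwa [e, List.take_succ_cons, take_range, min_eq_left (by omega)] at this

theorem exists_kleene : ∃ Q : List ℕ → Prop, ComputablePred Q ∧
    (∃ f : ℕ → ℕ, ∀ n, Q ((List.range n).map f)) ∧
    ∀ f : ℕ → ℕ, (∀ n, Q ((List.range n).map f)) → ¬ Dl fun z : ℕ × ℕ => f z.1 = z.2 := by
  have : Sg fun z : ℕ × ℕ => (z.2 = 0 ∧ Sim z.1 0 1) ∨ (z.2 = 1 ∧ Sim z.1 1 0) :=
    s_or (s_and (by fun_prop) (sg_sim.comp (g := fun z : ℕ × ℕ => (z.1, 0, 1)) (by fun_prop)))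
      (s_and (by fun_prop) (sg_sim.comp (g := fun z : ℕ × ℕ => (z.1, 1, 0)) (by fun_prop)))
  obtain ⟨R, hR, H⟩ := this
  simp only [Set.mem_ofPred_eq] at H
  have key : ∀ (F : ℕ → ℕ) (N n m : ℕ), Nat.pair n m < N →
      ((List.range N).map F).getD (Nat.pair n 0) 0 = F (Nat.pair n 0) ∧
      (List.range m).map (fun k => ((List.range N).map F).getD (Nat.pair n (k + 1)) 0) =
        (List.range m).map fun k => F (Nat.pair n (k + 1)) := by
    intro F N n m h
    have mono : ∀ k ≤ m, Nat.pair n k < N := fun k hk => by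
      rcases hk.eq_or_lt with rfl | hk
      · exact h
      · exact (Nat.pair_lt_pair_right _ hk).trans h
    exact ⟨by simp [List.getD_eq_getElem?_getD, mono 0 (by omega)],
      map_getD_range F _ _ _ fun j hj => mono _ hj⟩
  refine ⟨fun s => Ball s.length fun t => R ((t.unpair.1, s.getD (Nat.pair t.unpair.1 0) 0),
    (List.range t.unpair.2).map fun k => s.getD (Nat.pair t.unpair.1 (k + 1)) 0),
    by fun_prop, ?_, fun f hf hd => ?_⟩
  · have : ∀ n, ∃ b, ∃ h : ℕ → ℕ, ∀ m, R ((n, b), (List.range m).map h) := fun n =>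
      (sim_total n 0 1).elim (fun h => ⟨0, (H (n, 0)).1 (Or.inl ⟨rfl, h⟩)⟩)
        fun h => ⟨1, (H (n, 1)).1 (Or.inr ⟨rfl, h⟩)⟩
    choose b h hh using this
    refine ⟨fun t => Nat.casesOn t.unpair.2 (b t.unpair.1) (h t.unpair.1), fun N t ht => ?_⟩
    simp only [List.length_map, List.length_range] at ht
    obtain ⟨a1, a2⟩ := key (fun t => Nat.casesOn t.unpair.2 (b t.unpair.1) (h t.unpair.1)) N
      t.unpair.1 t.unpair.2 (by rwa [Nat.pair_unpair])
    rw [a1, a2]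
    simpa using hh t.unpair.1 t.unpair.2
  · have hs : ∀ n, (f (Nat.pair n 0) = 0 ∧ Sim n 0 1) ∨ (f (Nat.pair n 0) = 1 ∧ Sim n 1 0) :=
      fun n => (H (n, f (Nat.pair n 0))).2 ⟨fun k => f (Nat.pair n (k + 1)), fun m => by
        have := hf (Nat.pair n m + 1) (Nat.pair n m) (by simp)
        obtain ⟨a1, a2⟩ := key f (Nat.pair n m + 1) n m (by omega)
        simp only [Nat.unpair_pair] at this
        rwa [a1, a2] at this⟩
    obtain ⟨⟨R1, c1, H1⟩, R0, c0, H0⟩ :=
      hd.comp (g := fun n : ℕ => (Nat.pair n 0, 1)) (by fun_prop)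
    simp only [Set.mem_ofPred_eq] at H1 H0
    obtain ⟨i, h1, h2⟩ := univ_tree (Q := fun q => q.2 = [] ∨
      (q.2.getD 0 0 = 1 ∧ R1 (q.1, q.2.tail)) ∨ (q.2.getD 0 0 = 0 ∧ R0 (q.1, q.2.tail)))
      (by fun_prop)
    have e : ∀ (b : ℕ) (g : ℕ → ℕ), (∀ k, Rt i (b :: (List.range k).map g)) ↔
        ∀ k, (b = 1 ∧ R1 (i, (List.range k).map g)) ∨ (b = 0 ∧ R0 (i, (List.range k).map g)) := by
      intro b g
      have e0 : ∀ k, (List.range (k + 1)).map (fun j => (Nat.casesOn j b g : ℕ)) =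
          b :: (List.range k).map g := fun k => by
        rw [List.range_succ_eq_map]
        simp [Function.comp_def]
      refine ⟨fun h k => ?_, fun h k => h1 _ fun j => ?_⟩
      · have := h2 (fun j => Nat.casesOn j b g) (fun m => by
          cases m with
          | zero => exact rt_nil i
          | succ m => rw [e0]; exact h m) (k + 1)
        rw [e0] at this
        simpa using this
      · cases j with
        | zero => simp
        | succ j =>
          rw [List.take_succ_cons, take_range]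
          simpa using h _
    rcases hs i with ⟨a, b⟩ | ⟨a, b⟩
    · obtain ⟨g, hg⟩ := (H0 i).1 (by omega)
      obtain ⟨g', hg'⟩ := b.path ⟨g, (e 0 g).2 fun k => Or.inr ⟨rfl, hg k⟩⟩
      have := (H1 i).2 ⟨g', fun k => by simpa using (e 1 g').1 hg' k⟩
      omega
    · obtain ⟨g, hg⟩ := (H1 i).1 a
      obtain ⟨g', hg'⟩ := b.path ⟨g, (e 1 g).2 fun k => Or.inl ⟨rfl, hg k⟩⟩
      exact (H0 i).2 ⟨g', fun k => by simpa using (e 0 g').1 hg' k⟩ a

theorem dl_branch {lev par : ℕ → ℕ} {S : Sys lev par ℕ} (hS : IsComp S.rel) (hl : Computable lev)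
    (hp : Computable par) {ξ g : ℕ → ℕ} (hξ : S.Thread ξ) (c : Computable ξ)
    (hg : Sys.Mor S S g) (dg : Dl fun z : ℕ × ℕ => g z.1 = z.2) {σ : ℕ}
    (h : σ ∈ S.wd (ξ 0) (g (ξ 0))) : ∃ t : ℕ → ℕ, t 0 = σ ∧
      (∀ k, lev (t k) = k ∧ par (t (k + 1)) = t k) ∧ Dl fun z : ℕ × ℕ => t z.1 = z.2 := by
  have l : ∀ n, S.lv (g (ξ n)) = n := fun n => (hg.thread_map hξ n).1
  have dw : Dl fun z : ℕ × ℕ => z.2 ∈ S.wd (ξ z.1) (g (ξ z.1)) := by
    have : Dl fun z : ℕ × ℕ => ∃ y, g (ξ z.1) = y ∧ z.2 ∈ wC S (ξ z.1) y :=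
      d_ex (d_and (dg.comp (g := fun z : (ℕ × ℕ) × ℕ => (ξ z.1.1, z.2)) (by fun_prop))
        (Dl.of_cp (p_mem (by fun_prop) ((c_wC hS hl).comp
          (g := fun z : (ℕ × ℕ) × ℕ => (ξ z.1.1, z.2)) (by fun_prop)))))
    exact this.of_eq fun z => by simp [wC, l, (hξ _).1]
  have lw : ∀ n, ∀ τ ∈ S.wd (ξ n) (g (ξ n)), lev τ = n := fun n τ h =>
    ((S.wd_spec ((hξ n).1.trans (l n).symm)).2.1 τ h).trans (hξ n).1
  have st : ∀ n, ∀ τ ∈ S.wd (ξ n) (g (ξ n)), ∃ ρ, ρ ∈ S.wd (ξ (n + 1)) (g (ξ (n + 1))) ∧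
      par ρ = τ := fun n τ h => by
    have e : g (ξ n) = S.p (g (ξ (n + 1))) := (hg.thread_map hξ n).2.symm
    rw [e] at h
    conv at h => arg 1; arg 2; rw [← (hξ n).2]
    obtain ⟨ρ, a, -, b⟩ := mem_wd_yy S (hξ _).1 (l _) h
    exact ⟨ρ, a, b⟩
  generalize hw : (fun n => S.wd (ξ n) (g (ξ n))) = w
  have hw' : ∀ n, S.wd (ξ n) (g (ξ n)) = w n := congrFun hw
  simp only [hw'] at h dw lw st
  let t : ℕ → ℕ := fun n => Nat.rec σ (fun n τ => sInf {ρ | ρ ∈ w (n + 1) ∧ par ρ = τ}) n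
  have ts : ∀ n, t (n + 1) = sInf {ρ | ρ ∈ w (n + 1) ∧ par ρ = t n} := fun _ => rfl
  have t1 : ∀ n, t n ∈ w n := fun n => by
    induction n with
    | zero => exact h
    | succ n ih => exact (Nat.sInf_mem (s := {ρ | ρ ∈ w (n + 1) ∧ par ρ = t n}) (st n _ ih)).1
  have t2 : ∀ n, par (t (n + 1)) = t n := fun n =>
    (Nat.sInf_mem (s := {ρ | ρ ∈ w (n + 1) ∧ par ρ = t n}) (st n _ (t1 n))).2
  refine ⟨t, rfl, fun k => ⟨lw _ _ (t1 k), t2 k⟩, ?_⟩
  have : Dl fun z : ℕ × ℕ => ∃ L : List ℕ, L.getD 0 0 = σ ∧ L.getD z.1 0 = z.2 ∧ ∀ k, k < z.1 →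
      (L.getD (k + 1) 0 ∈ w (k + 1) ∧ par (L.getD (k + 1) 0) = L.getD k 0) ∧
        ∀ ρ, ρ < L.getD (k + 1) 0 → ¬ (ρ ∈ w (k + 1) ∧ par ρ = L.getD k 0) := by
    have d1 : ∀ {δ : Type} [Primcodable δ] {a b : δ → ℕ}, Computable a → Computable b →
        Dl fun z => b z ∈ w (a z) := fun ha hb => dw.comp (c_pair ha hb)
    exact d_ex (d_and (by fun_prop) (d_and (by fun_prop) (d_all (d_imp (by fun_prop)
      (d_and (d_and (d1 (by fun_prop) (by fun_prop)) (by fun_prop)) (d_all (d_imp (by fun_prop)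
        (d_not (d_and (d1 (by fun_prop) (by fun_prop)) (by fun_prop))))))))))
  refine this.of_eq fun z => ⟨?_, ?_⟩
  · rintro ⟨L, a1, a2, a3⟩
    have : ∀ k ≤ z.1, t k = L.getD k 0 := fun k => by
      induction k with
      | zero => exact fun _ => a1.symm
      | succ k ih =>
        intro hk
        obtain ⟨b1, b2⟩ := a3 k hk
        rw [ts, ih (by omega)]
        exact le_antisymm (Nat.sInf_le b1) (not_lt.1 fun h => b2 _ h
          (Nat.sInf_mem (s := {ρ | ρ ∈ w (k + 1) ∧ par ρ = L.getD k 0}) ⟨_, b1⟩))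
    rw [this _ le_rfl, a2]
  · intro e
    have a : ∀ k ≤ z.1, ((List.range (z.1 + 1)).map t).getD k 0 = t k := fun k hk => by
      rw [List.getD_eq_getElem _ _ (by simp; omega), List.getElem_map, List.getElem_range]
    refine ⟨(List.range (z.1 + 1)).map t, a 0 (by omega), (a _ le_rfl).trans e, fun k hk => ?_⟩
    rw [a k hk.le, a (k + 1) hk]
    exact ⟨⟨t1 _, t2 k⟩, fun ρ hρ h => hρ.not_ge (Nat.sInf_le h)⟩

/-! Scott rank of labelled systems. -/

theorem atEq_ev {M : Str} {a b : List ℕ} (h : AtEq M a b) : AtEq (ev M) a b :=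
  ⟨h.1, fun j k hj hk => ⟨(h.2 j k hj hk).1, fun i => (h.2 j k hj hk).2 (2 * i)⟩⟩

theorem bf_ev {M : Str} (β : Ordinal.{0}) : ∀ {a b : List ℕ}, BF4 M β a b → BF4 (ev M) β a b := by
  induction β using WellFoundedLT.induction with
  | ind β ih =>
    intro a b h
    obtain ⟨h1, h2⟩ := bf_iff.1 h
    exact bf_iff.2 ⟨atEq_ev h1, fun δ hδ => ⟨fun c => ((h2 δ hδ).1 c).imp fun _ => ih δ hδ,
      fun d => ((h2 δ hδ).2 d).imp fun _ => ih δ hδ⟩⟩

section Rank
variable {lev par : ℕ → ℕ} {pr : ℕ → ℕ × ℕ} {S : Sys lev par ℕ} {lab : ℕ → ℕ}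

theorem orbit_relL (hS : IsComp S.rel) (hE : Eqv S pr lab) (a b : List ℕ)
    (h : BF4 (relL S lab) omega1CK a b) : SameOrbit (relL S lab) a b := by
  obtain ⟨g, g1, rfl⟩ := Sys.orbit_of_bf hS (ev_relL S lab ▸ bf_ev _ h)
  cases a with
  | nil => exact ⟨Equiv.refl _, fun _ _ _ => Iff.rfl, rfl⟩
  | cons x a =>
    have hg : Sys.Mor S S g := Sys.mor_of_pres fun i x y => (g1 i x y).1
    obtain ⟨a', b', h1, h2, h3⟩ := h.ext Sys.omega_pos
      ((List.range (S.lv x + 1)).map fun k => S.p^[k] x)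
    have e := (bf_iff.1 h1).1
    have e' : AtEq S.rel a' b' := ev_relL S lab ▸ atEq_ev e
    have a0 : ∀ k ≤ S.lv x, (S.p^[k] x, g (S.p^[k] x)) ∈ a'.zip b' := by
      intro k
      induction k with
      | zero => intro _; exact h2 (by simp)
      | succ k ih =>
        intro hk
        have l2 : 0 < S.lv (S.p^[k] x) := by
          rw [S.lv_iter k (S.lv x - k) x (by omega)]; omega
        rw [Function.iterate_succ_apply', hg.p _ l2]
        exact Sys.at_p e' (ih (by omega)) l2 (h3 (List.mem_map.2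
          ⟨k + 1, by simp; omega, by rw [Function.iterate_succ_apply']⟩))
    have l0 := S.lv_iter (S.lv x) 0 x (by omega)
    have a1 := a0 _ le_rfl
    generalize S.p^[S.lv x] x = u at l0 a1
    have a2 : lab (g u) = lab u := ((relL_odd _ _ _ _ _).1
      ((((atEq_iff.1 e).2 _ a1 _ a1).2 (2 * lab u + 1)).1 (by simp [l0]))).2.2
    refine ⟨g, relL_iff hg fun y hy => ?_, rfl⟩
    obtain ⟨-, b2, b3⟩ := S.wd_spec (l0.trans hy.symm)
    have b4 := l0 ▸ b2
    rw [← b3, hg.app b2, lab_app hE l0 b4, lab_app hE ((hg.lv u).trans l0) b4, a2]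

variable {e : ℕ → ℕ}

theorem pa_relL (hE : Eqv S pr lab) (he : S.Thread e) {m : ℕ} {s : ℕ → ℕ} (hs : Br lev par m s)
    (h0 : (pr (s 0)).1 = (pr (s 0)).2) {x y : ℕ} (hx : S.lv x ≤ m) (hy : S.lv y ≤ m) (i : ℕ) :
    relL S lab i x y ↔ relL S lab i (S.pa e s x) (S.pa e s y) := by
  rcases par_cases i with ⟨k, rfl⟩ | ⟨k, rfl⟩
  · rw [relL_even, relL_even, Sys.pa_rel he hs hx hy]
  · rw [relL_odd, relL_odd, Sys.pa_inj he hs hx hy, Sys.lv_pa he]
    refine and_congr_right fun _ => and_congr_right fun h => ?_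
    obtain ⟨-, b2, b3⟩ := S.wd_spec ((he 0).1.trans h.symm)
    have b4 := (he 0).1 ▸ b2
    have : lab (S.f (s 0) (e 0)) = lab (e 0) := by
      rw [hE _ _ (hs.1 0 (by omega)) (he 0).1, sw]
      split_ifs <;> omega
    rw [← b3, Sys.pa_app he b4, lab_app hE (he 0).1 b4,
      lab_app hE ((S.lv_f _ _).trans (he 0).1) b4, this]

theorem bf_goodL (hE : Eqv S pr lab) (he : S.Thread e) (β : Ordinal.{0}) :
    ∀ m s, Good lev par β m s → (pr (s 0)).1 = (pr (s 0)).2 → ∀ a : List ℕ,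
      (∀ x ∈ a, S.lv x ≤ m) → BF4 (relL S lab) β a (a.map (S.pa e s)) := by
  induction β using WellFoundedLT.induction with
  | ind β ih =>
    intro m s h h0 a ha
    obtain ⟨h1, h2⟩ := good_iff.1 h
    refine bf_iff.2 ⟨atEq_iff.2 ⟨by simp, ?_⟩, fun δ hδ => ?_⟩
    · have : ∀ u ∈ a.zip (a.map (S.pa e s)), S.lv u.1 ≤ m ∧ u.2 = S.pa e s u.1 := by
        intro u hu
        rw [List.zip_map_right, List.zip_eq_zipWith, List.zipWith_self] at hu
        simp only [List.map_map, List.mem_map] at hu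
        obtain ⟨x, hx, rfl⟩ := hu
        exact ⟨ha x hx, rfl⟩
      intro u hu v hv
      obtain ⟨u1, u2⟩ := this u hu
      obtain ⟨v1, v2⟩ := this v hv
      rw [u2, v2]
      exact ⟨(Sys.pa_inj he h1 u1 v1).symm, pa_relL hE he h1 h0 u1 v1⟩
    · have key : ∀ c : List ℕ, ∃ m' s', Br lev par m' s' ∧ (∀ x ∈ c, S.lv x ≤ m') ∧
          ∀ c' : List ℕ, (∀ x ∈ c', S.lv x ≤ m') →
            BF4 (relL S lab) δ (a ++ c') (a.map (S.pa e s) ++ c'.map (S.pa e s')) := by
        intro c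
        obtain ⟨m', s', b1, b2, b3, b4⟩ := h2 δ hδ (c.map S.lv).sum
        refine ⟨m', s', (good_iff.1 b4).1, fun x hx =>
          (List.single_le_sum (by simp) _ (List.mem_map_of_mem hx)).trans b1, fun c' hc => ?_⟩
        have e1 : a.map (S.pa e s) = a.map (S.pa e s') := List.map_congr_left fun x hx => by
          rw [Sys.pa, Sys.pa, b3 _ (ha x hx)]
        rw [e1, ← List.map_append]
        exact ih δ hδ m' s' b4 (by rwa [b3 0 (by omega)]) _ fun x hx =>
          (List.mem_append.1 hx).elim (fun h => (ha x h).trans b2) (hc x)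
      refine ⟨fun c => ?_, fun d => ?_⟩
      · obtain ⟨m', s', -, b2, b3⟩ := key c
        exact ⟨_, b3 c b2⟩
      · obtain ⟨m', s', b1, b2, b3⟩ := key d
        have := b3 (d.map (S.pa e s')) (by
          intro x hx
          obtain ⟨y, hy, rfl⟩ := List.mem_map.1 hx
          rw [Sys.lv_pa he]
          exact b2 y hy)
        rw [List.map_map, List.map_congr_left (f := S.pa e s' ∘ S.pa e s') (g := id)
          (fun x hx => Sys.pa_pa he b1 (b2 x hx)),
          List.map_id] at this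
        exact ⟨_, this⟩

theorem rank_relL (hS : IsComp S.rel) (hE : Eqv S pr lab) (he : S.Thread e)
    (H : ∀ β, CompOrd β → ∃ s, Good lev par β 0 s ∧ ¬ Ill lev par (s 0) ∧
      (pr (s 0)).1 = (pr (s 0)).2) : scottRank (relL S lab) = omega1CK + 1 := by
  have h := orbit_relL hS hE
  refine le_antisymm (scottRank_le h) (Order.succ_le_of_lt ?_)
  have e1 : tupleRank (relL S lab) [e 0] < scottRank (relL S lab) :=
    csInf_mem (s := {α | ∀ a, tupleRank (relL S lab) a < α}) ⟨omega1CK + 1, fun a =>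
      (csInf_le' (s := {β | ∀ b, BF4 (relL S lab) β a b → SameOrbit (relL S lab) a b})
        (h a)).trans_lt (Order.lt_succ _)⟩ _
  have e2 := csInf_mem (s := {β | ∀ b, BF4 (relL S lab) β [e 0] b →
    SameOrbit (relL S lab) [e 0] b}) ⟨omega1CK, h _⟩
  refine lt_of_le_of_lt (not_lt.1 fun hβ => ?_) e1
  obtain ⟨s, a1, a2, a3⟩ := H _ (compOrd_iff.2 hβ)
  have l := (good_iff.1 a1).1.1 0 le_rfl
  obtain ⟨g, g1, g2⟩ := e2 _ (bf_goodL hE he _ 0 s a1 a3 [e 0] (by simp [(he 0).1]))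
  have hg : Sys.Mor S S g := Sys.mor_of_pres fun i x y a =>
    (relL_even _ _ _ _ _).1 ((g1 (2 * i) x y).1 ((relL_even _ _ _ _ _).2 a))
  have g3 : g (e 0) = S.app [s 0] (e 0) := by
    have := Sys.pa_app (s := s) he (n := 0) (L := []) (by simp [At])
    rw [Sys.app_nil, Sys.app_nil] at this
    simpa [this] using g2
  refine a2 (he.ill hg (n := 0) ?_)
  rw [g3, S.wd_app (by simpa [At, (he 0).1] using l)]
  simp [red, act]

end Rank

theorem good_brs {lev par : ℕ → ℕ} {pr : ℕ → ℕ × ℕ} {R : (ℕ × ℕ) × List ℕ → Prop}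
    {br : ℕ × ℕ → (ℕ → ℕ) → ℕ → ℕ} (hb : Brs lev par pr R br)
    (hR : ∀ i s, R ((1, i), s) ↔ Rt i s) (β : Ordinal.{0}) (hβ : CompOrd β) :
    ∃ i, Good lev par β 0 (br (1, i) id) ∧ ¬ MP_9125cf_lc.U i := by
  obtain ⟨T, r, wo, hT, hr, rfl⟩ := hβ
  let lx : ℕ → ℕ → Prop := fun a b =>
    r a.unpair.1 b.unpair.1 ∨ (a.unpair.1 = b.unpair.1 ∧ a.unpair.2 < b.unpair.2)
  have e1 : ∀ {δ : Type} [Primcodable δ] {f : δ → ℕ}, Computable f →
      ComputablePred fun x => f x ∈ T := fun h => cp_comp hT h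
  obtain ⟨i, h1, h2⟩ := univ_tree (Q := fun q => Ball q.2.length
    (fun t => (q.2.getD t 0).unpair.1 ∈ T) ∧ Ball (q.2.length - 1)
    fun t => lx (q.2.getD (t + 1) 0) (q.2.getD t 0))
    (p_and (p_ball (by fun_prop) (e1 (by fun_prop))) (by simp only [lx]; fun_prop))
  have key : ∀ β : Ordinal.{0}, ∀ k (φ : ℕ → ℕ), (∀ t < k, (φ t).unpair.1 ∈ T) →
      (∀ t, t + 1 < k → lx (φ (t + 1)) (φ t)) →
      (∀ δ < β, ∃ b : T, Ordinal.typein (fun x y : T => r x y) b = δ ∧
        ∀ t, t + 1 = k → r b (φ t).unpair.1) → Good lev par β k (br (1, i) φ) := by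
    intro β
    induction β using WellFoundedLT.induction with
    | ind β ih =>
      intro k φ a1 a2 a3
      refine good_iff.2 ⟨⟨fun n hn => hb.2.2.1 _ _ _ fun n' hn' => (hR _ _).2 (h1 _ fun j => ?_),
        fun n _ => hb.2.1 _ φ n⟩, fun δ hδ M => ?_⟩
      · rw [take_range]
        refine ⟨fun t ht => ?_, fun t ht => ?_⟩
        · simp only [List.length_map, List.length_range] at ht
          simpa [List.getD_eq_getElem?_getD, ht] using a1 t (by omega)
        · simp only [List.length_map, List.length_range] at ht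
          simpa [List.getD_eq_getElem?_getD, show t < min j n' by omega,
            show t + 1 < min j n' by omega] using a2 t (by omega)
      · obtain ⟨b, rfl, b2⟩ := a3 δ hδ
        refine ⟨k + M + 1, br (1, i) fun t => if t < k then φ t else Nat.pair b (M - (t - k)),
          by omega, by omega, fun n hn => hb.1 _ _ _ _ fun t ht => if_pos (by omega),
          ih _ hδ _ _ (fun t ht => ?_) (fun t ht => ?_) fun ε hε => ?_⟩
        · split_ifs with h
          · exact a1 t h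
          · simp
        · by_cases c1 : t + 1 < k
          · rw [if_pos c1, if_pos (by omega)]
            exact a2 t c1
          · by_cases c2 : t < k
            · rw [if_neg c1, if_pos c2]
              exact Or.inl (by simpa using b2 t (by omega))
            · rw [if_neg c1, if_neg c2]
              exact Or.inr ⟨by simp, by simp; omega⟩
        · obtain ⟨b', rfl⟩ := Ordinal.typein_surj _ (hε.trans (Ordinal.typein_lt_type _ b))
          refine ⟨b', rfl, fun t ht => ?_⟩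
          rw [if_neg (by omega)]
          simpa using (Ordinal.typein_lt_typein _).1 hε
  refine ⟨i, key _ 0 id (by simp) (by simp) fun δ hδ => ?_, fun ⟨f, hf⟩ => ?_⟩
  · obtain ⟨b, hb⟩ := Ordinal.typein_surj _ hδ
    exact ⟨b, hb, by simp⟩
  · have c1 : ∀ n, (f n).unpair.1 ∈ T := fun n => by
      simpa using (h2 f hf (n + 1)).1 n (by simp)
    have c2 : ∀ n, lx (f (n + 1)) (f n) := fun n => by
      simpa [List.getD_eq_getElem?_getD] using (h2 f hf (n + 2)).2 n (by simp)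
    refine (wellFounded_iff_isEmpty_descending_chain.1
      (WellFounded.prod_lex wo.wf (wellFounded_lt (α := ℕ)))).false
      ⟨fun n => (⟨_, c1 n⟩, (f n).unpair.2), fun n => ?_⟩
    rcases c2 n with h | ⟨h, h'⟩
    · exact Prod.Lex.left _ _ h
    · simp only [h]
      exact Prod.Lex.right _ h'

/-- All properties of the forest. -/
theorem exists_forest (E : ℕ → ℕ → Prop) (he : Equivalence E)
    (hs : Sigma11 {q : ℕ × ℕ | E q.1 q.2}) : ∃ (lev par : ℕ → ℕ) (pr : ℕ → ℕ × ℕ),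
    Computable lev ∧ Computable par ∧ Computable pr ∧
    (∀ σ n, lev σ = n + 1 → lev (par σ) = n) ∧
    (∀ σ, lev σ = 0 → Ill lev par σ → E (pr σ).1 (pr σ).2) ∧
    (∀ a b, E a b → ∃ σ, lev σ = 0 ∧ Ill lev par σ ∧ pr σ = (a, b)) ∧
    (∀ h, Computable h → CatAt lev par h) ∧
    (∀ β, CompOrd β → ∃ s, Good lev par β 0 s ∧ ¬ Ill lev par (s 0) ∧
      (pr (s 0)).1 = (pr (s 0)).2) ∧
    ∀ t : ℕ → ℕ, (∀ k, lev (t k) = k ∧ par (t (k + 1)) = t k) →
      (Dl fun z : ℕ × ℕ => t z.1 = z.2) → (pr (t 0)).1 = (pr (t 0)).2 := by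
  obtain ⟨R, hR, hRE⟩ := hs
  obtain ⟨Q, hQ, ⟨φ, hφ⟩, hK⟩ := exists_kleene
  let R' : (ℕ × ℕ) × List ℕ → Prop := fun z =>
    (z.1.1 % 2 = 0 ∧ R ((z.1.1 / 2, z.1.2), z.2.map fun x => x.unpair.1) ∧
      Q (z.2.map fun x => x.unpair.2)) ∨ (z.1.1 % 2 ≠ 0 ∧ Rt z.1.2 z.2)
  have hR' : ComputablePred R' := by
    simp only [R']
    fun_prop
  obtain ⟨br, hb⟩ := exists_brs R'
  have c := c_cpr
  refine ⟨clev R', cpar, fun σ => if (cpr σ).1 % 2 = 0 then ((cpr σ).1 / 2, (cpr σ).2) else (0, 0),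
    c_clev hR', c_cpar, by fun_prop, clev_cpar R', fun σ a b => ?_, fun a b h => ?_, cCat R',
    fun β hβ => ?_, fun t ht hd => ?_⟩
  · obtain ⟨f, hf⟩ := cTwo a b
    beta_reduce
    split_ifs with h
    · refine (hRE (_, _)).2 ⟨fun k => (f k).unpair.1, fun n => ?_⟩
      simpa only [List.map_map, Function.comp_def] using ((hf n).resolve_right fun h' => h'.1 h).2.1
    · exact he.refl _
  · obtain ⟨f, hf⟩ := (hRE (a, b)).1 h
    obtain ⟨f', e⟩ : ∃ f', f' = fun k => Nat.pair (f k) (φ k) := ⟨_, rfl⟩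
    have l : ∀ n, clev R' (br (2 * a, b) f' n) = n := fun n => hb.2.2.1 _ _ _ fun j _ =>
      Or.inl ⟨by simp, by simpa [e, Function.comp_def] using hf j,
        by simpa [e, Function.comp_def] using hφ j⟩
    refine ⟨br (2 * a, b) f' 0, l 0, ⟨br (2 * a, b) f', rfl, fun k => ⟨?_, hb.2.1 _ _ _⟩⟩, ?_⟩
    · rw [l, l, zero_add]
    · simp [hb.2.2.2]
  · obtain ⟨i, h1, h2⟩ := good_brs hb (fun i s => by simp [R']) β hβ
    refine ⟨_, h1, fun h => h2 ?_, by simp [hb.2.2.2]⟩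
    obtain ⟨f, hf⟩ := cTwo ((good_iff.1 h1).1.1 0 le_rfl) h
    exact ⟨f, fun n => by simpa [R', hb.2.2.2] using hf n⟩
  · obtain ⟨f, f1, f2⟩ := cTwo' ht
    beta_reduce
    split_ifs with h
    · refine absurd ?_ (hK (fun k => (f k).unpair.2) fun n => ?_)
      · have : Dl fun z : ℕ × ℕ => ∃ y n τ : ℕ, t n = τ ∧ 0 < n ∧ z.1 + 1 ≤ dp (dt τ) n ∧
            eI (dt τ (z.1 + 1)) = y ∧ y.unpair.2 = z.2 :=
          d_ex (d_ex (d_ex (d_and (hd.comp (g := fun z : (((ℕ × ℕ) × ℕ) × ℕ) × ℕ =>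
            (z.1.2, z.2)) (by fun_prop)) (by fun_prop))))
        refine this.of_eq fun z => ⟨?_, fun a => ?_⟩
        · rintro ⟨y, n, _, rfl, a1, a2, a3, a4⟩
          rwa [(f2 _ _).2 ⟨n, a1, a2, a3⟩]
        · obtain ⟨n, a1, a2, a3⟩ := (f2 z.1 _).1 rfl
          exact ⟨_, n, _, rfl, a1, a2, a3, a⟩
      · simpa only [List.map_map, Function.comp_def] using ((f1 n).resolve_right fun h' => h'.1 h).2.2
    · rfl

/-- Program `d` computes an isomorphism from `M` to `N`. -/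
def PI (M N : Str) (d : ℕ) : Prop := (∀ x, ∃ y, Ev d x y) ∧ (∀ y, ∃ x, Ev d x y) ∧
  (∀ x x' y, Ev d x y → Ev d x' y → x = x') ∧
  ∀ i x y x' y', Ev d x x' → Ev d y y' → (M i x y ↔ N i x' y')

theorem cIso_iff {M N : Str} : CIso M N ↔ ∃ d, PI M N d := by
  have key : ∀ (d : ℕ) (g : ℕ → ℕ), (∀ x, Ev d x (g x)) → ∀ x y, Ev d x y ↔ g x = y :=
    fun d g h x y => ⟨fun h' => by simpa using (ev_iff.1 (h x)).symm.trans (ev_iff.1 h'),
      fun h' => h' ▸ h x⟩
  constructor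
  · rintro ⟨g, g1, g2⟩
    obtain ⟨c, hc⟩ := Code.exists_code.1 (Partrec.nat_iff.1 g1.partrec)
    have k := key (Encodable.encode c) g fun x => ev_iff.2 (by simp [hc])
    refine ⟨Encodable.encode c, ?_⟩
    simp only [PI, k]
    refine ⟨fun x => ⟨_, rfl⟩, g.surjective, fun x x' y a b => g.injective (a.trans b.symm), ?_⟩
    rintro i x y _ _ rfl rfl
    exact g2 i x y
  · rintro ⟨d, h1, h2, h3, h4⟩
    choose g hg using h1
    have k := key d g hg
    refine ⟨Equiv.ofBijective g ⟨fun x x' e => h3 x x' _ (hg x) (e ▸ hg x'),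
      fun y => (h2 y).imp fun x => (k x y).1⟩, ?_, fun i x y => h4 i x y _ _ (hg x) (hg y)⟩
    exact (Code.eval_part.comp (Computable.const (ofNat Code d)) Computable.id).of_eq_tot
      fun x => Part.eq_some_iff.1 (ev_iff.1 (hg x))

theorem isComp_ev {M : Str} (h : IsComp M) : IsComp (ev M) :=
  isComp_of_cp (cp_comp h.cp (g := fun q : ℕ × ℕ × ℕ => (2 * q.1, q.2.1, q.2.2)) (by fun_prop))

theorem universal_high (E : ℕ → ℕ → Prop) (he : Equivalence E)
    (hs : Sigma11 {q : ℕ × ℕ | E q.1 q.2}) :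
    ∃ K : Set Str, IsClass K ∧ Delta11 (indexSet K) ∧ (∀ M ∈ K, scottRank M = omega1CK + 1) ∧
      ∃ G F : ℕ → ℕ, Computable G ∧ Delta11 {q : ℕ × ℕ | F q.1 = q.2} ∧
        (∀ a, G a ∈ indexSet K) ∧ (∀ a b, E a b ↔ (G a, G b) ∈ isoRel K) ∧
        (∀ e, ∀ M ∈ K, Codes e M → ∃ N, Codes (G (F e)) N ∧
          ∃ g : ℕ ≃ ℕ, Computable g ∧ ∀ i x y, M i x y ↔ N i (g x) (g y)) ∧
        ∀ (a b : ℕ) (M N : Str) (g : ℕ ≃ ℕ), Codes (G a) M → Codes (G b) N →
          (∀ i x y, M i x y ↔ N i (g x) (g y)) → Delta11 {q : ℕ × ℕ | g q.1 = q.2} → a = b := by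
  obtain ⟨lev, par, pr, c1, c2, c3, t5, t2, t3, t4, t6, t7⟩ := exists_forest E he hs
  obtain ⟨S, lab, ξ, f1, f2, f4, f3⟩ := pFam lev par pr c1 c2 c3 t5
  obtain ⟨G, g1, g2⟩ := exists_index (X := fun a => relL S (lab a)) f1
  have cS : IsComp S.rel := ev_relL S (lab 0) ▸ isComp_ev ⟨_, g2 0⟩
  let P : ℕ → ℕ → Prop := fun e a => Tot e ∧ CIso (Hold e) (relL S (lab a))
  have hG' : ∀ a, Hold (G a) = relL S (lab a) := fun a => (codes_iff.1 (g2 a)).2.symm
  have dP : Dl fun z : ℕ × ℕ => P z.1 z.2 := by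
    simp only [P, cIso_iff, ← hG', PI]
    fun_prop
  let K : Set Str := {M | IsComp M ∧ ∃ a, Iso M (relL S (lab a))}
  have p1 : ∀ M ∈ K, scottRank M = omega1CK + 1 ∧ ∃ a, CIso M (relL S (lab a)) := by
    rintro M ⟨a2, a, a3⟩
    obtain ⟨S', lab', ξ', rfl, e2, e3⟩ := (pShift _ _ _ S _ ξ (f3 a).1 f2).2 _ a3
    have cS' : IsComp S'.rel := ev_relL S' lab' ▸ isComp_ev a2
    obtain ⟨z, z1, z2⟩ := comp_thread cS' c1 e3 (t4 _ (pCocC _ _ S' cS'))
    exact ⟨rank_relL cS' e2 e3 t6, lab' (z 0),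
      cIso_of_thread c1 cS' cS e2 (f3 _).1 z1 f2 z2 f4 (f3 _).2.symm⟩
  have p2 : ∀ e, e ∈ indexSet K ↔ ∃ a, P e a := by
    intro e
    rw [mem_indexSet]
    exact ⟨fun ⟨a1, a2⟩ => (p1 _ a2).2.imp fun a h => ⟨a1, h⟩, fun ⟨a, h, g, _, hg⟩ =>
      ⟨h, ⟨e, codes_iff.2 ⟨h, rfl⟩⟩, a, g, hg⟩⟩
  have mG : ∀ a, G a ∈ indexSet K := fun a =>
    ⟨_, ⟨⟨_, g2 a⟩, a, Iso.refl _⟩, g2 a⟩
  refine ⟨K, ⟨fun _ h => h.1, fun M ⟨_, a, h⟩ N hN h' => ⟨hN, a, h'.symm.trans h⟩⟩, ?_,
    fun M h => (p1 M h).1, G, fun e => if h : ∃ a, P e a then Nat.find h else 0, g1, ?_, mG,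
    fun a b => ?_, fun e M h hc => ?_, fun a b M N g h1 h2 hg dg => ?_⟩
  · exact (d_ex dP).of_eq fun e => (p2 e).symm
  · have : Dl fun q : ℕ × ℕ => (P q.1 q.2 ∧ ∀ b, b < q.2 → ¬ P q.1 b) ∨
        ((∀ b, ¬ P q.1 b) ∧ 0 = q.2) := by
      have d3 : Dl fun z : (ℕ × ℕ) × ℕ => P z.1.1 z.2 :=
        dP.comp (g := fun z : (ℕ × ℕ) × ℕ => (z.1.1, z.2)) (by fun_prop)
      exact d_or (d_and dP (d_all (d_imp (by fun_prop) (d_not d3))))
        (d_and (d_all (d_not d3)) (by fun_prop))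
    refine this.of_eq fun q => ?_
    beta_reduce
    split_ifs with h
    · rw [Nat.find_eq_iff]
      exact ⟨fun h' => h'.resolve_right fun h'' => h.elim h''.1, Or.inl⟩
    · exact ⟨fun h' => (h'.resolve_left fun h'' => h ⟨_, h''.1⟩).2,
        fun h' => Or.inr ⟨not_exists.1 h, h'⟩⟩
  · rw [mem_isoRel]
    simp only [mG, true_and, hG']
    constructor
    · intro h
      obtain ⟨σ, a1, a2, a3⟩ := t3 a b h
      obtain ⟨ξ', b1, b2⟩ := (pShift _ _ _ S _ ξ (f3 a).1 f2).1 σ a1 a2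
      refine pIsoL _ _ _ S S _ _ ξ' ξ (f3 a).1 (f3 b).1 b1 f2 ?_
      rw [b2, a3, (f3 a).2, (f3 b).2]
      simp [sw]
    · intro h
      have := pIsoE _ _ _ E he t2 S S _ _ ξ ξ (f3 b).1 f2 f2 h
      rwa [(f3 a).2, (f3 b).2] at this
  · have h' := (p2 e).1 ⟨M, h, hc⟩
    simp only [dif_pos h']
    exact ⟨_, g2 _, (codes_iff.1 hc).2 ▸ (Nat.find_spec h').2⟩
  · rw [(codes_iff.1 h1).2, (codes_iff.1 h2).2, hG', hG'] at hg
    have m : Sys.Mor S S g := Sys.mor_of_pres fun i x y a =>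
      (relL_even _ _ _ _ _).1 ((hg (2 * i) x y).1 ((relL_even _ _ _ _ _).2 a))
    have l : lab b (g (ξ 0)) = a := ((relL_odd _ _ _ _ _).1 ((hg _ _ _).1
      ((relL_odd S (lab a) _ _ _).2 ⟨rfl, (f2 0).1, (f3 a).2⟩))).2.2
    obtain ⟨-, a2, a3⟩ := S.wd_spec (m.lv (ξ 0)).symm
    have a5 : ∀ σ ∈ S.wd (ξ 0) (g (ξ 0)), (pr σ).1 = (pr σ).2 := fun σ hσ => by
      obtain ⟨t, rfl, b1, b2⟩ := dl_branch cS c1 c2 f2 f4 m dg hσ
      exact t7 t b1 b2
    rw [← l, ← a3, lab_app (f3 b).1 (f2 0).1 fun σ h => (a2 σ h).trans (f2 0).1, (f3 b).2]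
    generalize S.wd (ξ 0) (g (ξ 0)) = L at a5
    induction L with
    | nil => rfl
    | cons σ L ih =>
      have := a5 σ (by simp)
      rw [List.foldr_cons, ih fun τ a => a5 τ (by simp [a]), sw]
      split_ifs <;> omega

end Pool.Agent.MP_9125cf_lc.U
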