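import Pool.Agent.MP_9125cf_lc.High

set_option autoImplicit false

namespace Pool.Agent.MP_9125cf_lc

open Classical

namespace Sys

variable {lev par : ℕ → ℕ} {α β : Type} {S : Sys lev par α} {S' : Sys lev par β}

theorem deep_shift {δ : Ordinal.{0}} {x : α} {y : β} (h : Deep (S.Ch S') δ (x, y)) {L : List ℕ}
    (hL : At lev (S.lv x) L) : Deep (S.Ch S') δ (S.app L x, S'.app L y) := by
  refine deep_iff.2 fun ε hε => ?_
  obtain ⟨u, ⟨a1, a2, a3, L', a4, a5, a6⟩, hu⟩ := deep_iff.1 h ε hε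
  refine ⟨u, ⟨by simpa using a1, by simpa using a2, by simpa using a3, L' ++ L.reverse,
    by simpa using a4.append hL.reverse, ?_, ?_⟩, hu⟩
  · simp only [app_append, S.app_rev hL]
    exact a5
  · simp only [app_append, S'.app_rev (x := y) (a3 ▸ hL)]
    exact a6

theorem Ch.shift {u' u : α × β} (h : S.Ch S' u' u) {L : List ℕ} (hL : At lev (S.lv u'.1) L) :
    S.Ch S' (S.app L u'.1, S'.app L u'.2) u := by
  obtain ⟨a1, a2, a3, L', a4, a5, a6⟩ := h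
  refine ⟨by simpa using a1, by simpa using a2, a3, L.map par ++ L',
    (S.at_par (a1 ▸ hL)).append a4, ?_, ?_⟩
  · simp only [app_append, a5, S.p_app hL (by omega)]
  · simp only [app_append, a6, S'.p_app (x := u'.2) (by rw [a2, ← a1]; exact hL) (by omega)]

theorem deep_two (δ : Ordinal.{0}) : ∀ {x : α} {y y' : β}, Deep (S.Ch S') δ (x, y) →
    Deep (S.Ch S') δ (x, y') → Deep (S'.Ch S') δ (y, y') := by
  induction δ using WellFoundedLT.induction with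
  | ind δ ih =>
    intro x y y' h h'
    refine deep_iff.2 fun ε hε => ?_
    obtain ⟨u, c1, d1⟩ := deep_iff.1 h ε hε
    obtain ⟨v, c2, d2⟩ := deep_iff.1 h' ε hε
    obtain ⟨-, w2, w3⟩ := S.wd_spec (x := v.1) (y := u.1) (c2.1.trans c1.1.symm)
    have c3 := c2.shift w2
    have d3 := deep_shift (x := v.1) (y := v.2) d2 w2
    rw [w3] at c3 d3
    refine ⟨_, ?_, @ih ε hε u.1 u.2 _ d1 d3⟩
    obtain ⟨a1, a2, a3, L, a4, a5, a6⟩ := c1
    obtain ⟨b1, b2, b3, L', b4, b5, b6⟩ := c3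
    simp only at *
    refine ⟨by rw [a2, a3], by rw [b2, a3], by rw [b3, a3], L, a3 ▸ a4, a6, ?_⟩
    have e : red L = red L' := by rw [← S.wd_app a4, ← S.wd_app b4, a5, b5]
    simp only
    rw [← b6, ← S'.app_red (b3 ▸ a4), e, S'.app_red (b3 ▸ b4)]

theorem ch_par {x : α} {y : β} {n : ℕ} (hx : S.lv x = n + 1) (hy : S'.lv y = n + 1) :
    S.Ch S' (x, y) (S.p x, S'.p y) := by
  have h1 := S.lv_p _ _ hx
  have h2 := S'.lv_p _ _ hy
  exact ⟨by simp [hx, h1], by simp [hy, h1], by simp [h1, h2], [], by simp [At], rfl, rfl⟩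

theorem deep_par {δ : Ordinal.{0}} {x : α} {y : β} {n : ℕ} (hx : S.lv x = n + 1)
    (hy : S'.lv y = n + 1) (h : Deep (S.Ch S') δ (x, y)) : Deep (S.Ch S') δ (S.p x, S'.p y) :=
  deep_iff.2 fun _ hε => ⟨_, ch_par hx hy, h.mono hε.le⟩

theorem mor_of_deep {γ : Ordinal.{0}} (hγ : ∀ y y', y ≠ y' → ¬ Deep (S'.Ch S') γ (y, y'))
    (h : ∀ m, ∃ u : α × β, m ≤ S.lv u.1 ∧ S'.lv u.2 = S.lv u.1 ∧ Deep (S.Ch S') γ u) :
    ∃ g, Mor S S' g := by
  have h1 : ∀ k m (u : α × β), S.lv u.1 = m + k → S'.lv u.2 = m + k → Deep (S.Ch S') γ u →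
      ∃ u : α × β, S.lv u.1 = m ∧ S'.lv u.2 = m ∧ Deep (S.Ch S') γ u := by
    intro k
    induction k with
    | zero => exact fun m u a b c => ⟨u, a, b, c⟩
    | succ k ih =>
      exact fun m u a b c => ih m (S.p u.1, S'.p u.2) (S.lv_p _ _ a) (S'.lv_p _ _ b)
        (deep_par a b c)
  have h2 : ∀ m, ∃ u : α × β, S.lv u.1 = m ∧ S'.lv u.2 = m ∧ Deep (S.Ch S') γ u := fun m => by
    obtain ⟨u, a, b, c⟩ := h m
    exact h1 (S.lv u.1 - m) m u (by omega) (by omega) c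
  choose c c1 c2 c3 using h2
  refine (mor_of_chain S S' c fun n => ?_).imp fun _ h => h.1
  obtain ⟨-, w2, w3⟩ := S.wd_spec (x := (c n).1) (y := S.p (c (n + 1)).1)
    (by rw [c1, S.lv_p _ _ (c1 _)])
  have d1 := deep_shift (x := (c n).1) (y := (c n).2) (c3 n) w2
  rw [w3] at d1
  exact ⟨by rw [c1, c1], by rw [c2, c1], by rw [c2, c1], _, w2, w3, by_contra fun hne =>
    hγ _ _ hne (deep_two γ d1 (deep_par (c1 _) (c2 _) (c3 (n + 1))))⟩

theorem Mor.ch {g : α → β} (hg : Mor S S' g) {x x' : α} (h : S.lv x' = S.lv x + 1) :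
    S.Ch S' (x', g x') (x, g x) := by
  obtain ⟨-, w2, w3⟩ := S.wd_spec (x := x) (y := S.p x') (S.lv_p _ _ h).symm
  exact ⟨h, (hg.lv _).trans h, hg.lv _, _, w2, w3, by
    simp only [← hg.app w2, w3, hg.p x' (by omega)]⟩

end Sys

theorem dl_class {lev par : ℕ → ℕ} (hl : Computable lev) (hp : Computable par)
    {B : Sys lev par ℕ} (hB : IsComp B.rel) (ht : ¬ ∃ e, B.Thread e) :
    Dl fun e => e ∈ indexSet (Cls lev par) ∧ Iso (Hold e) B.rel := by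
  have hK := dl_cls hl hp
  have hB' : Dl fun q : ℕ × ℕ × ℕ => B.rel q.1 q.2.1 q.2.2 := .of_cp hB.cp
  refine ⟨s_and hK.1 (sg_iso (by fun_prop) (by fun_prop)), ?_⟩
  obtain ⟨γ, h1, h2⟩ := Sys.rigid_bound hB ht
  obtain ⟨T, r, wo, hT, hr, rfl⟩ := compOrd_iff.2 ((Order.lt_succ γ).trans h1)
  have hT' : Sg fun x => x ∈ T := .of_cp hT
  have hr' : Sg fun q : ℕ × ℕ => r q.1 q.2 := .of_cp hr
  have main : Sg fun z : ℕ × ℕ => ∃ ρ : ℕ × ℕ → ℕ, ∀ u' u : ℕ × ℕ, ∀ n, z.2 ≤ n →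
      Hold z.1 (2 * n + 1) u.1 u.1 → (∃ n L P Q, ChW (Hold z.1) B.rel u' u n L P Q) →
      ρ u ∈ T ∧ ρ u' ∈ T ∧ r (ρ u') (ρ u) := by
    refine sg_fun2 (Q := fun (z : ℕ × ℕ) (u' : ℕ × ℕ) (a' : ℕ) u a => ∀ n, z.2 ≤ n →
      Hold z.1 (2 * n + 1) u.1 u.1 → (∃ n L P Q, ChW (Hold z.1) B.rel u' u n L P Q) →
      a ∈ T ∧ a' ∈ T ∧ r a' a) ?_
    have e1 : ∀ {δ : Type} [Primcodable δ] {f : δ → ℕ}, Computable f → Sg fun x => f x ∈ T :=
      fun h => hT'.comp h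
    refine s_all (s_imp (by fun_prop) (s_imp (by fun_prop) (s_imp ?_
      (s_and (e1 (by fun_prop)) (s_and (e1 (by fun_prop)) (by fun_prop))))))
    unfold ChW Walk Ball
    fun_prop
  refine (s_or hK.2 main.ex).of_eq fun e => ?_
  by_cases he : e ∈ indexSet (Cls lev par)
  swap
  · simp [he]
  simp only [he, not_true, false_or, true_and]
  obtain ⟨-, -, S, hS⟩ := mem_indexSet.1 he
  simp only [hS, ← ch_iff, Sys.rel_odd, true_and, Sys.iso_iff]
  constructor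
  · rintro ⟨m, ρ, H⟩ ⟨g, hg⟩
    choose x hx using S.ne
    have := fun k => H (x (m + k + 1), g (x (m + k + 1))) (x (m + k), g (x (m + k))) (m + k)
      (by omega) (hx _) (hg.ch (by rw [hx, hx]))
    exact (wellFounded_iff_isEmpty_descending_chain.1 wo.wf).false
      ⟨fun k => ⟨_, (this k).1⟩, fun k => (this k).2.2⟩
  · intro hn
    have := mt (Sys.mor_of_deep (S := S) h2) hn
    push Not at this
    obtain ⟨m, hm⟩ := this
    have ex : ∀ u : ℕ × ℕ, ∃ a : ℕ, rk (S.Ch B) u < Ordinal.type (fun x y : T => r x y) →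
        ∃ h : a ∈ T, Ordinal.typein (fun x y : T => r x y) ⟨a, h⟩ = rk (S.Ch B) u := by
      intro u
      by_cases h : rk (S.Ch B) u < Ordinal.type (fun x y : T => r x y)
      · obtain ⟨a, ha⟩ := Ordinal.typein_surj _ h
        exact ⟨a, fun _ => ⟨a.2, ha⟩⟩
      · exact ⟨0, fun h' => absurd h' h⟩
    choose ρ hρ using ex
    refine ⟨m, ρ, fun u' u n a1 a2 a3 => ?_⟩
    obtain ⟨b1, b2⟩ := rk_lt (hm u (by omega) a3.2.2.1)
    have b3 := (rk_lt (b2 u' a3)).1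
    obtain ⟨c1, c2⟩ := hρ u b1
    obtain ⟨c3, c4⟩ := hρ u' (b3.trans b1)
    rw [← c2, ← c4, Ordinal.typein_lt_typein] at b3
    exact ⟨c1, c3, b3⟩

end Pool.Agent.MP_9125cf_lc
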