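import Pool.Agent.MP_9125cf_lc.Auto

set_option autoImplicit false

namespace Pool.Agent.MP_9125cf_lc

open Classical Nat.Partrec Denumerable

/-- The `e`-th program outputs `v` on input `t`. -/
def Ev (e t v : ℕ) : Prop := ∃ k, Code.evaln k (ofNat Code e) t = some v

theorem ev_iff {e t v : ℕ} : Ev e t v ↔ (ofNat Code e).eval t = Part.some v := by
  rw [Part.eq_some_iff, Code.evaln_complete]
  rfl

@[fun_prop] theorem d_ev {α : Type} [Primcodable α] {e t v : α → ℕ} (he : Computable e)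
    (ht : Computable t) (hv : Computable v) : Dl fun a => Ev (e a) (t a) (v a) := by
  unfold Ev
  fun_prop

/-- The structure described by an index. -/
def Hold (e : ℕ) : Str := fun i x y => Ev e (Nat.pair i (Nat.pair x y)) 1

/-- Indices of structures. -/
def Tot (e : ℕ) : Prop :=
  ∀ i x y, Ev e (Nat.pair i (Nat.pair x y)) 1 ∨ Ev e (Nat.pair i (Nat.pair x y)) 0

@[fun_prop] theorem d_hold {α : Type} [Primcodable α] {e i x y : α → ℕ} (he : Computable e)
    (hi : Computable i) (hx : Computable x) (hy : Computable y) :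
    Dl fun a => Hold (e a) (i a) (x a) (y a) := by
  unfold Hold
  fun_prop

@[fun_prop] theorem d_tot {α : Type} [Primcodable α] {e : α → ℕ} (he : Computable e) :
    Dl fun a => Tot (e a) := by
  unfold Tot
  fun_prop

theorem codes_iff {e : ℕ} {M : Str} : Codes e M ↔ Tot e ∧ M = Hold e := by
  unfold Codes Tot Hold
  simp only [ev_iff]
  constructor
  · intro h
    refine ⟨fun i x y => ?_, ?_⟩
    · by_cases hM : M i x y
      · exact Or.inl ((h i x y).1 hM)
      · exact Or.inr ((h i x y).2 hM)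
    · funext i x y
      refine propext ⟨(h i x y).1, fun h1 => by_contra fun h2 => ?_⟩
      have := (h i x y).2 h2
      rw [h1] at this
      simp at this
  · rintro ⟨h, rfl⟩ i x y
    exact ⟨id, fun h' => (h i x y).resolve_left h'⟩

theorem mem_indexSet {K : Set Str} {e : ℕ} : e ∈ indexSet K ↔ Tot e ∧ Hold e ∈ K := by
  constructor
  · rintro ⟨M, h1, h2⟩
    obtain ⟨h3, rfl⟩ := codes_iff.1 h2
    exact ⟨h3, h1⟩
  · rintro ⟨h1, h2⟩
    exact ⟨_, h2, codes_iff.2 ⟨h1, rfl⟩⟩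

theorem mem_isoRel {K : Set Str} {q : ℕ × ℕ} : q ∈ isoRel K ↔
    q.1 ∈ indexSet K ∧ q.2 ∈ indexSet K ∧ Iso (Hold q.1) (Hold q.2) := by
  simp only [mem_indexSet]
  constructor
  · rintro ⟨M, h1, N, h2, h3, h4, h5⟩
    obtain ⟨a, rfl⟩ := codes_iff.1 h3
    obtain ⟨b, rfl⟩ := codes_iff.1 h4
    exact ⟨⟨a, h1⟩, ⟨b, h2⟩, h5⟩
  · rintro ⟨⟨a, h1⟩, ⟨b, h2⟩, h5⟩
    exact ⟨_, h1, _, h2, codes_iff.2 ⟨a, rfl⟩, codes_iff.2 ⟨b, rfl⟩, h5⟩

theorem exists_index {X : ℕ → Str}
    (hX : ComputablePred fun q : ℕ × ℕ × ℕ × ℕ => X q.1 q.2.1 q.2.2.1 q.2.2.2) :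
    ∃ g : ℕ → ℕ, Computable g ∧ ∀ i, Codes (g i) (X i) := by
  have h : Computable fun t : ℕ => if X t.unpair.1 t.unpair.2.unpair.1 t.unpair.2.unpair.2.unpair.1
      t.unpair.2.unpair.2.unpair.2 then 1 else 0 := by fun_prop
  obtain ⟨c, hc⟩ := Code.exists_code.1 (Partrec.nat_iff.1 h.partrec)
  refine ⟨fun i => Encodable.encode (Code.curry c i), Computable.encode.comp
    (Code.primrec₂_curry.to_comp.comp (Computable.const c) Computable.id), fun i j x y => ?_⟩
  simp only [ofNat_encode, Code.eval_curry, hc]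
  constructor <;> intro h <;> simp [h]

theorem IsComp.cp {M : Str} (h : IsComp M) :
    ComputablePred fun q : ℕ × ℕ × ℕ => M q.1 q.2.1 q.2.2 := by
  obtain ⟨e, he⟩ := h
  have h1 : Partrec fun q : ℕ × ℕ × ℕ => (ofNat Code e).eval (Nat.pair q.1 (Nat.pair q.2.1 q.2.2)) :=
    Code.eval_part.comp (Computable.const _) (by fun_prop)
  have h2 : Computable fun q : ℕ × ℕ × ℕ => if M q.1 q.2.1 q.2.2 then 1 else 0 :=
    h1.of_eq_tot fun q => by
      by_cases hM : M q.1 q.2.1 q.2.2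
      · simp [hM, (he _ _ _).1 hM]
      · simp [hM, (he _ _ _).2 hM]
  exact (cp_eq h2 (Computable.const 1)).of_eq fun q => by simp

theorem isComp_of_cp {M : Str} (h : ComputablePred fun q : ℕ × ℕ × ℕ => M q.1 q.2.1 q.2.2) :
    IsComp M := by
  obtain ⟨g, -, hg⟩ := exists_index (X := fun _ => M) (by fun_prop)
  exact ⟨g 0, hg 0⟩

theorem Iso.refl (M : Str) : Iso M M := ⟨Equiv.refl _, fun _ _ _ => Iff.rfl⟩

theorem Iso.symm {M N : Str} (h : Iso M N) : Iso N M := by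
  obtain ⟨g, hg⟩ := h
  exact ⟨g.symm, fun i x y => by simp [hg]⟩

theorem Iso.trans {M N P : Str} (h : Iso M N) (h' : Iso N P) : Iso M P := by
  obtain ⟨g, hg⟩ := h
  obtain ⟨g', hg'⟩ := h'
  exact ⟨g.trans g', fun i x y => (hg i x y).trans (hg' _ _ _)⟩

theorem sg_fun2 {α γ δ : Type} [Primcodable α] [Denumerable γ] [Denumerable δ]
    {Q : α → γ → δ → γ → δ → Prop}
    (hQ : Sg fun z : α × γ × δ × γ × δ => Q z.1 z.2.1 z.2.2.1 z.2.2.2.1 z.2.2.2.2) :
    Sg fun a => ∃ h : γ → δ, ∀ x y, Q a x (h x) y (h y) := by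
  have : Sg fun z : α × List ℕ => ∀ x y : ℕ, x < z.2.length → y < z.2.length →
      Q z.1 (ofNat γ x) (ofNat δ (z.2.getD x 0)) (ofNat γ y) (ofNat δ (z.2.getD y 0)) := by
    fun_prop
  refine this.ex_fun.of_eq fun a => ⟨?_, ?_⟩
  · rintro ⟨g, hg⟩
    refine ⟨fun x => ofNat δ (g (Encodable.encode x)), fun x y => ?_⟩
    have := hg (Encodable.encode x + Encodable.encode y + 1) (Encodable.encode x)
      (Encodable.encode y) (by simp) (by simp)
    simpa [List.getD_eq_getElem?_getD,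
      show Encodable.encode x < Encodable.encode x + Encodable.encode y + 1 by omega,
      show Encodable.encode y < Encodable.encode x + Encodable.encode y + 1 by omega] using this
  · rintro ⟨h, hh⟩
    refine ⟨fun x => Encodable.encode (h (ofNat γ x)), fun n x y hx hy => ?_⟩
    simp only [List.length_map, List.length_range] at hx hy
    simpa [List.getD_eq_getElem?_getD, hx, hy] using hh _ _

theorem sg_iso {α : Type} [Primcodable α] {M N : α → Str}
    (hM : Dl fun z : α × ℕ × ℕ × ℕ => M z.1 z.2.1 z.2.2.1 z.2.2.2)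
    (hN : Dl fun z : α × ℕ × ℕ × ℕ => N z.1 z.2.1 z.2.2.1 z.2.2.2) :
    Sg fun a => Iso (M a) (N a) := by
  refine (sg_fun2 (γ := ℕ) (δ := ℕ × ℕ) (Q := fun a x u y v =>
    (u.1 = y ↔ v.2 = x) ∧ ∀ i, M a i x y ↔ N a i u.1 v.1) (by fun_prop)).of_eq fun a => ⟨?_, ?_⟩
  · rintro ⟨h, hh⟩
    exact ⟨⟨fun x => (h x).1, fun x => (h x).2, fun x => (hh x _).1.1 rfl,
      fun y => (hh _ y).1.2 rfl⟩, fun i x y => (hh x y).2 i⟩
  · rintro ⟨g, hg⟩
    exact ⟨fun x => (g x, g.symm x), fun x y => ⟨g.eq_symm_apply.symm.trans eq_comm,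
      fun i => hg i x y⟩⟩

end Pool.Agent.MP_9125cf_lc
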