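import Mathlib

set_option autoImplicit false

namespace Pool.Agent.MP_9125cf_lc

/-- A structure with universe `ℕ` for the computable language with binary relation symbols
`R_0, R_1, ...`: `M i x y` means that `R_i(x, y)` holds. -/
abbrev Str : Type := ℕ → ℕ → ℕ → Prop

/-- Isomorphism of structures. -/
def Iso (M N : Str) : Prop :=
  ∃ g : ℕ ≃ ℕ, ∀ i x y, M i x y ↔ N i (g x) (g y)

/-- `e` is an index of `M`: the `e`-th partial computable function is the characteristic function
of the atomic diagram of `M`. -/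
def Codes (e : ℕ) (M : Str) : Prop :=
  ∀ i x y,
    (M i x y → (Denumerable.ofNat Nat.Partrec.Code e).eval (Nat.pair i (Nat.pair x y))
      = Part.some 1) ∧
    (¬ M i x y → (Denumerable.ofNat Nat.Partrec.Code e).eval (Nat.pair i (Nat.pair x y))
      = Part.some 0)

/-- Computable structure. -/
def IsComp (M : Str) : Prop := ∃ e, Codes e M

/-- A class of computable structures, closed under isomorphism among computable structures. -/
def IsClass (K : Set Str) : Prop :=
  (∀ M ∈ K, IsComp M) ∧ ∀ M ∈ K, ∀ N, IsComp N → Iso M N → N ∈ K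

/-- The index set of a class. -/
def indexSet (K : Set Str) : Set ℕ := {e | ∃ M ∈ K, Codes e M}

/-- Lightface analytic sets, in Kleene normal form. -/
def Sigma11 {α : Type} [Primcodable α] (S : Set α) : Prop :=
  ∃ R : α × List ℕ → Prop, ComputablePred R ∧
    ∀ a, a ∈ S ↔ ∃ f : ℕ → ℕ, ∀ n, R (a, (List.range n).map f)

/-- Hyperarithmetic sets. -/
def Delta11 {α : Type} [Primcodable α] (S : Set α) : Prop := Sigma11 S ∧ Sigma11 {a | a ∉ S}

/-- Two tuples satisfy the same atomic formulas. -/
def AtEq (M : Str) (a b : List ℕ) : Prop :=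
  a.length = b.length ∧ ∀ j k, j < a.length → k < a.length →
    (a.getD j 0 = a.getD k 0 ↔ b.getD j 0 = b.getD k 0) ∧
    ∀ i, M i (a.getD j 0) (a.getD k 0) ↔ M i (b.getD j 0) (b.getD k 0)

/-- The back-and-forth relations. -/
def BF (M : Str) (α : Ordinal.{0}) : Set (List ℕ × List ℕ) :=
  {q | AtEq M q.1 q.2 ∧ ∀ β, β < α →
    (∀ c : List ℕ, ∃ d : List ℕ, (q.1 ++ c, q.2 ++ d) ∈ BF M β) ∧
    (∀ d : List ℕ, ∃ c : List ℕ, (q.1 ++ c, q.2 ++ d) ∈ BF M β)}
termination_by α

/-- Some automorphism sends the tuple `a` to the tuple `b`. -/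
def SameOrbit (M : Str) (a b : List ℕ) : Prop :=
  ∃ g : ℕ ≃ ℕ, (∀ i x y, M i x y ↔ M i (g x) (g y)) ∧ a.map g = b

/-- Scott rank of a tuple. -/
noncomputable def tupleRank (M : Str) (a : List ℕ) : Ordinal.{0} :=
  sInf {β | ∀ b, (a, b) ∈ BF M β → SameOrbit M a b}

/-- Scott rank of a structure: the least ordinal greater than the ranks of all tuples. -/
noncomputable def scottRank (M : Str) : Ordinal.{0} :=
  sInf {α | ∀ a, tupleRank M a < α}

/-- Computable ordinal: order type of a computable well-order of a computable set. -/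
def CompOrd (α : Ordinal.{0}) : Prop :=
  ∃ (S : Set ℕ) (r : ℕ → ℕ → Prop) (_ : IsWellOrder S fun x y => r x y),
    ComputablePred (fun x => x ∈ S) ∧ ComputablePred (fun q : ℕ × ℕ => r q.1 q.2) ∧
    Ordinal.type (fun x y : S => r x y) = α

/-- The least non-computable ordinal. -/
noncomputable def omega1CK : Ordinal.{0} := sInf {α | ¬ CompOrd α}

/-- High Scott rank. -/
def HighRank (M : Str) : Prop := scottRank M = omega1CK ∨ scottRank M = omega1CK + 1

/-- The isomorphism relation on indices of members of `K`. -/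
def isoRel (K : Set Str) : Set (ℕ × ℕ) :=
  {q | ∃ M ∈ K, ∃ N ∈ K, Codes q.1 M ∧ Codes q.2 N ∧ Iso M N}

/-- Hyperarithmetic reducibility of the isomorphism relation on `K` to that on `K'`. -/
def HRed (K K' : Set Str) : Prop :=
  ∃ F : ℕ → ℕ, Delta11 {q : ℕ × ℕ | F q.1 = q.2} ∧
    (∀ e ∈ indexSet K, F e ∈ indexSet K') ∧
    ∀ e ∈ indexSet K, ∀ e' ∈ indexSet K, ((e, e') ∈ isoRel K ↔ (F e, F e') ∈ isoRel K')

end Pool.Agent.MP_9125cf_lc
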