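import Pool.Agent.MP_9125cf_lc.Tree

set_option autoImplicit false

namespace Pool.Agent.MP_9125cf_lc

open Classical Denumerable

theorem foldr_act_free (w : List ℕ) {L : List ℕ} (hL : Rd L) (h : L.foldr act w = w) : L = [] := by
  have key : ∀ L : List ℕ, Rd L → ∃ L0 C w0 : List ℕ, L = L0 ++ C.reverse ∧ w = C ++ w0 ∧
      L.foldr act w = L0 ++ w0 := by
    intro L hL
    induction L with
    | nil => exact ⟨[], [], w, rfl, rfl, rfl⟩
    | cons σ L ih =>
      obtain ⟨L0, C, w0, h1, h2, h3⟩ := ih (List.isChain_cons.1 hL).2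
      rw [List.foldr_cons, h3, act]
      split_ifs with h4
      · cases L0 with
        | nil =>
          obtain ⟨t, rfl⟩ := List.head?_eq_some_iff.1 h4
          exact ⟨[], C ++ [σ], t, by simp [h1], by simp [h2], rfl⟩
        | cons τ L0 =>
          obtain rfl : τ = σ := by simpa using h4
          exact absurd rfl ((List.isChain_cons.1 hL).1 τ (by simp [h1]))
      · exact ⟨σ :: L0, C, w0, by simp [h1], h2, rfl⟩
  obtain ⟨L0, C, w0, h1, h2, h3⟩ := key L hL
  obtain rfl : L0 = C := List.append_cancel_right (h3.symm.trans (h.trans h2))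
  rcases List.eq_nil_or_concat L0 with rfl | ⟨C, c, rfl⟩
  · simpa using h1
  · rw [h1, Rd, List.isChain_append] at hL
    exact absurd rfl (hL.2.2 c (by simp) c (by simp))

theorem foldr_act_rev {w : List ℕ} (hw : Rd w) : w.reverse.foldr act w = [] := by
  induction w with
  | nil => rfl
  | cons σ w ih =>
    rw [List.reverse_cons, List.foldr_append]
    simpa [act] using ih (List.isChain_cons.1 hw).2

theorem countP_act (q : ℕ → Bool) (σ : ℕ) (w : List ℕ) :
    (act σ w).countP q % 2 = (w.countP q + if q σ then 1 else 0) % 2 := by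
  unfold act
  split_ifs with h1 h2 h2
  · obtain ⟨t, rfl⟩ := List.head?_eq_some_iff.1 h1
    simp [h2]; omega
  · obtain ⟨t, rfl⟩ := List.head?_eq_some_iff.1 h1
    simp [h2]
  · simp [h2]
  · simp [h2]

theorem countP_foldr (q : ℕ → Bool) (L w : List ℕ) :
    (L.foldr act w).countP q % 2 = (L.countP q + w.countP q) % 2 := by
  induction L with
  | nil => simp
  | cons σ L ih => rw [List.foldr_cons, countP_act, List.countP_cons]; omega

theorem exists_odd_count {q : ℕ → Bool} {w : List ℕ} (h : w.countP q % 2 = 1) :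
    ∃ σ, q σ ∧ w.count σ % 2 = 1 := by
  by_contra hn
  push Not at hn
  rw [List.countP_eq_length_filter, ← List.sum_toFinset_count_eq_length] at h
  have : 2 ∣ ∑ a ∈ (w.filter q).toFinset, (w.filter q).count a := Finset.dvd_sum fun a ha => by
    have h1 : q a := by simp at ha; exact ha.2
    rw [List.count_filter h1]
    have := hn a h1
    omega
  omega

/-- The twisting words. -/
def tw (i n : ℕ) : List ℕ := if n.unpair.1 = i then [cd n n []] else []

theorem at_tw (i n : ℕ) : At tlev n (tw i n) := by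
  unfold tw
  split_ifs
  · simpa [At] using tlev_cd (by simp) (rt_nil _)
  · simp [At]

theorem rd_tw (i n : ℕ) : Rd (tw i n) := by
  unfold tw
  split_ifs <;> simp

/-- Valid elements. -/
def Vl (q : ℕ × List ℕ) : Prop := Rd q.2 ∧ At tlev q.1 q.2

/-- The involutions. -/
noncomputable def fx (σ : ℕ) (q : ℕ × List ℕ) : ℕ × List ℕ :=
  if tlev σ = q.1 then (q.1, act σ q.2) else q

/-- The projection. -/
def px (i : ℕ) (q : ℕ × List ℕ) : ℕ × List ℕ :=
  if q.1 = 0 then q else (q.1 - 1, (q.2.map tpar).foldr act (tw i (q.1 - 1)))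

theorem Vl.fx {q : ℕ × List ℕ} (h : Vl q) (σ : ℕ) : Vl (fx σ q) := by
  unfold MP_9125cf_lc.fx
  split_ifs with h1
  · exact ⟨h.1.act σ, fun τ hτ => (mem_act hτ).elim (fun e => e ▸ h1) (h.2 τ)⟩
  · exact h

theorem Vl.px {q : ℕ × List ℕ} (h : Vl q) (i : ℕ) : Vl (px i q) := by
  unfold MP_9125cf_lc.px
  split_ifs with h1
  · exact h
  · refine ⟨rd_foldr _ (rd_tw _ _), fun τ hτ => (mem_foldr hτ).elim (fun e => ?_) (at_tw _ _ τ)⟩
    obtain ⟨ρ, h2, rfl⟩ := List.mem_map.1 e
    exact tlev_tpar _ _ (by rw [h.2 ρ h2]; simp only; omega)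

theorem fx_fst (σ : ℕ) (q : ℕ × List ℕ) : (fx σ q).1 = q.1 := by
  unfold fx
  split_ifs <;> rfl

theorem foldr_fx (x : {q // Vl q}) {L : List ℕ} (h : At tlev x.1.1 L) :
    (L.foldr (fun σ (y : {q // Vl q}) => (⟨fx σ y.1, y.2.fx σ⟩ : {q // Vl q})) x).1
      = (x.1.1, L.foldr act x.1.2) := by
  induction L with
  | nil => rfl
  | cons σ L ih =>
    simp only [List.foldr_cons, ih (h.sub (by simp))]
    exact if_pos (h σ (by simp))

/-- The `i`-th system. -/
noncomputable def XS (i : ℕ) : Sys tlev tpar {q // Vl q} where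
  lv x := x.1.1
  f σ x := ⟨fx σ x.1, x.2.fx σ⟩
  p x := ⟨px i x.1, x.2.px i⟩
  lev_par := tlev_tpar
  lv_f σ x := fx_fst σ x.1
  f_f σ x h := Subtype.ext (by simp [fx, h, act_act x.2.1])
  lv_p x n h := by simp [px, h]
  p_f σ x h h' := Subtype.ext (by
    have h1 : tlev (tpar σ) = x.1.1 - 1 := tlev_tpar _ _ (by omega)
    simp only [fx, px, if_pos h, if_neg h'.ne', h1, if_true, Prod.mk.injEq, true_and]
    by_cases h2 : x.1.2.head? = some σ
    · obtain ⟨t, ht⟩ := List.head?_eq_some_iff.1 h2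
      rw [ht, List.map_cons, List.foldr_cons, act_act (rd_foldr _ (rd_tw _ _))]
      simp [act]
    · conv_lhs => rw [act, if_neg h2]
      rfl)
  ne n := ⟨⟨(n, []), by simp, by simp [At]⟩, rfl⟩
  conn x y h := ⟨y.1.2 ++ x.1.2.reverse, At.append (h ▸ y.2.2) x.2.2.reverse, Subtype.ext (by
    rw [foldr_fx x (At.append (h ▸ y.2.2) x.2.2.reverse), List.foldr_append,
      foldr_act_rev x.2.1, h]
    exact Prod.ext rfl (red_of_rd y.2.1))⟩
  free x L h1 h2 h3 := foldr_act_free x.1.2 h2 (by
    have := foldr_fx x h1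
    rw [h3] at this
    exact (congrArg Prod.snd this).symm)

theorem thread_of_U {i : ℕ} (h : U i) : ∃ e, (XS i).Thread e := by
  refine (XS i).thread_of_ill (b := fun n => ⟨(n, []), by simp, by simp [At]⟩) (H := tw i)
    (fun _ => rfl) (at_tw i) (fun n σ hσ => ?_) fun n => Subtype.ext ?_
  · unfold tw at hσ
    split_ifs at hσ with h1
    · obtain rfl : σ = cd n n [] := by simpa using hσ
      exact ill_of_U (h1 ▸ h)
    · simp at hσ
  · exact Eq.trans (by simp [XS, px]; exact (red_of_rd (rd_tw _ _)).symm)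
      (foldr_fx ⟨(n, []), by simp, by simp [At]⟩ (at_tw i n)).symm

theorem U_of_thread {i : ℕ} {e : ℕ → {q // Vl q}} (he : (XS i).Thread e) : U i := by
  have l : ∀ n, (e n).1.1 = n := fun n => (he n).1
  have c : ∀ n (q : ℕ → Bool), (e n).1.2.countP q % 2 =
      ((e (n + 1)).1.2.countP (q ∘ tpar) + (tw i n).countP q) % 2 := by
    intro n q
    have : (e n).1 = px i (e (n + 1)).1 := congrArg Subtype.val (he n).2.symm
    rw [this, px, if_neg (by rw [l]; omega), l, Nat.add_sub_cancel, countP_foldr,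
      List.countP_map]
  obtain ⟨N, hN, h0⟩ : ∃ N, N.unpair.1 = i ∧ ∀ σ ∈ (e 0).1.2, (dc σ).1 ≠ N := by
    refine ⟨Nat.pair i (((e 0).1.2.map fun σ => (dc σ).1).sum + 1), by simp, fun σ hσ h => ?_⟩
    have h1 := List.single_le_sum (l := (e 0).1.2.map fun σ => (dc σ).1) (by simp) _
      (List.mem_map_of_mem hσ)
    have h2 := Nat.right_le_pair i (((e 0).1.2.map fun σ => (dc σ).1).sum + 1)
    omega
  have t0 : ∀ n (q : ℕ → Bool), n ≠ N → (∀ σ, q σ → (dc σ).1 = N) → (tw i n).countP q = 0 := by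
    intro n q hn hq
    rw [List.countP_eq_zero]
    intro σ hσ h
    unfold tw at hσ
    split_ifs at hσ
    · obtain rfl : σ = cd n n [] := by simpa using hσ
      exact hn (by simpa using hq _ h)
    · simp at hσ
  have e1 : (fun σ => decide ((dc σ).1 = N)) ∘ tpar = fun σ => decide ((dc σ).1 = N) := by
    funext σ
    simp [fst_tpar]
  have ev : ∀ n ≤ N, (e n).1.2.countP (fun σ => decide ((dc σ).1 = N)) % 2 = 0 := by
    intro n
    induction n with
    | zero => intro _; rw [List.countP_eq_zero.2 (by simpa using h0)]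
    | succ n ih =>
      intro hn
      have := c n fun σ => decide ((dc σ).1 = N)
      rwa [ih (by omega), e1, t0 n _ (by omega) (by simp), add_zero, eq_comm] at this
  have od : (e (N + 1)).1.2.countP (fun σ => decide ((dc σ).1 = N)) % 2 = 1 := by
    have := c N fun σ => decide ((dc σ).1 = N)
    rw [ev N le_rfl, e1, tw, if_pos hN] at this
    simp at this
    omega
  obtain ⟨σ, h1, h2⟩ := exists_odd_count od
  have mem : ∀ n σ, (e n).1.2.count σ % 2 = 1 → tlev σ = n := fun n σ h =>
    ((e n).2.2 σ (List.count_pos_iff.1 (by omega))).trans (l n)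
  have := (ill_of_step (lev := tlev) (par := tpar) (P := fun σ => (dc σ).1 = N ∧
    ∃ n, N < n ∧ (e n).1.2.count σ % 2 = 1) ?_ ⟨by simpa using h1, N + 1, by omega, h2⟩).U
  · rwa [(by simpa using h1 : (dc σ).1 = N), hN] at this
  · rintro σ ⟨a1, n, a2, a3⟩
    have := c n (· == σ)
    rw [t0 n _ (by omega) (by simpa using a1), add_zero] at this
    obtain ⟨τ, b1, b2⟩ := exists_odd_count (this.symm.trans a3)
    have b3 : tpar τ = σ := by simpa using b1
    exact ⟨τ, ⟨by rw [← fst_tpar, b3, a1], n + 1, by omega, b2⟩,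
      by rw [mem _ _ b2, mem _ _ a3], b3⟩

theorem c_nth {p : ℕ → Prop} (hp : ComputablePred p) (hi : {n | p n}.Infinite) :
    Computable (Nat.nth p) := by
  have h1 : Computable fun n => Nat.count p n := by
    refine (c_foldr_range (n := fun n => n) (b := fun _ => 0)
      (h := fun _ j c => c + if p j then 1 else 0) (by fun_prop) (by fun_prop)
      (by fun_prop)).of_eq fun n => ?_
    induction n with
    | zero => simp
    | succ n ih => rw [Nat.count_succ, ← ih]
  have h2 : ∀ n, ∃ x, p x ∧ Nat.count p x = n := fun n =>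
    ⟨_, Nat.nth_mem_of_infinite hi n, Nat.count_nth_of_infinite hi n⟩
  refine (Computable.find (P := fun n x => p x ∧ Nat.count p x = n) (by fun_prop) h2).of_eq
    fun n => ?_
  obtain ⟨a, b⟩ := Nat.find_spec (h2 n)
  rw [← Nat.nth_count a, b]

theorem cp_vl : ComputablePred Vl := by
  have : ComputablePred fun q : ℕ × List ℕ => Ball (q.2.length - 1)
      (fun j => q.2.getD j 0 ≠ q.2.getD (j + 1) 0) ∧
      Ball q.2.length fun j => tlev (q.2.getD j 0) = q.1 := by fun_prop
  refine this.of_eq fun q => and_congr (Iff.trans ?_ rdI_iff) ?_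
  · exact forall_congr' fun j => by rw [Nat.lt_sub_iff_add_lt]
  · unfold At Ball
    rw [List.forall_mem_iff_forall_getElem]
    refine forall_congr' fun j => ⟨fun h hj => ?_, fun h hj => ?_⟩
    · simpa [List.getD_eq_getElem?_getD, hj] using h hj
    · simpa [List.getD_eq_getElem?_getD, hj] using h hj

theorem exists_enum : ∃ E : ℕ ≃ {q // Vl q}, Computable fun n => (E n).1 := by
  have hi : {n | Vl (ofNat (ℕ × List ℕ) n)}.Infinite :=
    Set.infinite_of_injective_forall_mem (f := fun n : ℕ => Encodable.encode (n, ([] : List ℕ)))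
      (fun a b h => by simpa using Encodable.encode_injective h) fun n => by
        simp only [Set.mem_ofPred_eq, ofNat_encode]
        exact ⟨by simp, by simp [At]⟩
  have hc := c_nth (cp_comp cp_vl (Computable.ofNat _)) hi
  refine ⟨Equiv.ofBijective (fun n => ⟨_, Nat.nth_mem_of_infinite hi n⟩) ⟨fun a b h => ?_,
    fun q => ?_⟩, (Computable.ofNat _).comp hc⟩
  · exact Nat.nth_injective hi ((eqv (ℕ × List ℕ)).symm.injective (congrArg Subtype.val h))
  · refine ⟨Nat.count (fun n => Vl (ofNat (ℕ × List ℕ) n)) (Encodable.encode q.1),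
      Subtype.ext ?_⟩
    simp only
    rw [Nat.nth_count (by simpa only [ofNat_encode] using q.2), ofNat_encode]

theorem exists_family : ∃ X : ℕ → Sys tlev tpar ℕ,
    (ComputablePred fun q : ℕ × ℕ × ℕ × ℕ => (X q.1).rel q.2.1 q.2.2.1 q.2.2.2) ∧
    ∀ i, (∃ e, (X i).Thread e) ↔ U i := by
  obtain ⟨E, hE⟩ := exists_enum
  refine ⟨fun i => (XS i).map E.symm, ?_, fun i => ⟨fun ⟨e, he⟩ =>
    U_of_thread (((XS i).mor_map' E.symm).thread_map he), fun h => (thread_of_U h).elim
      fun e he => ⟨_, ((XS i).mor_map E.symm).thread_map he⟩⟩⟩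
  have h1 : Computable fun z : ℕ × List ℕ => act z.1 z.2 := by
    unfold act
    fun_prop
  have h2 : Computable fun z : ℕ × ℕ × List ℕ => fx z.1 z.2 := by
    unfold fx
    fun_prop
  have h3 : Computable fun z : ℕ × ℕ × List ℕ => px z.1 z.2 := by
    unfold px tw cd
    fun_prop
  have : ComputablePred fun q : ℕ × ℕ × ℕ × ℕ =>
      (q.2.1 = 0 ∧ 0 < (E q.2.2.1).1.1 ∧ px q.1 (E q.2.2.1).1 = (E q.2.2.2).1) ∨
      (q.2.1 % 2 = 1 ∧ q.2.2.1 = q.2.2.2 ∧ (E q.2.2.1).1.1 = q.2.1 / 2) ∨
      (q.2.1 ≠ 0 ∧ q.2.1 % 2 = 0 ∧ tlev (q.2.1 / 2 - 1) = (E q.2.2.1).1.1 ∧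
        fx (q.2.1 / 2 - 1) (E q.2.2.1).1 = (E q.2.2.2).1) := by
    generalize hF : (fun n => (E n).1) = F at hE
    have : ∀ n, (E n).1 = F n := fun n => congrFun hF n
    simp only [this]
    fun_prop
  refine this.of_eq fun q => ?_
  simp only [Sys.rel, Sys.map, XS, Equiv.symm_symm, Equiv.symm_apply_eq, Subtype.ext_iff]

end Pool.Agent.MP_9125cf_lc
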