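import Pool.Agent.MP_9125cf_lc.Rank

set_option autoImplicit false

namespace Pool.Agent.MP_9125cf_lc

open Classical

/-- A finite branch of letters. -/
def Br (lev par : ℕ → ℕ) (m : ℕ) (s : ℕ → ℕ) : Prop :=
  (∀ n ≤ m, lev (s n) = n) ∧ ∀ n < m, par (s (n + 1)) = s n

/-- Finite branches with many extensions. -/
def Good (lev par : ℕ → ℕ) (β : Ordinal.{0}) (m : ℕ) (s : ℕ → ℕ) : Prop :=
  Br lev par m s ∧ ∀ δ, δ < β → ∀ M, ∃ m' s', M ≤ m' ∧ m ≤ m' ∧ (∀ n ≤ m, s' n = s n) ∧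
    Good lev par δ m' s'
termination_by β

theorem good_iff {lev par : ℕ → ℕ} {β : Ordinal.{0}} {m : ℕ} {s : ℕ → ℕ} : Good lev par β m s ↔
    Br lev par m s ∧ ∀ δ, δ < β → ∀ M, ∃ m' s', M ≤ m' ∧ m ≤ m' ∧ (∀ n ≤ m, s' n = s n) ∧
      Good lev par δ m' s' := by rw [Good]

/-- Letters on an infinite branch. -/
def Ill (lev par : ℕ → ℕ) (σ : ℕ) : Prop :=
  ∃ t : ℕ → ℕ, t 0 = σ ∧ ∀ k, lev (t k) = lev σ + k ∧ par (t (k + 1)) = t k

theorem Ill.lift {lev par : ℕ → ℕ} {σ : ℕ} (h : Ill lev par σ) :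
    ∃ τ, Ill lev par τ ∧ lev τ = lev σ + 1 ∧ par τ = σ := by
  obtain ⟨t, h0, ht⟩ := h
  exact ⟨t 1, ⟨fun k => t (k + 1), rfl, fun k => ⟨by rw [(ht _).1, (ht _).1]; omega,
    (ht _).2⟩⟩, (ht 1).1, (ht 0).2.trans h0⟩

theorem ill_of_step {lev par : ℕ → ℕ} {P : ℕ → Prop}
    (h : ∀ σ, P σ → ∃ τ, P τ ∧ lev τ = lev σ + 1 ∧ par τ = σ) {σ : ℕ} (hσ : P σ) :
    Ill lev par σ := by
  have h' : ∀ σ : {σ // P σ}, ∃ τ : {σ // P σ}, lev τ.1 = lev σ.1 + 1 ∧ par τ.1 = σ.1 :=
    fun σ => (h σ.1 σ.2).elim fun τ h => ⟨⟨τ, h.1⟩, h.2⟩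
  choose F hF using h'
  refine ⟨fun k => (F^[k] ⟨σ, hσ⟩).1, rfl, fun k => ⟨?_, ?_⟩⟩
  · induction k with
    | zero => rfl
    | succ k ih => simp only [Function.iterate_succ_apply', (hF _).1] at ih ⊢; omega
  · simp only [Function.iterate_succ_apply', (hF _).2]

namespace Sys

variable {lev par : ℕ → ℕ} {α : Type} {S : Sys lev par α} {e : ℕ → α}

theorem Thread.rep (he : S.Thread e) (z : α) : ∃ n L, At lev n L ∧ S.app L (e n) = z := by
  obtain ⟨-, h2, h3⟩ := S.wd_spec (x := e (S.lv z)) (y := z) (he _).1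
  exact ⟨_, _, by rwa [(he _).1] at h2, h3⟩

theorem Thread.ill (he : S.Thread e) {g : α → α} (hg : Mor S S g) {n σ : ℕ}
    (h : σ ∈ S.wd (e n) (g (e n))) : Ill lev par σ := by
  refine ill_of_step (P := fun σ => ∃ n, σ ∈ S.wd (e n) (g (e n))) ?_ ⟨n, h⟩
  rintro σ ⟨n, h⟩
  obtain ⟨-, a2, a3⟩ := hg.wd_spec (e (n + 1))
  have l := (he (n + 1)).1
  have l' := (hg.wd_spec (e n)).2.1 σ h
  have a4 : At lev (S.lv (e n)) ((S.wd (e (n + 1)) (g (e (n + 1)))).map par) := by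
    rw [(he n).1]; rw [l] at a2; exact S.at_par a2
  have : g (e n) = S.app ((S.wd (e (n + 1)) (g (e (n + 1)))).map par) (e n) := by
    conv_lhs => rw [← (he n).2, hg.p _ (by omega), ← a3, S.p_app a2 (by omega), (he n).2]
  rw [this, S.wd_app a4] at h
  obtain ⟨τ, b1, b2⟩ := List.mem_map.1 (mem_red h)
  exact ⟨τ, ⟨_, b1⟩, by rw [a2 τ b1, l, l', (he n).1], b2⟩

theorem thread_of_ill (S : Sys lev par α) {b : ℕ → α} {H : ℕ → List ℕ}
    (hb : ∀ n, S.lv (b n) = n) (hH : ∀ n, At lev n (H n)) (hi : ∀ n, ∀ σ ∈ H n, Ill lev par σ)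
    (hp : ∀ n, S.p (b (n + 1)) = S.app (H n) (b n)) : ∃ e, S.Thread e := by
  have lift : ∀ n (L : List ℕ), At lev n L → (∀ σ ∈ L, Ill lev par σ) →
      ∃ L', (At lev (n + 1) L' ∧ ∀ σ ∈ L', Ill lev par σ) ∧ L'.map par = L := by
    intro n L
    induction L with
    | nil => exact fun _ _ => ⟨[], ⟨by simp [At], by simp⟩, rfl⟩
    | cons σ L ih =>
      intro h1 h2
      obtain ⟨L', ⟨a1, a2⟩, a3⟩ := ih (h1.sub (by simp)) fun τ h => h2 τ (by simp [h])
      obtain ⟨τ, c1, c2, c3⟩ := (h2 σ (by simp)).lift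
      refine ⟨τ :: L', ⟨fun ρ h => ?_, fun ρ h => ?_⟩, by simp [a3, c3]⟩
      · rcases List.mem_cons.1 h with rfl | h
        · rw [c2, h1 σ (by simp)]
        · exact a1 ρ h
      · rcases List.mem_cons.1 h with rfl | h
        · exact c1
        · exact a2 ρ h
  have step : ∀ n (L : {L : List ℕ // At lev n L ∧ ∀ σ ∈ L, Ill lev par σ}),
      ∃ L' : {L : List ℕ // At lev (n + 1) L ∧ ∀ σ ∈ L, Ill lev par σ},
        L'.1.map par = L.1 ++ (H n).reverse := by
    intro n L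
    obtain ⟨L', h1, h2⟩ := lift n (L.1 ++ (H n).reverse) (L.2.1.append (hH n).reverse)
      fun σ h => (List.mem_append.1 h).elim (L.2.2 σ) fun h => hi n σ (List.mem_reverse.1 h)
    exact ⟨⟨L', h1⟩, h2⟩
  choose F hF using step
  let W : ∀ n, {L : List ℕ // At lev n L ∧ ∀ σ ∈ L, Ill lev par σ} := fun n =>
    Nat.rec ⟨[], by simp [At], by simp⟩ F n
  refine ⟨fun n => S.app (W n).1 (b n), fun n => ⟨by simp [hb], ?_⟩⟩
  have : (W (n + 1)).1.map par = (W n).1 ++ (H n).reverse := hF n (W n)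
  simp only []
  rw [S.p_app (by rw [hb]; exact (W _).2.1) (by rw [hb]; omega), this, hp, app_append,
    S.app_rev (by rw [hb]; exact hH n)]

/-- The partial automorphism given by a finite branch. -/
noncomputable def pa (S : Sys lev par α) (e : ℕ → α) (s : ℕ → ℕ) (z : α) : α :=
  tau S S (e (S.lv z)) (S.f (s (S.lv z)) (e (S.lv z))) z

variable {m : ℕ} {s : ℕ → ℕ}

theorem pa_app (he : S.Thread e) {n : ℕ} {L : List ℕ} (hL : At lev n L) :
    S.pa e s (S.app L (e n)) = S.app L (S.f (s n) (e n)) := by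
  rw [pa, lv_app, (he n).1, tau_app S S (S.lv_f _ _) (by rwa [(he n).1])]

theorem lv_pa (he : S.Thread e) (z : α) : S.lv (S.pa e s z) = S.lv z := by
  rw [pa, tau, lv_app, S.lv_f, (he _).1]

theorem pa_pa (he : S.Thread e) (hs : Br lev par m s) {z : α} (hz : S.lv z ≤ m) :
    S.pa e s (S.pa e s z) = z := by
  obtain ⟨n, L, h1, rfl⟩ := he.rep z
  rw [lv_app, (he n).1] at hz
  have := pa_app (s := s) he (h1.append (L' := [s n]) (by simpa [At] using hs.1 n hz))
  rw [app_append, app_append, app_cons, app_nil, app_cons, app_nil,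
    S.f_f _ _ (by rw [hs.1 n hz, (he n).1])] at this
  rw [pa_app he h1, this]

theorem pa_inj (he : S.Thread e) (hs : Br lev par m s) {x y : α} (hx : S.lv x ≤ m)
    (hy : S.lv y ≤ m) : S.pa e s x = S.pa e s y ↔ x = y :=
  ⟨fun h => by rw [← pa_pa he hs hx, h, pa_pa he hs hy], fun h => by rw [h]⟩

theorem pa_f (he : S.Thread e) {σ : ℕ} {z : α} (hz : lev σ = S.lv z) :
    S.pa e s (S.f σ z) = S.f σ (S.pa e s z) := by
  obtain ⟨n, L, h1, rfl⟩ := he.rep z
  rw [lv_app, (he n).1] at hz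
  rw [← app_cons, pa_app he h1, pa_app he (L := σ :: L)
    (At.append (L := [σ]) (by simpa [At] using hz) h1), app_cons]

theorem pa_p (he : S.Thread e) (hs : Br lev par m s) {z : α} (hz : S.lv z ≤ m)
    (h0 : 0 < S.lv z) : S.pa e s (S.p z) = S.p (S.pa e s z) := by
  obtain ⟨n, L, h1, rfl⟩ := he.rep z
  rw [lv_app, (he n).1] at hz h0
  obtain ⟨n, rfl⟩ : ∃ k, n = k + 1 := ⟨n - 1, by omega⟩
  have l := (he (n + 1)).1
  rw [pa_app he h1, S.p_app (by rwa [l]) (by omega), (he n).2, pa_app he (S.at_par h1),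
    S.p_app (by rwa [S.lv_f, l]) (by rw [S.lv_f]; omega),
    S.p_f _ _ (by rw [hs.1 _ hz, l]) (by omega), hs.2 n hz, (he n).2]

theorem pa_rel (he : S.Thread e) (hs : Br lev par m s) {x y : α} (hx : S.lv x ≤ m)
    (hy : S.lv y ≤ m) (i : ℕ) : S.rel i x y ↔ S.rel i (S.pa e s x) (S.pa e s y) := by
  rcases sym_cases i with rfl | ⟨n, rfl⟩ | ⟨σ, rfl⟩
  · simp only [rel_zero, lv_pa he]
    refine and_congr_right fun h0 => ?_
    rw [← pa_p he hs hx h0, pa_inj he hs _ hy]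
    rw [S.lv_p x (S.lv x - 1) (by omega)]
    omega
  · simp only [rel_odd, lv_pa he, pa_inj he hs hx hy]
  · simp only [rel_even, lv_pa he]
    refine and_congr_right fun h0 => ?_
    rw [← pa_f he h0, pa_inj he hs (by rwa [S.lv_f]) hy]

theorem bf_good {S : Sys lev par ℕ} {e : ℕ → ℕ} (he : S.Thread e) (β : Ordinal.{0}) :
    ∀ m s, Good lev par β m s → ∀ a : List ℕ, (∀ x ∈ a, S.lv x ≤ m) →
      BF4 S.rel β a (a.map (S.pa e s)) := by
  induction β using WellFoundedLT.induction with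
  | ind β ih =>
    intro m s h a ha
    obtain ⟨h1, h2⟩ := good_iff.1 h
    refine bf_iff.2 ⟨atEq_iff.2 ⟨by simp, ?_⟩, fun δ hδ => ?_⟩
    · have : ∀ u ∈ a.zip (a.map (S.pa e s)), S.lv u.1 ≤ m ∧ u.2 = S.pa e s u.1 := by
        intro u hu
        rw [List.zip_map_right, List.zip_eq_zipWith, List.zipWith_self] at hu
        simp only [List.map_map, List.mem_map] at hu
        obtain ⟨x, hx, rfl⟩ := hu
        exact ⟨ha x hx, rfl⟩
      intro u hu v hv
      obtain ⟨u1, u2⟩ := this u hu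
      obtain ⟨v1, v2⟩ := this v hv
      rw [u2, v2]
      exact ⟨(pa_inj he h1 u1 v1).symm, pa_rel he h1 u1 v1⟩
    · have key : ∀ c : List ℕ, ∃ m' s', Br lev par m' s' ∧ (∀ x ∈ c, S.lv x ≤ m') ∧
          ∀ c' : List ℕ, (∀ x ∈ c', S.lv x ≤ m') →
            BF4 S.rel δ (a ++ c') (a.map (S.pa e s) ++ c'.map (S.pa e s')) := by
        intro c
        obtain ⟨m', s', b1, b2, b3, b4⟩ := h2 δ hδ (c.map S.lv).sum
        refine ⟨m', s', (good_iff.1 b4).1, fun x hx =>
          (List.single_le_sum (by simp) _ (List.mem_map_of_mem hx)).trans b1, fun c' hc => ?_⟩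
        have e1 : a.map (S.pa e s) = a.map (S.pa e s') := List.map_congr_left fun x hx => by
          rw [pa, pa, b3 _ (ha x hx)]
        rw [e1, ← List.map_append]
        exact ih δ hδ m' s' b4 _ fun x hx =>
          (List.mem_append.1 hx).elim (fun h => (ha x h).trans b2) (hc x)
      refine ⟨fun c => ?_, fun d => ?_⟩
      · obtain ⟨m', s', -, b2, b3⟩ := key c
        exact ⟨_, b3 c b2⟩
      · obtain ⟨m', s', b1, b2, b3⟩ := key d
        have := b3 (d.map (S.pa e s')) (by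
          intro x hx
          obtain ⟨y, hy, rfl⟩ := List.mem_map.1 hx
          rw [lv_pa he]
          exact b2 y hy)
        rw [List.map_map, List.map_congr_left (f := S.pa e s' ∘ S.pa e s') (g := id)
          (fun x hx => pa_pa he b1 (b2 x hx)),
          List.map_id] at this
        exact ⟨_, this⟩

theorem high_rank {S : Sys lev par ℕ} (hS : IsComp S.rel) {e : ℕ → ℕ} (he : S.Thread e)
    (H : ∀ β, CompOrd β → ∃ m s, Good lev par β m s ∧ ¬ Ill lev par (s m)) :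
    HighRank S.rel := by
  have h1 := scottRank_le fun a b => orbit_of_bf (a := a) (b := b) hS
  have h2 : omega1CK ≤ scottRank S.rel := by
    refine le_of_forall_lt fun β hβ => ?_
    obtain ⟨m, s, a1, a2⟩ := H β (compOrd_iff.2 hβ)
    have l := (good_iff.1 a1).1.1 m le_rfl
    refine lt_scottRank (fun a b => orbit_of_bf (a := a) (b := b) hS)
      (bf_good he β m s a1 [e m] (by simp [(he m).1])) ?_
    rintro ⟨g, g1, g2⟩
    have hg : Mor S S g := mor_of_pres fun i x y => (g1 i x y).1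
    have g3 : g (e m) = S.app [s m] (e m) := by
      have := pa_app (s := s) he (n := m) (L := []) (by simp [At])
      rw [app_nil, app_nil] at this
      simpa [this] using g2
    refine a2 (he.ill hg (n := m) ?_)
    rw [g3, S.wd_app (by simpa [At, (he m).1] using l)]
    simp [red, act]
  rcases h2.eq_or_lt with h | h
  · exact Or.inl h.symm
  · exact Or.inr (le_antisymm h1 (Order.succ_le_of_lt h))

end Sys

end Pool.Agent.MP_9125cf_lc
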