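import Pool.Agent.MP_9125cf_lc.Sigma

set_option autoImplicit false

namespace Pool.Agent.MP_9125cf_lc

open Classical

theorem CompOrd.of_le {α β : Ordinal.{0}} (h : CompOrd α) (hβ : β ≤ α) : CompOrd β := by
  rcases hβ.eq_or_lt with rfl | hβ
  · exact h
  obtain ⟨S, r, wo, hS, hr, rfl⟩ := h
  obtain ⟨x, rfl⟩ := Ordinal.typein_surj _ hβ
  let e : (fun a b : {y | y ∈ S ∧ r y x} => r a b) ≃r
      Subrel (fun a b : S => r a b) (fun a : S => r a x) :=
    { toFun := fun a => ⟨⟨a.1, a.2.1⟩, a.2.2⟩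
      invFun := fun a => ⟨a.1.1, a.1.2, a.2⟩
      left_inv := fun _ => rfl
      right_inv := fun _ => rfl
      map_rel_iff' := Iff.rfl }
  have wo' := e.toRelEmbedding.isWellOrder
  refine ⟨{y | y ∈ S ∧ r y x}, r, wo', ?_, hr, ?_⟩
  · exact cp_and hS (cp_comp hr (Computable.id.pair (Computable.const x.1)))
  · exact e.ordinalType_congr.trans (Ordinal.type_subrel _ x)

theorem not_compOrd_omega1CK : ¬ CompOrd omega1CK := by
  have : ({α | ¬ CompOrd α} : Set Ordinal.{0}).Nonempty := by
    refine ⟨(Cardinal.aleph 1).ord, ?_⟩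
    rintro ⟨S, r, wo, -, -, h⟩
    have h1 := congrArg Ordinal.card h
    rw [Ordinal.card_type, Cardinal.card_ord] at h1
    have h2 : Cardinal.mk S ≤ Cardinal.aleph0 := Cardinal.mk_le_aleph0
    rw [h1] at h2
    exact absurd h2 (not_le.2 Cardinal.aleph0_lt_aleph_one)
  exact csInf_mem this

theorem compOrd_iff {α : Ordinal.{0}} : CompOrd α ↔ α < omega1CK := by
  constructor
  · intro h
    by_contra h'
    exact not_compOrd_omega1CK (h.of_le (not_lt.1 h'))
  · intro h
    by_contra h'
    exact absurd (csInf_le' (s := {α | ¬ CompOrd α}) h') (not_le.2 h)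

/-- `u` has rank at least `β` for the relation `r`. -/
def Deep {γ : Type} (r : γ → γ → Prop) (β : Ordinal.{0}) (u : γ) : Prop :=
  ∀ δ, δ < β → ∃ u', r u' u ∧ Deep r δ u'
termination_by β

theorem deep_iff {γ : Type} {r : γ → γ → Prop} {β : Ordinal.{0}} {u : γ} :
    Deep r β u ↔ ∀ δ, δ < β → ∃ u', r u' u ∧ Deep r δ u' := by rw [Deep]

theorem Deep.mono {γ : Type} {r : γ → γ → Prop} {β β' : Ordinal.{0}} {u : γ} (h : Deep r β u)
    (hb : β' ≤ β) : Deep r β' u :=
  deep_iff.2 fun δ hδ => deep_iff.1 h δ (hδ.trans_le hb)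

/-- The rank of a node. -/
noncomputable def rk {γ : Type} (r : γ → γ → Prop) (u : γ) : Ordinal.{0} :=
  sInf {δ | ¬ Deep r (δ + 1) u}

theorem rk_lt {γ : Type} {r : γ → γ → Prop} {β : Ordinal.{0}} {u : γ} (h : ¬ Deep r β u) :
    rk r u < β ∧ ∀ u', r u' u → ¬ Deep r (rk r u) u' := by
  rw [deep_iff] at h
  push Not at h
  obtain ⟨δ, hδ, h⟩ := h
  have hm : δ ∈ {δ | ¬ Deep r (δ + 1) u} := fun h' => by
    obtain ⟨u', h1, h2⟩ := deep_iff.1 h' δ (Order.lt_succ δ)
    exact h u' h1 h2
  refine ⟨(csInf_le' hm).trans_lt hδ, fun u' hu' hd => ?_⟩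
  have h2 : ¬ Deep r (rk r u + 1) u := csInf_mem (s := {δ | ¬ Deep r (δ + 1) u}) ⟨δ, hm⟩
  exact h2 (deep_iff.2 fun ε hε => ⟨u', hu', hd.mono (Order.lt_succ_iff.1 hε)⟩)

/-- A list as a function with values in `ℕ∞`. -/
def ext (s : List ℕ) (i : ℕ) : ℕ∞ := if i < s.length then (s.getD i 0 : ℕ) else ⊤

theorem ext_eq_iff {s t : List ℕ} {i : ℕ} : ext s i = ext t i ↔
    (i < s.length ↔ i < t.length) ∧ (i < s.length → s.getD i 0 = t.getD i 0) := by
  unfold ext
  by_cases h1 : i < s.length <;> by_cases h2 : i < t.length <;> simp [h1, h2]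

theorem ext_lt_iff {s t : List ℕ} {i : ℕ} : ext s i < ext t i ↔
    i < s.length ∧ (i < t.length → s.getD i 0 < t.getD i 0) := by
  unfold ext
  by_cases h1 : i < s.length <;> by_cases h2 : i < t.length <;> simp [h1, h2]

theorem ext_inj {s t : List ℕ} (h : ext s = ext t) : s = t := by
  have hl : s.length = t.length := by
    have h1 := (ext_eq_iff.1 (congrFun h s.length)).1
    have h2 := (ext_eq_iff.1 (congrFun h t.length)).1
    omega
  refine List.ext_getElem hl fun i h1 h2 => ?_
  have := (ext_eq_iff.1 (congrFun h i)).2 h1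
  simpa [List.getD_eq_getElem?_getD, h1, h2] using this

/-- The Kleene-Brouwer order. -/
def kb (s t : List ℕ) : Prop := toLex (ext s) < toLex (ext t)

theorem cp_kb : ComputablePred fun q : List ℕ × List ℕ => kb q.1 q.2 := by
  have L1 : Computable fun z : List ℕ × List ℕ => z.1.length :=
    Computable.list_length.comp Computable.fst
  have G : Computable fun z : List ℕ × ℕ => z.1.getD z.2 0 := (Primrec.list_getD 0).to_comp
  have Lt : ComputablePred fun z : List ℕ × ℕ => z.2 < z.1.length :=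
    cp_lt Computable.snd (Computable.list_length.comp Computable.fst)
  have p1 : Computable fun z : (List ℕ × List ℕ) × ℕ => (z.1.1, z.2) :=
    (Computable.fst.comp Computable.fst).pair Computable.snd
  have p2 : Computable fun z : (List ℕ × List ℕ) × ℕ => (z.1.2, z.2) :=
    (Computable.snd.comp Computable.fst).pair Computable.snd
  have E : ComputablePred fun z : (List ℕ × List ℕ) × ℕ => ext z.1.1 z.2 = ext z.1.2 z.2 :=
    (cp_and (cp_and (cp_imp (cp_comp Lt p1) (cp_comp Lt p2)) (cp_imp (cp_comp Lt p2)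
      (cp_comp Lt p1))) (cp_imp (cp_comp Lt p1) (cp_eq (G.comp p1) (G.comp p2)))).of_eq
      fun z => by rw [ext_eq_iff]; tauto
  have T : ComputablePred fun z : (List ℕ × List ℕ) × ℕ => ext z.1.1 z.2 < ext z.1.2 z.2 :=
    (cp_and (cp_comp Lt p1) (cp_imp (cp_comp Lt p2) (cp_lt (G.comp p1) (G.comp p2)))).of_eq
      fun z => by rw [ext_lt_iff]
  have B := cp_ball (cp_comp E (g := fun z : ((List ℕ × List ℕ) × ℕ) × ℕ => (z.1.1, z.2))
    ((Computable.fst.comp Computable.fst).pair Computable.snd)) Computable.snd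
  refine (cp_bex (cp_and B T) L1).of_eq fun q => ?_
  constructor
  · rintro ⟨i, -, h1, h2⟩
    exact ⟨i, h1, h2⟩
  · rintro ⟨i, h1, h2⟩
    exact ⟨i, (ext_lt_iff.1 h2).1, h1, h2⟩

theorem kb_append (s : List ℕ) (c : ℕ) : kb (s ++ [c]) s := by
  refine ⟨s.length, fun j hj => ?_, ?_⟩
  · exact ext_eq_iff.2 ⟨by simp; omega, fun _ => by
      simp [List.getD_eq_getElem?_getD, List.getElem?_append_left hj]⟩
  · exact ext_lt_iff.2 ⟨by simp, by simp⟩

theorem kb_path (s : ℕ → List ℕ) (hs : ∀ m, kb (s (m + 1)) (s m)) :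
    ∃ G : ℕ → ℕ, ∀ i, ∃ m, i ≤ (s m).length ∧ ∀ j < i, (s m).getD j 0 = G j := by
  have anti : StrictAnti fun m => toLex (ext (s m)) := strictAnti_nat_of_succ_lt hs
  have st : ∀ i, ∃ N, ∀ m ≥ N, ∀ j < i, ext (s m) j = ext (s N) j := by
    intro i
    induction i with
    | zero => exact ⟨0, by simp⟩
    | succ i ih =>
      obtain ⟨N, hN⟩ := ih
      obtain ⟨v, ⟨N', hN', rfl⟩, hv⟩ := (wellFounded_lt (α := ℕ∞)).has_min
        {v | ∃ m ≥ N, ext (s m) i = v} ⟨_, N, le_rfl, rfl⟩
      refine ⟨N', fun m hm j hj => ?_⟩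
      rcases Nat.lt_succ_iff_lt_or_eq.1 hj with h | rfl
      · rw [hN m (hN'.trans hm) j h, hN N' hN' j h]
      · refine le_antisymm ?_ (not_lt.1 (hv _ ⟨m, hN'.trans hm, rfl⟩))
        exact Pi.apply_le_of_toLex (anti.antitone hm) fun k hk => by
          rw [hN m (hN'.trans hm) k hk, hN N' hN' k hk]
  choose N hN using st
  have len : ∀ i, ∀ m ≥ N i, i ≤ (s m).length := by
    intro i m hm
    by_contra h
    have h1 : ∀ j < i, ext (s (m + 1)) j = ext (s m) j := fun j hj => by
      rw [hN i m hm j hj, hN i (m + 1) (by omega) j hj]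
    obtain ⟨k, -, hk⟩ := hs m
    have h2 := (ext_lt_iff.1 hk).1
    have h3 := (ext_eq_iff.1 (h1 (s m).length (by omega))).1
    exact absurd (h1 k (by omega)) (ne_of_lt hk)
  refine ⟨fun j => (s (N (j + 1))).getD j 0, fun i => ⟨N i, len i _ le_rfl, fun j hj => ?_⟩⟩
  have h1 := hN i (max (N i) (N (j + 1))) (le_max_left _ _) j hj
  have h2 := hN (j + 1) (max (N i) (N (j + 1))) (le_max_right _ _) j (by omega)
  exact (ext_eq_iff.1 (h1.symm.trans h2)).2 (lt_of_lt_of_le hj (len i _ le_rfl))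

section
variable {γ : Type} [Denumerable γ]

/-- The `j`-th node of a coded chain. -/
def nd (u : γ) (s : List ℕ) (j : ℕ) : γ :=
  if j = 0 then u else Denumerable.ofNat γ (s.getD (j - 1) 0).unpair.1

/-- Coded chains with witnesses. -/
def Chn (R : (γ × γ) × ℕ → Prop) (u : γ) (s : List ℕ) : Prop :=
  ∀ j < s.length, R ((nd u s (j + 1), nd u s j), (s.getD j 0).unpair.2)

theorem cp_chn {R : (γ × γ) × ℕ → Prop} (hR : ComputablePred R) (u : γ) :
    ComputablePred (Chn R u) := by
  have G : Primrec fun z : List ℕ × ℕ => z.1.getD z.2 0 := Primrec.list_getD 0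
  have N : Primrec fun z : List ℕ × ℕ => nd u z.1 z.2 :=
    Primrec.ite (Primrec.eq.comp Primrec.snd (Primrec.const 0)) (Primrec.const u)
      ((Primrec.ofNat γ).comp (Primrec.fst.comp (Primrec.unpair.comp (G.comp
        (Primrec.fst.pair (Primrec.nat_sub.comp Primrec.snd (Primrec.const 1)))))))
  exact cp_ball (R := fun z : List ℕ × ℕ =>
    R ((nd u z.1 (z.2 + 1), nd u z.1 z.2), (z.1.getD z.2 0).unpair.2))
    (cp_comp hR (((N.comp (Primrec.fst.pair (Primrec.succ.comp Primrec.snd))).pair N).pair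
      (Primrec.snd.comp (Primrec.unpair.comp G))).to_comp) Computable.list_length

theorem deep_bound {R : (γ × γ) × ℕ → Prop} (hR : ComputablePred R) (u : γ)
    (hu : ¬ ∃ f : ℕ → γ, f 0 = u ∧ ∀ n, ∃ k, R ((f (n + 1), f n), k)) :
    ∃ β < omega1CK, ¬ Deep (fun a b => ∃ k, R ((a, b), k)) β u := by
  let S : Set ℕ := {c | Chn R u (Denumerable.ofNat (List ℕ) c)}
  let r : ℕ → ℕ → Prop := fun a b =>
    kb (Denumerable.ofNat (List ℕ) a) (Denumerable.ofNat (List ℕ) b)
  have wf : WellFounded fun x y : S => r x y := by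
    rw [wellFounded_iff_isEmpty_descending_chain]
    refine ⟨fun ⟨c, hc⟩ => hu ?_⟩
    obtain ⟨G, hG⟩ := kb_path (fun m => Denumerable.ofNat (List ℕ) (c m)) hc
    refine ⟨fun j => if j = 0 then u else Denumerable.ofNat γ (G (j - 1)).unpair.1, by simp,
      fun n => ⟨(G n).unpair.2, ?_⟩⟩
    obtain ⟨m, h1, h2⟩ := hG (n + 1)
    have := (c m).2 n (by omega)
    unfold nd at this
    rw [h2 n (by omega), h2 (n - 1) (by omega), h2 (n + 1 - 1) (by omega)] at this
    exact this
  have tri : Std.Trichotomous fun x y : S => r x y := by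
    refine ⟨fun a b h1 h2 => ?_⟩
    have h3 : ext (Denumerable.ofNat (List ℕ) a) = ext (Denumerable.ofNat (List ℕ) b) :=
      toLex.injective (le_antisymm (not_lt.1 h2) (not_lt.1 h1))
    exact Subtype.ext ((Denumerable.eqv (List ℕ)).symm.injective (ext_inj h3))
  have wo : IsWellOrder S fun x y : S => r x y := { wf := wf, trichotomous := tri.1 }
  have hc : CompOrd (Ordinal.type fun x y : S => r x y) :=
    ⟨S, r, wo, cp_comp (cp_chn hR u) (Computable.ofNat _), cp_comp cp_kb
      (((Computable.ofNat _).comp Computable.fst).pair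
        ((Computable.ofNat _).comp Computable.snd)), rfl⟩
  have key : ∀ β : Ordinal.{0}, ∀ (s : List ℕ) (hs : Chn R u s),
      Deep (fun a b => ∃ k, R ((a, b), k)) β (nd u s s.length) →
      β ≤ Ordinal.typein (fun x y : S => r x y) ⟨Encodable.encode s, by simpa [S] using hs⟩ := by
    intro β
    induction β using WellFoundedLT.induction with
    | ind β ih =>
      intro s hs hd
      refine le_of_forall_lt fun δ hδ => ?_
      obtain ⟨u', ⟨k, hk⟩, hd'⟩ := deep_iff.1 hd δ hδ
      have e1 : ∀ j ≤ s.length, nd u (s ++ [Nat.pair (Encodable.encode u') k]) j = nd u s j := by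
        intro j hj
        unfold nd
        split_ifs with h
        · rfl
        · simp [List.getD_eq_getElem?_getD,
            List.getElem?_append_left (show j - 1 < s.length by omega)]
      have e2 : nd u (s ++ [Nat.pair (Encodable.encode u') k]) (s.length + 1) = u' := by
        simp [nd]
      have hs' : Chn R u (s ++ [Nat.pair (Encodable.encode u') k]) := by
        intro j hj
        simp only [List.length_append, List.length_singleton] at hj
        rcases Nat.lt_succ_iff_lt_or_eq.1 hj with h | rfl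
        · rw [e1 j h.le, e1 (j + 1) h]
          simpa [List.getD_eq_getElem?_getD, List.getElem?_append_left h] using hs j h
        · rw [e1 _ le_rfl, e2]
          simpa using hk
      refine (ih δ hδ _ hs' (by simpa [e2] using hd')).trans_lt ?_
      rw [Ordinal.typein_lt_typein]
      simpa [r] using kb_append _ _
  have h0 : Chn R u [] := by intro j hj; simp at hj
  refine ⟨_ + 1, compOrd_iff.1 (hc.of_le (Order.succ_le_of_lt (Ordinal.typein_lt_type _
    ⟨Encodable.encode ([] : List ℕ), by simpa [S] using h0⟩))), fun hd => ?_⟩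
  exact absurd (key _ [] h0 (by simpa [nd] using hd)) (not_le.2 (Order.lt_succ _))

end

end Pool.Agent.MP_9125cf_lc
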