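import Pool.Agent.MP_9125cf_lc.Fam

set_option autoImplicit false

namespace Pool.Agent.MP_9125cf_lc

open Classical

theorem mem_isoClass {K : Set Str} {A : Str} {e : ℕ} :
    e ∈ indexSet {N | N ∈ K ∧ Iso N A} ↔ e ∈ indexSet K ∧ Iso (Hold e) A := by
  simp only [mem_indexSet, Set.mem_ofPred_eq, and_assoc]

theorem main_facts : ∃ A ∈ Cls tlev tpar, (∀ M ∈ Cls tlev tpar, Iso M A → HighRank M) ∧
    (∀ M ∈ Cls tlev tpar, ¬ Iso M A → scottRank M < omega1CK ∧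
      Dl fun e => e ∈ indexSet (Cls tlev tpar) ∧ Iso (Hold e) M) ∧
    ∃ X : ℕ → Str, (ComputablePred fun q : ℕ × ℕ × ℕ × ℕ => X q.1 q.2.1 q.2.2.1 q.2.2.2) ∧
      (∀ i, X i ∈ Cls tlev tpar) ∧ ∀ i, Iso (X i) A ↔ U i := by
  obtain ⟨X, h1, h2⟩ := exists_family
  obtain ⟨a, ha⟩ := exists_U
  obtain ⟨e, he⟩ := (h2 a).2 ha
  obtain ⟨g, -, hg⟩ := exists_index (X := fun i => (X i).rel) h1
  have key : ∀ S : Sys tlev tpar ℕ, Iso S.rel (X a).rel ↔ ∃ e, S.Thread e := fun S =>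
    ⟨fun h => (Sys.iso_iff.1 h.symm).elim fun _ h => ⟨_, h.thread_map he⟩,
      fun ⟨_, h⟩ => Sys.iso_iff.2 (Sys.mor_of_thread _ _ h he)⟩
  refine ⟨(X a).rel, ⟨⟨_, hg a⟩, _, rfl⟩, ?_, ?_, fun i => (X i).rel, h1,
    fun i => ⟨⟨_, hg i⟩, _, rfl⟩, fun i => (key _).trans (h2 i)⟩
  · rintro M ⟨hM, S, rfl⟩ h
    obtain ⟨e', he'⟩ := (key S).1 h
    exact Sys.high_rank hM he' good_tree
  · rintro M ⟨hM, S, rfl⟩ h
    exact ⟨Sys.low_rank hM (mt (key S).2 h), dl_class c_tlev c_tpar hM (mt (key S).2 h)⟩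

theorem not_dl_class {K : Set Str} {A : Str} {X : ℕ → Str}
    (h1 : ComputablePred fun q : ℕ × ℕ × ℕ × ℕ => X q.1 q.2.1 q.2.2.1 q.2.2.2)
    (h2 : ∀ i, X i ∈ K) (h3 : ∀ i, Iso (X i) A ↔ U i) :
    ¬ Dl fun e => e ∈ indexSet K ∧ Iso (Hold e) A := by
  intro h
  obtain ⟨g, hg, H⟩ := exists_index h1
  refine not_sg_U ((h.2.comp hg).of_eq fun i => not_congr ?_)
  simp only []
  rw [← (codes_iff.1 (H i)).2, h3]
  exact and_iff_right ⟨_, h2 i, H i⟩

theorem unique_high : ∃ K : Set Str, IsClass K ∧ Delta11 (indexSet K) ∧ ∃ A ∈ K, HighRank A ∧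
    (∀ M ∈ K, HighRank M ↔ Iso M A) ∧ (∀ M ∈ K, ¬ Iso M A → scottRank M < omega1CK) ∧
    ∀ M ∈ K, (Delta11 (indexSet {N | N ∈ K ∧ Iso N M}) ↔ ¬ Iso M A) := by
  obtain ⟨A, hA, h1, h2, X, h3, h4, h5⟩ := main_facts
  refine ⟨_, isClass_cls tlev tpar, dl_cls c_tlev c_tpar, A, hA, h1 A hA (.refl A),
    fun M hM => ⟨fun h => by_contra fun hn => ?_, h1 M hM⟩, fun M hM h => (h2 M hM h).1,
    fun M hM => ?_⟩
  · have := (h2 M hM hn).1
    rcases h with h | h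
    · exact this.ne h
    · exact absurd (h ▸ this) (not_lt.2 (Order.le_succ _))
  · simp only [delta11_iff, mem_isoClass]
    refine ⟨fun h hi => not_dl_class h3 h4 h5 (h.of_eq fun e => and_congr_right fun _ =>
      ⟨fun h => h.trans hi, fun h => h.trans hi.symm⟩), fun h => (h2 M hM h).2⟩

/-- The complement of a structure. -/
def cpl (M : Str) : Str := fun i x y => ¬ M i x y

theorem cpl_cpl (M : Str) : cpl (cpl M) = M := by
  funext i x y
  simp [cpl]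

theorem Iso.cpl {M N : Str} (h : Iso M N) : Iso (cpl M) (cpl N) :=
  h.imp fun _ h i x y => not_congr (h i x y)

theorem IsComp.cpl {M : Str} (h : IsComp M) : IsComp (cpl M) := isComp_of_cp h.cp.not

theorem intermediate : ∃ K : Set Str, IsClass K ∧ Delta11 (indexSet K) ∧ Sigma11 (isoRel K) ∧
    ¬ Delta11 (isoRel K) ∧ ∃ K' : Set Str, IsClass K' ∧ Delta11 (indexSet K') ∧ ¬ HRed K' K := by
  obtain ⟨A, hA, -, h2, X, h3, h4, h5⟩ := main_facts
  have hK := dl_cls c_tlev c_tpar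
  have hC := isClass_cls tlev tpar
  obtain ⟨a, ha⟩ := hA.1
  obtain ⟨a', ha'⟩ := hA.1.cpl
  have hK' : Dl fun e => e ∈ indexSet {M | M ∈ Cls tlev tpar ∨ cpl M ∈ Cls tlev tpar} := by
    have : Dl fun e => Tot e ∧ (Ax tlev tpar (Hold e) ∨ Ax tlev tpar (cpl (Hold e))) :=
      d_and (by fun_prop) (d_or (d_ax c_tlev c_tpar (by fun_prop))
        (d_ax c_tlev c_tpar (by unfold cpl; fun_prop)))
    refine this.of_eq fun e => ?_
    rw [mem_indexSet]
    refine and_congr_right fun h => ?_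
    have hc : IsComp (Hold e) := ⟨e, codes_iff.2 ⟨h, rfl⟩⟩
    simp [mem_cls, hc, hc.cpl]
  refine ⟨_, hC, hK, ?_, fun h => ?_, {M | M ∈ Cls tlev tpar ∨ cpl M ∈ Cls tlev tpar},
    ⟨?_, ?_⟩, hK', ?_⟩
  · exact Sg.of_eq (s_and (hK.1.comp Computable.fst) (s_and (hK.1.comp Computable.snd)
      (sg_iso (M := fun q : ℕ × ℕ => Hold q.1) (N := fun q => Hold q.2) (by fun_prop)
        (by fun_prop)))) fun q => mem_isoRel.symm
  · refine not_dl_class h3 h4 h5 ((((delta11_iff _).1 h).comp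
      (g := fun e : ℕ => (e, a)) (by fun_prop)).of_eq fun e => ?_)
    rw [mem_isoRel, (codes_iff.1 ha).2]
    exact and_congr_right fun _ => and_iff_right ⟨_, hA, ha⟩
  · rintro M (h | h)
    · exact h.1
    · exact cpl_cpl M ▸ h.1.cpl
  · rintro M (h | h) N hN hi
    · exact Or.inl (hC.2 M h N hN hi)
    · exact Or.inr (hC.2 _ h _ hN.cpl hi.cpl)
  · rintro ⟨F, f1, f2, f3⟩
    have f1' : Dl fun q : ℕ × ℕ => F q.1 = q.2 := f1
    have key : ∀ b ∈ indexSet {M | M ∈ Cls tlev tpar ∨ cpl M ∈ Cls tlev tpar},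
        ¬ Iso (Hold (F b)) A → Dl fun e =>
          e ∈ indexSet {M | M ∈ Cls tlev tpar ∨ cpl M ∈ Cls tlev tpar} ∧
            Iso (Hold e) (Hold b) := by
      intro b hb hn
      have d1 := (h2 _ (mem_indexSet.1 (f2 b hb)).2 hn).2
      refine (hK'.and (Dl.ex (f1'.and (d1.comp Computable.snd)))).of_eq fun e =>
        and_congr_right fun he => ?_
      have := f3 e he b hb
      simp only [mem_isoRel, he, hb, f2 e he, f2 b hb, true_and] at this
      simp [this, f2 e he]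
    have m1 : a ∈ indexSet {M | M ∈ Cls tlev tpar ∨ cpl M ∈ Cls tlev tpar} :=
      ⟨A, Or.inl hA, ha⟩
    have m2 : a' ∈ indexSet {M | M ∈ Cls tlev tpar ∨ cpl M ∈ Cls tlev tpar} :=
      ⟨cpl A, Or.inr (by rwa [cpl_cpl]), ha'⟩
    by_cases c1 : Iso (Hold (F a)) A
    · by_cases c2 : Iso (Hold (F a')) A
      · have := (f3 a m1 a' m2).2 (mem_isoRel.2 ⟨f2 a m1, f2 a' m2, c1.trans c2.symm⟩)
        obtain ⟨g, hg⟩ := (mem_isoRel.1 this).2.2
        simp only [← (codes_iff.1 ha).2, ← (codes_iff.1 ha').2] at hg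
        obtain ⟨-, S, rfl⟩ := hA
        have := hg (2 * 0 + 1) 0 1
        rw [cpl, Sys.rel_odd, Sys.rel_odd] at this
        simp at this
      · refine not_dl_class (K := {M | M ∈ Cls tlev tpar ∨ cpl M ∈ Cls tlev tpar})
          (A := cpl A) (X := fun i => cpl (X i)) h3.not
          (fun i => Or.inr (by rw [cpl_cpl]; exact h4 i)) (fun i => Iff.trans
            ⟨fun h => by simpa [cpl_cpl] using h.cpl, Iso.cpl⟩ (h5 i)) ?_
        rw [(codes_iff.1 ha').2]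
        exact key a' m2 c2
    · refine not_dl_class (K := {M | M ∈ Cls tlev tpar ∨ cpl M ∈ Cls tlev tpar}) (A := A) h3
        (fun i => Or.inl (h4 i)) h5 ?_
      rw [(codes_iff.1 ha).2]
      exact key a m1 c1

end Pool.Agent.MP_9125cf_lc
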