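import Pool.Agent.MP_9125cf_lc.Str

set_option autoImplicit false

namespace Pool.Agent.MP_9125cf_lc

open Classical

theorem mem_zip_iff {a b : List ℕ} (h : a.length = b.length) {u : ℕ × ℕ} :
    u ∈ a.zip b ↔ ∃ j < a.length, u = (a.getD j 0, b.getD j 0) := by
  rw [List.mem_iff_getElem]
  constructor
  · rintro ⟨j, hj, rfl⟩
    have h1 : j < a.length := by simp at hj; omega
    exact ⟨j, h1, by simp [List.getD_eq_getElem?_getD, h1, h ▸ h1]⟩
  · rintro ⟨j, hj, rfl⟩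
    exact ⟨j, by simp; omega, by simp [List.getD_eq_getElem?_getD, hj, h ▸ hj]⟩

theorem atEq_iff {M : Str} {a b : List ℕ} : AtEq M a b ↔ a.length = b.length ∧
    ∀ u ∈ a.zip b, ∀ v ∈ a.zip b, (u.1 = v.1 ↔ u.2 = v.2) ∧ ∀ i, M i u.1 v.1 ↔ M i u.2 v.2 := by
  refine and_congr_right fun h => ?_
  simp only [mem_zip_iff h]
  constructor
  · rintro H _ ⟨j, hj, rfl⟩ _ ⟨k, hk, rfl⟩
    exact H j k hj hk
  · intro H j k hj hk
    exact H _ ⟨j, hj, rfl⟩ _ ⟨k, hk, rfl⟩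

/-- The back-and-forth relations as predicates. -/
def BF4 (M : Str) (α : Ordinal.{0}) (a b : List ℕ) : Prop := (a, b) ∈ BF M α

theorem bf_iff {M : Str} {α : Ordinal.{0}} {a b : List ℕ} : BF4 M α a b ↔ AtEq M a b ∧ ∀ β, β < α →
    (∀ c : List ℕ, ∃ d : List ℕ, BF4 M β (a ++ c) (b ++ d)) ∧
    (∀ d : List ℕ, ∃ c : List ℕ, BF4 M β (a ++ c) (b ++ d)) := by
  unfold BF4
  rw [BF]
  rfl

theorem BF4.mono {M : Str} {α β : Ordinal.{0}} {a b : List ℕ} (h : BF4 M α a b) (hb : β ≤ α) :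
    BF4 M β a b :=
  bf_iff.2 ⟨(bf_iff.1 h).1, fun δ hδ => (bf_iff.1 h).2 δ (hδ.trans_le hb)⟩

theorem BF4.ext {M : Str} {α β : Ordinal.{0}} {a b : List ℕ} (h : BF4 M α a b) (hb : β < α)
    (c : List ℕ) : ∃ a' b', BF4 M β a' b' ∧ a.zip b ⊆ a'.zip b' ∧ c ⊆ a' := by
  obtain ⟨d, hd⟩ := ((bf_iff.1 h).2 β hb).1 c
  refine ⟨_, _, hd, ?_, by simp⟩
  rw [List.zip_append (bf_iff.1 h).1.1]
  simp

theorem AtEq.partner {M : Str} {a b : List ℕ} (h : AtEq M a b) {x : ℕ} (hx : x ∈ a) :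
    ∃ y, (x, y) ∈ a.zip b := by
  obtain ⟨j, hj, rfl⟩ := List.mem_iff_getElem.1 hx
  exact ⟨b.getD j 0, (mem_zip_iff h.1).2 ⟨j, hj, by simp [List.getD_eq_getElem?_getD, hj]⟩⟩

theorem eq_of_zip {a b : List ℕ} (h : a.length = b.length) {g : ℕ → ℕ}
    (H : ∀ u ∈ a.zip b, g u.1 = u.2) : a.map g = b := by
  refine List.ext_getElem (by simpa using h) fun j h1 h2 => ?_
  have := H _ ((mem_zip_iff h).2 ⟨j, h ▸ h2, rfl⟩)
  simpa [List.getD_eq_getElem?_getD, h2, h ▸ h2] using this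

namespace Sys

variable {lev par : ℕ → ℕ} {S : Sys lev par ℕ} {a b : List ℕ}

theorem at_lv (h : AtEq S.rel a b) {x y : ℕ} (hu : (x, y) ∈ a.zip b) : S.lv y = S.lv x :=
  ((S.rel_odd _ _ _).1 ((((atEq_iff.1 h).2 _ hu _ hu).2 (2 * S.lv x + 1)).1 (by simp))).2

theorem at_p (h : AtEq S.rel a b) {x y : ℕ} (hu : (x, y) ∈ a.zip b) (h0 : 0 < S.lv x)
    (hp : S.p x ∈ a) : (S.p x, S.p y) ∈ a.zip b := by
  obtain ⟨z, hz⟩ := h.partner hp
  have := ((S.rel_zero _ _).1 ((((atEq_iff.1 h).2 _ hu _ hz).2 0).1 (by simp [h0]))).2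
  simp only at this
  rwa [this]

theorem at_app (h : AtEq S.rel a b) {x y : ℕ} (hu : (x, y) ∈ a.zip b) {L : List ℕ}
    (hL : At lev (S.lv x) L) (hp : ∀ t, t <:+ L → S.app t x ∈ a) :
    (S.app L x, S.app L y) ∈ a.zip b := by
  induction L with
  | nil => exact hu
  | cons σ L ih =>
    have h1 := ih (hL.sub (by simp)) fun t ht => hp t (ht.trans (List.suffix_cons _ _))
    obtain ⟨z, hz⟩ := h.partner (hp _ (List.suffix_refl _))
    have := ((S.rel_even _ _ _).1 ((((atEq_iff.1 h).2 _ h1 _ hz).2 (2 * σ + 2)).1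
      (by simpa using hL σ (by simp)))).2
    simp only at this
    rwa [app_cons _ _ _ y, this]

theorem bf_deep (β : Ordinal.{0}) : ∀ {a b : List ℕ}, BF4 S.rel β a b → ∀ u ∈ a.zip b,
    Deep (S.Ch S) β u := by
  induction β using WellFoundedLT.induction with
  | ind β ih =>
    rintro a b h ⟨x, y⟩ hu
    refine deep_iff.2 fun δ hδ => ?_
    obtain ⟨x', hx'⟩ := S.ne (S.lv x + 1)
    obtain ⟨-, w2, w3⟩ := S.wd_spec (x := x) (y := S.p x') (S.lv_p _ _ hx').symm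
    obtain ⟨a', b', h1, h2, h3⟩ := h.ext hδ
      (x' :: (S.wd x (S.p x')).tails.map fun t => S.app t x)
    have e := (bf_iff.1 h1).1
    obtain ⟨y', hy'⟩ := e.partner (h3 List.mem_cons_self)
    have a1 := at_app e (h2 hu) w2 fun t ht => h3 (List.mem_cons_of_mem _
      (List.mem_map.2 ⟨t, (List.mem_tails _ _).2 ht, rfl⟩))
    rw [w3] at a1
    have a2 := at_p e hy' (by omega) (List.of_mem_zip a1).1
    exact ⟨(x', y'), ⟨hx', (at_lv e hy').trans hx', at_lv e (h2 hu), _, w2, w3,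
      ((atEq_iff.1 e).2 _ a1 _ a2).1.1 rfl⟩, ih δ hδ h1 _ hy'⟩

theorem ch_bound {S S' : Sys lev par ℕ} (hS : IsComp S.rel) (hS' : IsComp S'.rel)
    {Q : ℕ × ℕ → Prop} (hQ : ComputablePred Q)
    (h : ∀ c : ℕ → ℕ × ℕ, (∀ n, S.Ch S' (c (n + 1)) (c n)) → ¬ Q (c 0)) :
    ∃ γ, γ + 1 < omega1CK ∧ ∀ u, Q u → ¬ Deep (S.Ch S') γ u := by
  have h1 := hS.cp
  have h2 := hS'.cp
  let R : ((ℕ × ℕ × ℕ) × (ℕ × ℕ × ℕ)) × ℕ → Prop := fun z => z.1.1.1 ≠ 0 ∧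
    ((z.1.2.1 = 0 ∧ Q z.1.1.2) ∨ (z.1.2.1 ≠ 0 ∧ ChW S.rel S'.rel z.1.1.2 z.1.2.2
      (Denumerable.ofNat (ℕ × List ℕ × List ℕ × List ℕ) z.2).1
      (Denumerable.ofNat (ℕ × List ℕ × List ℕ × List ℕ) z.2).2.1
      (Denumerable.ofNat (ℕ × List ℕ × List ℕ × List ℕ) z.2).2.2.1
      (Denumerable.ofNat (ℕ × List ℕ × List ℕ × List ℕ) z.2).2.2.2))
  have hR : ComputablePred R := by
    simp only [R]
    unfold ChW Walk
    fun_prop
  have key : ∀ a b, (∃ k, R ((a, b), k)) ↔ a.1 ≠ 0 ∧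
      ((b.1 = 0 ∧ Q a.2) ∨ (b.1 ≠ 0 ∧ S.Ch S' a.2 b.2)) := by
    intro a b
    rw [ch_iff]
    constructor
    · rintro ⟨k, h1, h2⟩
      exact ⟨h1, h2.imp_right fun h => ⟨h.1, _, _, _, _, h.2⟩⟩
    · rintro ⟨h1, h2 | ⟨h2, n, L, P, P', h3⟩⟩
      · exact ⟨0, h1, Or.inl h2⟩
      · exact ⟨Encodable.encode (n, L, P, P'), h1, Or.inr ⟨h2, by
          simpa only [Denumerable.ofNat_encode] using h3⟩⟩
  obtain ⟨β, b1, b2⟩ := deep_bound hR (0, 0, 0) (by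
    rintro ⟨f, f0, hf⟩
    simp only [key] at hf
    refine h (fun n => (f (n + 1)).2) (fun n => ?_) ?_
    · exact (((hf (n + 1)).2.resolve_left fun h => (hf n).1 h.1)).2
    · exact ((hf 0).2.resolve_right fun h => h.1 (by rw [f0])).2)
  obtain ⟨c1, c2⟩ := rk_lt b2
  refine ⟨_, (Order.succ_le_of_lt c1).trans_lt b1, fun u hu hd => c2 (1, u) ((key _ _).2
    ⟨by simp, Or.inl ⟨rfl, hu⟩⟩) ?_⟩
  generalize rk _ _ = δ at hd
  clear hu
  induction δ using WellFoundedLT.induction generalizing u with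
  | ind δ ih =>
    refine deep_iff.2 fun ε hε => ?_
    obtain ⟨u', a1, a2⟩ := deep_iff.1 hd ε hε
    exact ⟨(1, u'), (key _ _).2 ⟨by simp, Or.inr ⟨by simp, a1⟩⟩, ih ε hε u' a2⟩

theorem sameOrbit_of_mor {g : ℕ → ℕ} (hg : Mor S S g) (h : a.map g = b) :
    SameOrbit S.rel a b := ⟨Equiv.ofBijective g hg.bij, hg.pres, h⟩

theorem omega_pos : 0 < omega1CK := by
  obtain ⟨β, h, -⟩ := deep_bound (γ := ℕ) (R := fun _ => False) (cp_const _) 0 (by simp)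
  exact zero_le.trans_lt h

theorem orbit_of_bf (hS : IsComp S.rel) (h : BF4 S.rel omega1CK a b) : SameOrbit S.rel a b := by
  have e0 := (bf_iff.1 h).1
  by_cases hne : a.zip b = []
  · exact sameOrbit_of_mor (g := id) ⟨fun _ => rfl, fun _ _ _ => rfl, fun _ _ => rfl⟩
      (eq_of_zip e0.1 (by simp [hne]))
  obtain ⟨⟨x, y⟩, hu, hm⟩ := (a.zip b).toFinset.exists_max_image (fun u => S.lv u.1)
    (by simpa using hne)
  simp only [List.mem_toFinset] at hu hm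
  have : ∃ c : ℕ → ℕ × ℕ, (∀ n, S.Ch S (c (n + 1)) (c n)) ∧ c 0 = (x, y) := by
    by_contra hc
    push Not at hc
    obtain ⟨γ, h1, h2⟩ := ch_bound hS hS (Q := fun u => u = (x, y)) (by fun_prop) hc
    exact h2 _ rfl ((bf_deep _ h _ hu).mono ((Order.le_succ γ).trans h1.le))
  obtain ⟨c, c1, c2⟩ := this
  obtain ⟨g, hg, g1⟩ := mor_of_chain S S c c1
  have g2 : g x = y := by simpa [c2] using g1 0
  refine sameOrbit_of_mor hg (eq_of_zip e0.1 ?_)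
  rintro ⟨x', y'⟩ hv
  obtain ⟨m, hm'⟩ : ∃ m, S.lv x = S.lv x' + m := ⟨_, (Nat.add_sub_cancel' (hm _ hv)).symm⟩
  have l1 := S.lv_iter m _ _ hm'
  obtain ⟨-, w2, w3⟩ := S.wd_spec (x := S.p^[m] x) (y := x') l1
  obtain ⟨a', b', h1, h2, h3⟩ := h.ext omega_pos (((List.range (m + 1)).map fun k => S.p^[k] x) ++
    (S.wd (S.p^[m] x) x').tails.map fun t => S.app t (S.p^[m] x))
  have e := (bf_iff.1 h1).1
  have a0 : ∀ k ≤ m, (S.p^[k] x, g (S.p^[k] x)) ∈ a'.zip b' := by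
    intro k
    induction k with
    | zero => intro _; simpa [g2] using h2 hu
    | succ k ih =>
      intro hk
      have l2 : 0 < S.lv (S.p^[k] x) := by
        rw [S.lv_iter k (S.lv x - k) x (by omega)]; omega
      rw [Function.iterate_succ_apply', hg.p _ l2]
      refine at_p e (ih (by omega)) l2 (h3 (List.mem_append_left _ (List.mem_map.2
        ⟨k + 1, by simp; omega, by rw [Function.iterate_succ_apply']⟩)))
  have a1 := at_app e (a0 m le_rfl) w2 fun t ht => h3 (List.mem_append_right _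
      (List.mem_map.2 ⟨t, (List.mem_tails _ _).2 ht, rfl⟩))
  rw [← hg.app w2, w3] at a1
  exact ((atEq_iff.1 e).2 _ a1 _ (h2 hv)).1.1 rfl

theorem rigid_bound (hS : IsComp S.rel) (ht : ¬ ∃ e, S.Thread e) :
    ∃ γ, γ + 1 < omega1CK ∧ ∀ x y, x ≠ y → ¬ Deep (S.Ch S) γ (x, y) := by
  obtain ⟨γ, h1, h2⟩ := ch_bound hS hS (Q := fun u => u.1 ≠ u.2) (by fun_prop) (by
    intro c hc hne
    obtain ⟨g, hg, g1⟩ := mor_of_chain S S c hc
    exact ht (hg.thread (x := (c 0).1) (by rw [g1]; exact hne.symm)))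
  exact ⟨γ, h1, fun x y h => h2 (x, y) h⟩

end Sys

theorem scottRank_le {M : Str} {γ : Ordinal.{0}} (h : ∀ a b, BF4 M γ a b → SameOrbit M a b) :
    scottRank M ≤ γ + 1 :=
  csInf_le' fun a => (csInf_le' (s := {β | ∀ b, BF4 M β a b → SameOrbit M a b}) (h a)).trans_lt
    (Order.lt_succ γ)

theorem lt_scottRank {M : Str} {γ α : Ordinal.{0}} (h : ∀ a b, BF4 M γ a b → SameOrbit M a b)
    {a b : List ℕ} (h1 : BF4 M α a b) (h2 : ¬ SameOrbit M a b) : α < scottRank M := by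
  have e1 : tupleRank M a < scottRank M := csInf_mem (s := {α | ∀ a, tupleRank M a < α})
    ⟨γ + 1, fun a => (csInf_le' (s := {β | ∀ b, BF4 M β a b → SameOrbit M a b}) (h a)).trans_lt
      (Order.lt_succ γ)⟩ a
  have e2 := csInf_mem (s := {β | ∀ b, BF4 M β a b → SameOrbit M a b}) ⟨γ, h a⟩
  refine lt_trans (not_le.1 fun h3 => h2 (e2 b (h1.mono h3))) e1

theorem Sys.low_rank {lev par : ℕ → ℕ} {S : Sys lev par ℕ} (hS : IsComp S.rel)
    (ht : ¬ ∃ e, S.Thread e) : scottRank S.rel < omega1CK := by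
  obtain ⟨γ, h1, h2⟩ := Sys.rigid_bound hS ht
  refine (scottRank_le fun a b h => ?_).trans_lt h1
  exact Sys.sameOrbit_of_mor (g := id) ⟨fun _ => rfl, fun _ _ _ => rfl, fun _ _ => rfl⟩
    (eq_of_zip (bf_iff.1 h).1.1 fun u hu => by_contra fun hne =>
      h2 u.1 u.2 hne (Sys.bf_deep _ h _ hu))

end Pool.Agent.MP_9125cf_lc
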