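import Pool.Agent.MP_9125cf_lc.Sys

set_option autoImplicit false

namespace Pool.Agent.MP_9125cf_lc

open Classical

theorem red_conj {v : List ℕ} (hv : Rd v) (hne : v ≠ []) (τ : ℕ) :
    (red (τ :: v ++ [τ])).head? = some τ ∨ (red (τ :: v ++ [τ])).getLast? = some τ ∨
      (v.head? = some τ ∧ v.getLast? = some τ ∧ (red (τ :: v ++ [τ])).length < v.length) := by
  rw [List.cons_append, red_cons]
  by_cases h : v.getLast? = some τ
  · obtain ⟨v0, rfl⟩ := List.getLast?_eq_some_iff.1 h
    have e : red (v0 ++ [τ] ++ [τ]) = v0 := by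
      have : red (v0 ++ [τ] ++ [τ]) = red v0 := by simp [red, List.foldr_append, act]
      rw [this, red_of_rd (List.IsChain.left_of_append hv)]
    rw [e, act]
    split_ifs with h1
    · obtain ⟨t, rfl⟩ := List.head?_eq_some_iff.1 h1
      right; right
      exact ⟨rfl, h, by simp⟩
    · simp
  · have : Rd (v ++ [τ]) := List.IsChain.append hv (List.isChain_singleton _) (by
      intro x hx y hy e
      simp only [List.head?_cons, Option.mem_def, Option.some.injEq] at hy
      exact h (by rw [hy, ← e]; exact hx))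
    rw [red_of_rd this, act]
    split_ifs with h1
    · obtain ⟨a, t, rfl⟩ := List.exists_cons_of_ne_nil hne
      right; left
      simp
    · simp

namespace Sys

variable {lev par : ℕ → ℕ} {α : Type} {S : Sys lev par α} {g : α → α}

/-- Points of minimal displacement. -/
def Min (S : Sys lev par α) (g : α → α) (x : α) : Prop :=
  ∀ y, S.lv y = S.lv x → (S.wd x (g x)).length ≤ (S.wd y (g y)).length

theorem Mor.wd_spec (hg : Mor S S g) (x : α) :
    Rd (S.wd x (g x)) ∧ At lev (S.lv x) (S.wd x (g x)) ∧ S.app (S.wd x (g x)) x = g x :=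
  S.wd_spec (hg.lv x).symm

theorem Mor.wd_conj (hg : Mor S S g) {x : α} {t : List ℕ} (ht : At lev (S.lv x) t) :
    S.wd (S.app t x) (g (S.app t x)) = red (t ++ S.wd x (g x) ++ t.reverse) := by
  obtain ⟨-, h2, h3⟩ := hg.wd_spec x
  rw [← S.wd_app (x := S.app t x) (by simpa using (ht.append h2).append ht.reverse),
    app_append, app_append, S.app_rev ht, h3, hg.app ht]

theorem Mor.wd_g (hg : Mor S S g) (x : α) : S.wd (g x) (g (g x)) = S.wd x (g x) := by
  obtain ⟨h1, h2, h3⟩ := hg.wd_spec x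
  have : g (g x) = S.app (S.wd x (g x)) (g x) := by rw [← hg.app h2, h3]
  rw [this, S.wd_app (by rw [hg.lv]; exact h2), red_of_rd h1]

theorem Mor.min_g (hg : Mor S S g) (x : α) : S.Min g (g x) ↔ S.Min g x := by
  simp only [Min, hg.wd_g, hg.lv]

theorem Mor.min_suffix (hg : Mor S S g) {x : α} (hx : S.Min g x) {t : List ℕ}
    (ht : t <:+ S.wd x (g x)) : S.Min g (S.app t x) := by
  obtain ⟨-, h2, h3⟩ := hg.wd_spec x
  obtain ⟨s, hs⟩ := ht
  have at' : At lev (S.lv x) t := h2.sub (by rw [← hs]; simp)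
  have as' : At lev (S.lv x) s := h2.sub (by rw [← hs]; simp)
  intro y hy
  refine le_trans ?_ (hx y (by simpa using hy))
  have : g (S.app t x) = S.app (t ++ s) (S.app t x) := by
    rw [hg.app at', ← h3, ← hs, app_append, app_append]
  rw [this, S.wd_app (by simpa using at'.append as'), ← hs]
  exact (length_red _).trans (by simp [add_comm])

theorem exists_min (S : Sys lev par α) (g : α → α) (n : ℕ) : ∃ x, S.lv x = n ∧ S.Min g x := by
  obtain ⟨x, hx, h⟩ := (measure fun x => (S.wd x (g x)).length).wf.has_min {x | S.lv x = n}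
    (S.ne n)
  exact ⟨x, hx, fun y hy => not_lt.1 (h y (hy.trans hx))⟩

theorem Mor.min_lift (hg : Mor S S g) {x : α} (hx : S.Min g x)
    (hf : ∀ y, S.lv y = S.lv x → g y ≠ y) :
    ∃ x', S.Min g x' ∧ S.lv x' = S.lv x + 1 ∧ S.p x' = x := by
  let C : α → Prop := fun z => ∃ x', S.Min g x' ∧ S.lv x' = S.lv x + 1 ∧ S.p x' = z
  have c1 : ∀ z, C (g z) → C z := by
    rintro z ⟨x', h1, h2, h3⟩
    obtain ⟨y, rfl⟩ := hg.bij.2 x'
    rw [hg.lv] at h2
    rw [← hg.p y (by omega)] at h3
    exact ⟨y, (hg.min_g y).1 h1, h2, hg.bij.1 h3⟩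
  have c2 : ∀ z t, C z → t <:+ S.wd z (g z) → C (S.app t z) := by
    rintro z t ⟨x', h1, h2, rfl⟩ ht
    obtain ⟨-, a2, a3⟩ := hg.wd_spec x'
    have l : S.lv (S.p x') = S.lv x := S.lv_p _ _ h2
    have a4 : At lev (S.lv (S.p x')) ((S.wd x' (g x')).map par) := by
      rw [l]; exact S.at_par (h2 ▸ a2)
    rw [hg.p _ (by omega), ← a3, S.p_app a2 (by omega), S.wd_app a4] at ht
    obtain ⟨t', b1, b2⟩ := S.suffix_red a4 ht
    obtain ⟨t'', b3, rfl⟩ := List.suffix_map_iff.1 b1
    exact ⟨S.app t'' x', hg.min_suffix h1 b3, by simpa using h2, by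
      rw [S.p_app (a2.sub b3.subset) (by omega), b2]⟩
  have c3 : ∀ z τ, lev τ = S.lv z → C z → ((S.wd z (g z)).head? = some τ ∨
      (S.wd z (g z)).getLast? = some τ) → C (S.f τ z) := by
    intro z τ hτ hz h
    rcases h with h | h
    · obtain ⟨s, hs⟩ := List.head?_eq_some_iff.1 h
      have := c2 z s hz (by rw [hs]; exact List.suffix_cons _ _)
      refine c1 _ ?_
      obtain ⟨-, -, a3⟩ := hg.wd_spec z
      rwa [hg.f _ _ hτ, ← a3, hs, app_cons, S.f_f _ _ (by simpa using hτ)]
    · obtain ⟨s, hs⟩ := List.getLast?_eq_some_iff.1 h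
      exact c2 z [τ] hz (by rw [hs]; exact List.suffix_append _ _)
  have nz : ∀ y, S.lv y = S.lv x → S.wd y (g y) ≠ [] := fun y hy e => by
    have := (hg.wd_spec y).2.2
    rw [e] at this
    exact hf y hy this.symm
  have P : ∀ u, Rd u → At lev (S.lv x) u → ∀ τ ∈ u.head?,
      (S.wd (S.app u x) (g (S.app u x))).head? = some τ ∨
      (S.wd (S.app u x) (g (S.app u x))).getLast? = some τ := by
    intro u
    induction u with
    | nil => simp
    | cons σ u ih =>
      intro h1 h2 τ hτ
      obtain rfl : σ = τ := by simpa using hτ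
      have e := hg.wd_conj (x := S.app u x) (t := [σ]) (by simpa [At] using h2 σ (by simp))
      simp only [app_cons, app_nil, List.reverse_singleton, List.singleton_append] at e ⊢
      rw [e]
      rcases red_conj (hg.wd_spec (S.app u x)).1 (nz _ (by simp)) σ with h | h | ⟨a, b, c⟩
      · exact Or.inl h
      · exact Or.inr h
      · exfalso
        cases u with
        | nil =>
          rw [← e] at c
          exact absurd (hx _ (by simp [S.lv_f])) (not_le.2 c)
        | cons ρ u =>
          have := ih (List.isChain_cons.1 h1).2 (h2.sub (by simp)) ρ rfl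
          rw [a, b] at this
          exact (List.isChain_cons.1 h1).1 ρ rfl (by simpa using this)
  have Q : ∀ u, Rd u → At lev (S.lv x) u → C (S.app u x) → C x := by
    intro u
    induction u with
    | nil => exact fun _ _ h => h
    | cons σ u ih =>
      intro h1 h2 h3
      have hσ : lev σ = S.lv x := h2 σ (by simp)
      have := c3 _ σ (by rw [lv_app]; exact hσ) h3 (P _ h1 h2 σ rfl)
      rw [app_cons, S.f_f _ _ (by simpa using hσ)] at this
      exact ih (List.isChain_cons.1 h1).2 (h2.sub (by simp)) this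
  obtain ⟨x', h1, h2⟩ := S.exists_min g (S.lv x + 1)
  obtain ⟨a1, a2, a3⟩ := S.wd_spec (x := x) (y := S.p x') (S.lv_p _ _ h1).symm
  exact Q _ a1 a2 ⟨x', h2, h1, a3.symm⟩

theorem Mor.no_fix (hg : Mor S S g) {x : α} (hx : g x ≠ x) (k : ℕ) :
    ∀ y, S.lv y = S.lv x + k → g y ≠ y := by
  induction k with
  | zero =>
    intro y hy e
    obtain ⟨-, a2, a3⟩ := S.wd_spec (x := y) (y := x) hy
    exact hx (by rw [← a3, hg.app a2, e])
  | succ k ih =>
    intro y hy e
    exact ih (S.p y) (S.lv_p _ _ hy) (by rw [hg.p y (by omega), e])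

theorem lv_iter (S : Sys lev par α) (k : ℕ) : ∀ n x, S.lv x = n + k → S.lv (S.p^[k] x) = n := by
  induction k with
  | zero => intro n x h; exact h
  | succ k ih => intro n x h; exact ih n _ (S.lv_p _ _ h)

theorem thread_of_seq (S : Sys lev par α) (m : ℕ) (c : ℕ → α) (h1 : ∀ n, S.lv (c n) = n + m)
    (h2 : ∀ n, S.p (c (n + 1)) = c n) : ∃ e, S.Thread e :=
  ⟨fun n => S.p^[m] (c n), fun n => ⟨S.lv_iter m n _ (h1 n), by
    simp only []
    rw [← h2 n, ← Function.iterate_succ_apply' S.p, Function.iterate_succ_apply]⟩⟩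

theorem Mor.thread (hg : Mor S S g) {x : α} (hx : g x ≠ x) : ∃ e, S.Thread e := by
  have step : ∀ y : {y // S.Min g y ∧ S.lv x ≤ S.lv y}, ∃ y' : {y // S.Min g y ∧ S.lv x ≤ S.lv y},
      S.lv y'.1 = S.lv y.1 + 1 ∧ S.p y'.1 = y.1 := by
    rintro ⟨y, h1, h2⟩
    obtain ⟨y', a1, a2, a3⟩ := hg.min_lift h1
      (fun z hz => hg.no_fix hx (S.lv y - S.lv x) z (by omega))
    exact ⟨⟨y', a1, by omega⟩, a2, a3⟩
  choose F hF using step
  obtain ⟨y, h1, h2⟩ := S.exists_min g (S.lv x)
  refine S.thread_of_seq (S.lv x) (fun n => (F^[n] ⟨y, h2, h1.ge⟩).1) (fun n => ?_) fun n => ?_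
  · induction n with
    | zero => simpa using h1
    | succ n ih => rw [Function.iterate_succ_apply', (hF _).1, ih]; omega
  · rw [Function.iterate_succ_apply', (hF _).2]

end Sys

end Pool.Agent.MP_9125cf_lc
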