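import Pool.Agent.MP_9125cf_lc.Defs

set_option autoImplicit false

namespace Pool.Agent.MP_9125cf_lc

open Classical

section CP
variable {α β : Type} [Primcodable α] [Primcodable β]

theorem cp_comp {p : β → Prop} (hp : ComputablePred p) {g : α → β} (hg : Computable g) :
    ComputablePred fun a => p (g a) :=
  Computable.computablePred (hp.decide.comp hg)

theorem cp_and {p q : α → Prop} (hp : ComputablePred p) (hq : ComputablePred q) :
    ComputablePred fun a => p a ∧ q a :=
  Computable.computablePred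
    ((Primrec.and.to_comp.comp hp.decide hq.decide).of_eq fun a => by simp)

theorem cp_or {p q : α → Prop} (hp : ComputablePred p) (hq : ComputablePred q) :
    ComputablePred fun a => p a ∨ q a :=
  Computable.computablePred
    ((Primrec.or.to_comp.comp hp.decide hq.decide).of_eq fun a => by simp)

theorem cp_imp {p q : α → Prop} (hp : ComputablePred p) (hq : ComputablePred q) :
    ComputablePred fun a => p a → q a :=
  (cp_or hp.not hq).of_eq fun a => by tauto

theorem cp_const (P : Prop) : ComputablePred fun _ : α => P :=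
  Computable.computablePred (Computable.const (decide P))

theorem cp_eq {f g : α → β} (hf : Computable f) (hg : Computable g) :
    ComputablePred fun a => f a = g a :=
  cp_comp (p := fun q : β × β => q.1 = q.2) (PrimrecPred.computablePred Primrec.eq)
    (hf.pair hg)

theorem cp_lt {f g : α → ℕ} (hf : Computable f) (hg : Computable g) :
    ComputablePred fun a => f a < g a :=
  cp_comp (p := fun q : ℕ × ℕ => q.1 < q.2) (PrimrecPred.computablePred Primrec.nat_lt)
    (hf.pair hg)

theorem cp_ball {R : α × ℕ → Prop} (hR : ComputablePred R) {n : α → ℕ} (hn : Computable n) :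
    ComputablePred fun a => ∀ j < n a, R (a, j) := by
  have h := Computable.nat_rec (f := n) (g := fun _ => true)
    (h := fun a (q : ℕ × Bool) => q.2 && decide (R (a, q.1))) hn (Computable.const true)
    (Primrec.and.to_comp.comp (Computable.snd.comp Computable.snd)
      (hR.decide.comp (Computable.fst.pair (Computable.fst.comp Computable.snd)))).to₂
  refine Computable.computablePred (h.of_eq fun a => ?_)
  generalize n a = m
  induction m with
  | zero => simp
  | succ m ih =>
    simp only [ih]
    rw [Bool.eq_iff_iff]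
    simp only [Bool.and_eq_true, decide_eq_true_eq]
    constructor
    · rintro ⟨h1, h2⟩ j hj
      rcases Nat.lt_succ_iff_lt_or_eq.1 hj with h | h
      · exact h1 j h
      · exact h ▸ h2
    · intro h1
      exact ⟨fun j hj => h1 j (by omega), h1 m (by omega)⟩

theorem cp_bex {R : α × ℕ → Prop} (hR : ComputablePred R) {n : α → ℕ} (hn : Computable n) :
    ComputablePred fun a => ∃ j < n a, R (a, j) :=
  (cp_ball hR.not hn).not.of_eq fun a => by simp

theorem c_ite {σ : Type} [Primcodable σ] {p : α → Prop} (hp : ComputablePred p) {f g : α → σ}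
    (hf : Computable f) (hg : Computable g) : Computable fun a => if p a then f a else g a :=
  (hp.decide.cond hf hg).of_eq fun a => by by_cases h : p a <;> simp [h]

end CP

/-- Predicate version. -/
def Sg {α : Type} [Primcodable α] (P : α → Prop) : Prop := Sigma11 {a | P a}

/-- Predicate version. -/
def Dl {α : Type} [Primcodable α] (P : α → Prop) : Prop := Sg P ∧ Sg fun a => ¬ P a

section Sg
variable {α β : Type} [Primcodable α] [Primcodable β]

theorem Sg.of_eq {P Q : α → Prop} (h : Sg P) (H : ∀ a, P a ↔ Q a) : Sg Q :=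
  (funext fun a => propext (H a) : P = Q) ▸ h

theorem Sg.comp {P : β → Prop} (h : Sg P) {g : α → β} (hg : Computable g) :
    Sg fun a => P (g a) := by
  obtain ⟨R, hR, H⟩ := h
  exact ⟨fun q => R (g q.1, q.2),
    cp_comp hR ((hg.comp Computable.fst).pair Computable.snd), fun a => H (g a)⟩

theorem Sg.of_cp {P : α → Prop} (h : ComputablePred P) : Sg P :=
  ⟨fun q => P q.1, cp_comp h Computable.fst, fun a => by simp⟩

theorem Sg.ex_nat {P : α × ℕ → Prop} (h : Sg P) : Sg fun a => ∃ x, P (a, x) := by
  obtain ⟨R, hR, H⟩ := h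
  refine ⟨fun q => q.2 = [] ∨ R ((q.1, q.2.headI), q.2.tail), ?_, fun a => ?_⟩
  · refine cp_or (cp_eq Computable.snd (Computable.const _)) (cp_comp hR ?_)
    exact (Computable.fst.pair (Primrec.list_headI.to_comp.comp Computable.snd)).pair
      (Primrec.list_tail.to_comp.comp Computable.snd)
  · simp only [Set.mem_ofPred_eq] at H ⊢
    constructor
    · rintro ⟨x, hx⟩
      obtain ⟨f, hf⟩ := (H _).1 hx
      refine ⟨fun n => Nat.casesOn n x f, fun n => ?_⟩
      cases n with
      | zero => simp
      | succ n =>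
        right
        rw [List.range_succ_eq_map]
        simpa [Function.comp_def] using hf n
    · rintro ⟨f, hf⟩
      refine ⟨f 0, (H _).2 ⟨fun n => f (n + 1), fun n => ?_⟩⟩
      have := hf (n + 1)
      rw [List.range_succ_eq_map] at this
      simpa [Function.comp_def] using this

theorem map_getD_range (F : ℕ → ℕ) (u : ℕ → ℕ) (m N : ℕ) (h : ∀ j < m, u j < N) :
    (List.range m).map (fun j => ((List.range N).map F).getD (u j) 0)
      = (List.range m).map fun j => F (u j) := by
  refine List.map_congr_left fun j hj => ?_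
  have := h j (List.mem_range.1 hj)
  simp [List.getD_eq_getElem?_getD, this]

theorem c_sub {n : α → ℕ} {u : α × ℕ → ℕ} {s : α → List ℕ} (hn : Primrec n) (hu : Primrec u)
    (hs : Primrec s) : Primrec fun a => (List.range (n a)).map fun j => (s a).getD (u (a, j)) 0 :=
  Primrec.list_map (Primrec.list_range.comp hn)
    ((Primrec.list_getD 0).comp (hs.comp Primrec.fst) hu).to₂

theorem Sg.all_nat {P : α × ℕ → Prop} (h : Sg P) : Sg fun a => ∀ x, P (a, x) := by
  obtain ⟨R, hR, H⟩ := h
  refine ⟨fun q => R ((q.1, q.2.length.unpair.1), (List.range q.2.length.unpair.2).map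
    fun j => q.2.getD (Nat.pair q.2.length.unpair.1 j) 0), ?_, fun a => ?_⟩
  · have h1 : Primrec fun q : α × List ℕ => q.2.length.unpair :=
      Primrec.unpair.comp (Primrec.list_length.comp Primrec.snd)
    have h2' := Primrec₂.natPair.comp ((Primrec.fst.comp h1).comp
      (Primrec.fst (α := α × List ℕ) (β := ℕ))) Primrec.snd
    have h2 : Primrec fun z : (α × List ℕ) × ℕ => Nat.pair z.1.2.length.unpair.1 z.2 := h2'
    refine cp_comp hR (Primrec.to_comp ?_)
    exact (Primrec.fst.pair (Primrec.fst.comp h1)).pair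
      (c_sub (u := fun z => Nat.pair z.1.2.length.unpair.1 z.2) (Primrec.snd.comp h1)
        h2 Primrec.snd)
  · simp only [Set.mem_ofPred_eq, List.length_map, List.length_range] at H ⊢
    have key : ∀ (F : ℕ → ℕ) (N : ℕ), (List.range N.unpair.2).map
        (fun j => ((List.range N).map F).getD (Nat.pair N.unpair.1 j) 0)
        = (List.range N.unpair.2).map fun j => F (Nat.pair N.unpair.1 j) := by
      intro F N
      refine map_getD_range F _ _ _ fun j hj => ?_
      conv_rhs => rw [← Nat.pair_unpair N]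
      exact Nat.pair_lt_pair_right _ hj
    constructor
    · intro hx
      choose f hf using fun x => (H _).1 (hx x)
      refine ⟨fun t => f t.unpair.1 t.unpair.2, fun N => ?_⟩
      rw [key]
      simpa using hf N.unpair.1 N.unpair.2
    · rintro ⟨F, hF⟩ x
      refine (H _).2 ⟨fun j => F (Nat.pair x j), fun m => ?_⟩
      have := hF (Nat.pair x m)
      rw [key] at this
      simpa using this

theorem Sg.ite {P Q : α → Prop} (hP : Sg P) (hQ : Sg Q) :
    Sg fun z : α × ℕ => (z.2 = 0 ∧ P z.1) ∨ (z.2 ≠ 0 ∧ Q z.1) := by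
  obtain ⟨R, hR, H⟩ := hP
  obtain ⟨R', hR', H'⟩ := hQ
  have e0 : ComputablePred fun q : (α × ℕ) × List ℕ => q.1.2 = 0 :=
    cp_eq (Computable.snd.comp Computable.fst) (Computable.const 0)
  have e1 : Computable fun q : (α × ℕ) × List ℕ => (q.1.1, q.2) :=
    (Computable.fst.comp Computable.fst).pair Computable.snd
  refine ⟨fun q => (q.1.2 = 0 ∧ R (q.1.1, q.2)) ∨ (q.1.2 ≠ 0 ∧ R' (q.1.1, q.2)),
    cp_or (cp_and e0 (cp_comp hR e1)) (cp_and e0.not (cp_comp hR' e1)), fun z => ?_⟩
  simp only [Set.mem_ofPred_eq] at H H' ⊢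
  by_cases h : z.2 = 0
  · simp [h, H]
  · simp [h, H']

theorem Sg.and {P Q : α → Prop} (hP : Sg P) (hQ : Sg Q) : Sg fun a => P a ∧ Q a :=
  (hP.ite hQ).all_nat.of_eq fun a =>
    ⟨fun h => ⟨by simpa using h 0, by simpa using h 1⟩, fun h x => by
      by_cases hx : x = 0 <;> simp [hx, h]⟩

theorem Sg.or {P Q : α → Prop} (hP : Sg P) (hQ : Sg Q) : Sg fun a => P a ∨ Q a :=
  (hP.ite hQ).ex_nat.of_eq fun a =>
    ⟨fun ⟨_, h⟩ => h.imp And.right And.right, fun h => by
      rcases h with h | h
      · exact ⟨0, by simp [h]⟩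
      · exact ⟨1, by simp [h]⟩⟩

theorem Sg.ex {γ : Type} [Denumerable γ] {P : α × γ → Prop} (h : Sg P) :
    Sg fun a => ∃ x, P (a, x) :=
  (h.comp (g := fun z : α × ℕ => (z.1, Denumerable.ofNat γ z.2))
    (Computable.fst.pair ((Computable.ofNat γ).comp Computable.snd))).ex_nat.of_eq fun a =>
    ⟨fun ⟨_, h⟩ => ⟨_, h⟩, fun ⟨x, h⟩ => ⟨Encodable.encode x, by simpa using h⟩⟩

theorem Sg.all {γ : Type} [Denumerable γ] {P : α × γ → Prop} (h : Sg P) :
    Sg fun a => ∀ x, P (a, x) :=
  (h.comp (g := fun z : α × ℕ => (z.1, Denumerable.ofNat γ z.2))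
    (Computable.fst.pair ((Computable.ofNat γ).comp Computable.snd))).all_nat.of_eq fun a =>
    ⟨fun h x => by simpa using h (Encodable.encode x), fun h _ => h _⟩

theorem Sg.ex_fun {P : α × List ℕ → Prop} (h : Sg P) :
    Sg fun a => ∃ g : ℕ → ℕ, ∀ n, P (a, (List.range n).map g) := by
  obtain ⟨R, hR, H⟩ := h
  refine ⟨fun q => q.2.length.unpair.1 = 0 ∨
    R ((q.1, (List.range (q.2.length.unpair.1 - 1)).map fun j => q.2.getD (Nat.pair 0 j) 0),
      (List.range q.2.length.unpair.2).map
        fun j => q.2.getD (Nat.pair q.2.length.unpair.1 j) 0), ?_, fun a => ?_⟩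
  · have h1 : Primrec fun q : α × List ℕ => q.2.length.unpair :=
      Primrec.unpair.comp (Primrec.list_length.comp Primrec.snd)
    have h2' := Primrec₂.natPair.comp ((Primrec.fst.comp h1).comp
      (Primrec.fst (α := α × List ℕ) (β := ℕ))) Primrec.snd
    have h2 : Primrec fun z : (α × List ℕ) × ℕ => Nat.pair z.1.2.length.unpair.1 z.2 := h2'
    refine cp_or (cp_eq (Primrec.fst.comp h1).to_comp (Computable.const 0))
      (cp_comp hR (Primrec.to_comp ?_))
    exact (Primrec.fst.pair (c_sub (u := fun z => Nat.pair 0 z.2)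
        (Primrec.nat_sub.comp (Primrec.fst.comp h1) (Primrec.const 1))
        (Primrec₂.natPair.comp (Primrec.const 0) Primrec.snd) Primrec.snd)).pair
      (c_sub (u := fun z => Nat.pair z.1.2.length.unpair.1 z.2) (Primrec.snd.comp h1)
        h2 Primrec.snd)
  · simp only [Set.mem_ofPred_eq, List.length_map, List.length_range] at H ⊢
    have key : ∀ (F : ℕ → ℕ) (N : ℕ), (List.range N.unpair.2).map
        (fun j => ((List.range N).map F).getD (Nat.pair N.unpair.1 j) 0)
        = (List.range N.unpair.2).map fun j => F (Nat.pair N.unpair.1 j) := by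
      intro F N
      refine map_getD_range F _ _ _ fun j hj => ?_
      conv_rhs => rw [← Nat.pair_unpair N]
      exact Nat.pair_lt_pair_right _ hj
    have key2 : ∀ (F : ℕ → ℕ) (N : ℕ), (List.range (N.unpair.1 - 1)).map
        (fun j => ((List.range N).map F).getD (Nat.pair 0 j) 0)
        = (List.range (N.unpair.1 - 1)).map fun j => F (Nat.pair 0 j) := by
      intro F N
      refine map_getD_range F _ _ _ fun j hj => ?_
      conv_rhs => rw [← Nat.pair_unpair N]
      generalize N.unpair.1 = u at hj
      generalize N.unpair.2 = v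
      have h1 : Nat.pair 0 j ≤ j * j := by
        unfold Nat.pair; split_ifs <;> simp_all
      have h2 : u * u ≤ Nat.pair u v := by
        unfold Nat.pair; split_ifs with h
        · nlinarith
        · omega
      have h3 : j * j < u * u := Nat.mul_self_lt_mul_self (by omega)
      omega
    constructor
    · rintro ⟨g, hg⟩
      choose f hf using fun n => (H _).1 (hg n)
      refine ⟨fun t => if t.unpair.1 = 0 then g t.unpair.2 else f (t.unpair.1 - 1) t.unpair.2,
        fun N => ?_⟩
      by_cases h0 : N.unpair.1 = 0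
      · exact Or.inl h0
      · right
        rw [key, key2]
        simpa [h0] using hf (N.unpair.1 - 1) N.unpair.2
    · rintro ⟨F, hF⟩
      refine ⟨fun j => F (Nat.pair 0 j), fun n => (H _).2 ⟨fun j => F (Nat.pair (n + 1) j),
        fun m => ?_⟩⟩
      have := hF (Nat.pair (n + 1) m)
      rw [key, key2] at this
      simpa using this

theorem Dl.of_eq {P Q : α → Prop} (h : Dl P) (H : ∀ a, P a ↔ Q a) : Dl Q :=
  (funext fun a => propext (H a) : P = Q) ▸ h

theorem Dl.comp {P : β → Prop} (h : Dl P) {g : α → β} (hg : Computable g) :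
    Dl fun a => P (g a) := ⟨h.1.comp hg, h.2.comp hg⟩

theorem Dl.of_cp {P : α → Prop} (h : ComputablePred P) : Dl P := ⟨.of_cp h, .of_cp h.not⟩

theorem Dl.not {P : α → Prop} (h : Dl P) : Dl fun a => ¬ P a :=
  ⟨h.2, h.1.of_eq fun a => by simp⟩

theorem Dl.and {P Q : α → Prop} (hP : Dl P) (hQ : Dl Q) : Dl fun a => P a ∧ Q a :=
  ⟨hP.1.and hQ.1, (hP.2.or hQ.2).of_eq fun a => by tauto⟩

theorem Dl.or {P Q : α → Prop} (hP : Dl P) (hQ : Dl Q) : Dl fun a => P a ∨ Q a :=
  ⟨hP.1.or hQ.1, (hP.2.and hQ.2).of_eq fun a => by tauto⟩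

theorem Dl.imp {P Q : α → Prop} (hP : Dl P) (hQ : Dl Q) : Dl fun a => P a → Q a :=
  (hP.not.or hQ).of_eq fun a => by tauto

theorem Dl.iff {P Q : α → Prop} (hP : Dl P) (hQ : Dl Q) : Dl fun a => P a ↔ Q a :=
  ((hP.imp hQ).and (hQ.imp hP)).of_eq fun a => by tauto

theorem Dl.ex {γ : Type} [Denumerable γ] {P : α × γ → Prop} (h : Dl P) :
    Dl fun a => ∃ x, P (a, x) :=
  ⟨h.1.ex, h.2.all.of_eq fun a => by simp⟩

theorem Dl.all {γ : Type} [Denumerable γ] {P : α × γ → Prop} (h : Dl P) :
    Dl fun a => ∀ x, P (a, x) :=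
  ⟨h.1.all, h.2.ex.of_eq fun a => by simp⟩

theorem delta11_iff (S : Set α) : Delta11 S ↔ Dl fun a => a ∈ S := Iff.rfl

end Sg

end Pool.Agent.MP_9125cf_lc
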