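import Pool.Agent.MP_9125cf_lc.Code
import Pool.Agent.MP_9125cf_lc.Rigid

set_option autoImplicit false

namespace Pool.Agent.MP_9125cf_lc

open Classical

theorem sym_cases (i : ℕ) : i = 0 ∨ (∃ n, i = 2 * n + 1) ∨ ∃ σ, i = 2 * σ + 2 := by
  rcases Nat.even_or_odd' i with ⟨k, h | h⟩
  · cases k with
    | zero => exact Or.inl h
    | succ k => exact Or.inr (Or.inr ⟨k, h⟩)
  · exact Or.inr (Or.inl ⟨k, h⟩)

/-- `P` lists the points visited when the word `L` is applied. -/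
def Walk (M : Str) (L P : List ℕ) : Prop :=
  Ball L.length fun j => M (2 * L.getD j 0 + 2) (P.getD (j + 1) 0) (P.getD j 0)

theorem walk_cons {M : Str} {σ : ℕ} {L P : List ℕ} : Walk M (σ :: L) P ↔
    M (2 * σ + 2) (P.getD 1 0) (P.getD 0 0) ∧ Walk M L P.tail := by
  unfold Walk Ball
  rw [List.length_cons, Nat.forall_lt_succ_left]
  cases P <;> simp

theorem getD_tail (P : List ℕ) (j : ℕ) : P.tail.getD j 0 = P.getD (j + 1) 0 := by
  cases P <;> simp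

namespace Sys

variable {lev par : ℕ → ℕ} {α β : Type} (S : Sys lev par α) (S' : Sys lev par β)

/-- The relations of the structure attached to a system. -/
def rel (i : ℕ) (x y : α) : Prop :=
  (i = 0 ∧ 0 < S.lv x ∧ S.p x = y) ∨ (i % 2 = 1 ∧ x = y ∧ S.lv x = i / 2) ∨
    (i ≠ 0 ∧ i % 2 = 0 ∧ lev (i / 2 - 1) = S.lv x ∧ S.f (i / 2 - 1) x = y)

@[simp] theorem rel_zero (x y : α) : S.rel 0 x y ↔ 0 < S.lv x ∧ S.p x = y := by simp [rel]

@[simp] theorem rel_odd (n : ℕ) (x y : α) : S.rel (2 * n + 1) x y ↔ x = y ∧ S.lv x = n := by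
  have h1 : (2 * n + 1) % 2 = 1 := by omega
  have h2 : (2 * n + 1) / 2 = n := by omega
  simp [rel, h1, h2]

@[simp] theorem rel_even (σ : ℕ) (x y : α) :
    S.rel (2 * σ + 2) x y ↔ lev σ = S.lv x ∧ S.f σ x = y := by
  have h1 : (2 * σ + 2) % 2 = 0 := by omega
  have h2 : (2 * σ + 2) / 2 - 1 = σ := by omega
  simp only [rel, h1, h2]
  simp

variable {S S'}

theorem mor_of_pres {g : α → β} (h : ∀ i x y, S.rel i x y → S'.rel i (g x) (g y)) :
    Mor S S' g :=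
  ⟨fun x => ((S'.rel_odd _ _ _).1 (h (2 * S.lv x + 1) x x (by simp))).2,
    fun σ x hx => ((S'.rel_even _ _ _).1 (h (2 * σ + 2) x _ (by simp [hx]))).2.symm,
    fun x hx => ((S'.rel_zero _ _).1 (h 0 x _ (by simp [hx]))).2.symm⟩

theorem Mor.pres {g : α → β} (h : Mor S S' g) (i : ℕ) (x y : α) :
    S.rel i x y ↔ S'.rel i (g x) (g y) := by
  rcases sym_cases i with rfl | ⟨n, rfl⟩ | ⟨σ, rfl⟩
  · simp only [rel_zero, h.lv]
    exact and_congr_right fun hx => by rw [← h.p x hx, h.bij.1.eq_iff]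
  · simp only [rel_odd, h.lv, h.bij.1.eq_iff]
  · simp only [rel_even, h.lv]
    exact and_congr_right fun hx => by rw [← h.f σ x hx, h.bij.1.eq_iff]

theorem iso_iff {S S' : Sys lev par ℕ} : Iso S.rel S'.rel ↔ ∃ g, Mor S S' g :=
  ⟨fun ⟨g, hg⟩ => ⟨g, mor_of_pres fun i x y => (hg i x y).1⟩,
    fun ⟨g, hg⟩ => ⟨Equiv.ofBijective g hg.bij, hg.pres⟩⟩

theorem Mor.thread_map {g : α → β} (h : Mor S S' g) {e : ℕ → α} (he : S.Thread e) :
    S'.Thread fun n => g (e n) := fun n =>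
  ⟨by rw [h.lv, (he n).1], by rw [← h.p _ (by rw [(he _).1]; omega), (he n).2]⟩

/-- Transport of a system along a bijection. -/
def map (S : Sys lev par α) (e : α ≃ β) : Sys lev par β where
  lv y := S.lv (e.symm y)
  f σ y := e (S.f σ (e.symm y))
  p y := e (S.p (e.symm y))
  lev_par := S.lev_par
  lv_f σ x := by simp [S.lv_f]
  f_f σ x h := by simp [S.f_f _ _ h]
  lv_p x n h := by simp [S.lv_p _ _ h]
  p_f σ x h h' := by simp [S.p_f _ _ h h']
  ne n := (S.ne n).elim fun x h => ⟨e x, by simpa using h⟩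
  conn x y h := (S.conn _ _ h).imp fun L hL => ⟨hL.1, by
    have : ∀ L : List ℕ, L.foldr (fun σ y => e (S.f σ (e.symm y))) x
        = e (L.foldr S.f (e.symm x)) := fun L => by
      induction L with
      | nil => simp
      | cons σ L ih => simp [ih]
    rw [this, hL.2, Equiv.apply_symm_apply]⟩
  free x L h1 h2 h3 := S.free (e.symm x) L h1 h2 (by
    have : ∀ L : List ℕ, L.foldr (fun σ y => e (S.f σ (e.symm y))) x
        = e (L.foldr S.f (e.symm x)) := fun L => by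
      induction L with
      | nil => simp
      | cons σ L ih => simp [ih]
    rw [this] at h3
    exact e.eq_symm_apply.2 h3)

theorem mor_map (S : Sys lev par α) (e : α ≃ β) : Mor S (S.map e) e :=
  ⟨fun x => by simp [map], fun σ x _ => by simp [map], fun x _ => by simp [map]⟩

theorem mor_map' (S : Sys lev par α) (e : α ≃ β) : Mor (S.map e) S e.symm :=
  ⟨fun x => by simp [map], fun σ x _ => by simp [map], fun x _ => by simp [map]⟩

theorem exists_of_iso {S : Sys lev par ℕ} {N : Str} (h : Iso S.rel N) :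
    ∃ S' : Sys lev par ℕ, N = S'.rel := by
  obtain ⟨g, hg⟩ := h
  refine ⟨S.map g, ?_⟩
  funext i x y
  rw [(S.mor_map' g).pres, hg]
  simp

theorem walk_spec {S : Sys lev par ℕ} {L P : List ℕ} (h : Walk S.rel L P) :
    At lev (S.lv (P.getD L.length 0)) L ∧ S.app L (P.getD L.length 0) = P.getD 0 0 := by
  induction L generalizing P with
  | nil => simp [At]
  | cons σ L ih =>
    obtain ⟨h1, h2⟩ := walk_cons.1 h
    obtain ⟨h3, h4⟩ := ih h2
    rw [getD_tail, getD_tail] at h4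
    rw [getD_tail] at h3
    rw [rel_even, ← zero_add 1, ← h4, lv_app] at h1
    refine ⟨fun τ hτ => ?_, h1.2⟩
    rcases List.mem_cons.1 hτ with rfl | h
    · exact h1.1
    · exact h3 τ h

theorem exists_walk {S : Sys lev par ℕ} {L : List ℕ} {x : ℕ} (h : At lev (S.lv x) L) :
    ∃ P, Walk S.rel L P ∧ P.getD L.length 0 = x ∧ P.getD 0 0 = S.app L x := by
  induction L with
  | nil => exact ⟨[x], fun j hj => by simp at hj, rfl, rfl⟩
  | cons σ L ih =>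
    obtain ⟨P, h1, h2, h3⟩ := ih (h.sub (by simp))
    refine ⟨S.app (σ :: L) x :: P, walk_cons.2 ⟨?_, h1⟩, h2, rfl⟩
    simp only [List.getD_cons_succ, List.getD_cons_zero, h3, rel_even, lv_app, app_cons, and_true]
    exact h σ (by simp)

end Sys

/-- Reduced words, by indices. -/
def RdI (L : List ℕ) : Prop := ∀ j, j + 1 < L.length → L.getD j 0 ≠ L.getD (j + 1) 0

theorem rdI_iff {L : List ℕ} : RdI L ↔ Rd L := by
  unfold RdI Rd
  rw [List.isChain_iff_getElem]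
  refine forall_congr' fun j => ⟨fun h hj => ?_, fun h hj => ?_⟩
  · simpa [List.getD_eq_getElem?_getD, hj, show j < L.length by omega] using h hj
  · simpa [List.getD_eq_getElem?_getD, hj, show j < L.length by omega] using h hj

/-- The axioms for systems. -/
def Ax (lev par : ℕ → ℕ) (M : Str) : Prop :=
  (∀ σ n, lev σ = n + 1 → lev (par σ) = n) ∧
  (∀ x, ∃ n, M (2 * n + 1) x x) ∧
  (∀ n x y, M (2 * n + 1) x y → x = y ∧ ∀ m, M (2 * m + 1) x x → m = n) ∧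
  (∀ σ x, M (2 * lev σ + 1) x x → ∃ y, M (2 * σ + 2) x y) ∧
  (∀ σ x y, M (2 * σ + 2) x y →
    M (2 * lev σ + 1) x x ∧ M (2 * σ + 2) y x ∧ ∀ z, M (2 * σ + 2) x z → z = y) ∧
  (∀ n x, M (2 * (n + 1) + 1) x x → ∃ y, M 0 x y ∧ M (2 * n + 1) y y) ∧
  (∀ x y, M 0 x y → ¬ M (2 * 0 + 1) x x ∧ ∀ z, M 0 x z → z = y) ∧
  (∀ σ x y x' y', M (2 * σ + 2) x y → M 0 x x' → M 0 y y' → M (2 * par σ + 2) x' y') ∧
  (∀ n, ∃ x, M (2 * n + 1) x x) ∧
  (∀ n x y, M (2 * n + 1) x x → M (2 * n + 1) y y →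
    ∃ L P : List ℕ, Walk M L P ∧ P.getD L.length 0 = x ∧ P.getD 0 0 = y) ∧
  (∀ L P : List ℕ, Walk M L P → RdI L → P.getD L.length 0 = P.getD 0 0 → L = [])

theorem d_ax {α : Type} [Primcodable α] {lev par : ℕ → ℕ} (hl : Computable lev)
    (hp : Computable par) {M : α → Str}
    (hM : Dl fun z : α × ℕ × ℕ × ℕ => M z.1 z.2.1 z.2.2.1 z.2.2.2) :
    Dl fun a => Ax lev par (M a) := by
  unfold Ax Walk Ball RdI
  fun_prop

theorem ax_rel {lev par : ℕ → ℕ} (S : Sys lev par ℕ) : Ax lev par S.rel := by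
  refine ⟨S.lev_par, ?_, ?_, ?_, ?_, ?_, ?_, ?_, ?_, ?_, ?_⟩
  · simp
  · simp +contextual
  · simp +contextual
  · simp only [Sys.rel_even, Sys.rel_odd]
    rintro σ x y ⟨h, rfl⟩
    simp [h, S.lv_f, S.f_f _ _ h]
  · simp only [Sys.rel_zero, Sys.rel_odd]
    rintro n x ⟨-, h⟩
    simp [h, S.lv_p _ _ h]
  · simp only [Sys.rel_zero, Sys.rel_odd]
    rintro x y ⟨h, rfl⟩
    simp [h.ne']
  · simp only [Sys.rel_zero, Sys.rel_even]
    rintro σ x y x' y' ⟨h, rfl⟩ ⟨h1, rfl⟩ ⟨-, rfl⟩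
    obtain ⟨n, hn⟩ : ∃ n, S.lv x = n + 1 := ⟨S.lv x - 1, by omega⟩
    exact ⟨by rw [S.lv_p _ _ hn, S.lev_par _ _ (h.trans hn)], (S.p_f _ _ h h1).symm⟩
  · simpa using S.ne
  · simp only [Sys.rel_odd]
    rintro n x y ⟨-, h1⟩ ⟨-, h2⟩
    obtain ⟨L, h3, h4⟩ := S.conn x y (h1.trans h2.symm)
    obtain ⟨P, a1, a2, a3⟩ := Sys.exists_walk (S := S) h3
    exact ⟨L, P, a1, a2, a3.trans h4⟩
  · intro L P h1 h2 h3
    obtain ⟨a1, a2⟩ := Sys.walk_spec h1
    exact S.free _ L a1 (rdI_iff.1 h2) (a2.trans h3.symm)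

theorem Ax.exists_sys {lev par : ℕ → ℕ} {M : Str} (h : Ax lev par M) :
    ∃ S : Sys lev par ℕ, M = S.rel := by
  obtain ⟨h0, h1, h2, h3, h4, h5, h6, h7, h8, h9, h10⟩ := h
  choose lv hlv using h1
  have lvi : ∀ n x, M (2 * n + 1) x x ↔ lv x = n := fun n x =>
    ⟨fun h => (h2 n x x h).2 _ (hlv x), fun h => h ▸ hlv x⟩
  have ef : ∀ σ x, ∃ y, (lev σ = lv x → M (2 * σ + 2) x y) ∧ (lev σ ≠ lv x → y = x) := by
    intro σ x
    by_cases h : lev σ = lv x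
    · obtain ⟨y, hy⟩ := h3 σ x ((lvi _ _).2 h.symm)
      exact ⟨y, fun _ => hy, fun h' => absurd h h'⟩
    · exact ⟨x, fun h' => absurd h' h, fun _ => rfl⟩
  choose f hf hf' using ef
  have fi : ∀ σ x y, M (2 * σ + 2) x y ↔ lev σ = lv x ∧ f σ x = y := fun σ x y =>
    ⟨fun h => by
      have := ((lvi _ _).1 (h4 σ x y h).1).symm
      exact ⟨this, (h4 σ x y h).2.2 _ (hf σ x this)⟩, fun h => h.2 ▸ hf σ x h.1⟩
  have ep : ∀ x, ∃ y, ∀ n, lv x = n + 1 → M 0 x y ∧ lv y = n := by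
    intro x
    rcases hx : lv x with _ | n
    · exact ⟨x, by simp⟩
    · obtain ⟨y, a1, a2⟩ := h5 n x ((lvi _ _).2 hx)
      exact ⟨y, fun m hm => ⟨a1, by rw [(lvi _ _).1 a2]; omega⟩⟩
  choose p hp using ep
  have pi : ∀ x y, M 0 x y ↔ 0 < lv x ∧ p x = y := fun x y =>
    ⟨fun h => by
      have : lv x ≠ 0 := fun e => (h6 x y h).1 ((lvi _ _).2 e)
      exact ⟨by omega, (h6 x y h).2 _ (hp x (lv x - 1) (by omega)).1⟩,
    fun h => h.2 ▸ (hp x (lv x - 1) (by omega)).1⟩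
  have lf : ∀ σ x, lv (f σ x) = lv x := fun σ x => by
    by_cases h : lev σ = lv x
    · rw [← ((fi _ _ _).1 (h4 σ x _ (hf σ x h)).2.1).1, h]
    · rw [hf' σ x h]
  have w1 : ∀ L P : List ℕ, Walk M L P → At lev (lv (P.getD L.length 0)) L ∧
      L.foldr f (P.getD L.length 0) = P.getD 0 0 ∧ lv (P.getD 0 0) = lv (P.getD L.length 0) := by
    intro L
    induction L with
    | nil => simp [At]
    | cons σ L ih =>
      intro P h
      obtain ⟨a1, a2⟩ := walk_cons.1 h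
      obtain ⟨a3, a4, a5⟩ := ih _ a2
      simp only [getD_tail, zero_add] at a3 a4 a5
      rw [fi] at a1
      refine ⟨fun τ hτ => ?_, by rw [List.foldr_cons, List.length_cons, a4, a1.2],
        by rw [← a1.2, lf, a5, List.length_cons]⟩
      rcases List.mem_cons.1 hτ with rfl | h
      · exact a1.1.trans a5
      · exact a3 τ h
  have w2 : ∀ x (L : List ℕ), At lev (lv x) L → ∃ P, Walk M L P ∧ P.getD L.length 0 = x ∧
      P.getD 0 0 = L.foldr f x ∧ lv (L.foldr f x) = lv x := by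
    intro x L h
    induction L with
    | nil => exact ⟨[x], fun j hj => by simp at hj, rfl, rfl, rfl⟩
    | cons σ L ih =>
      obtain ⟨P, a1, a2, a3, a4⟩ := ih (h.sub (by simp))
      refine ⟨(σ :: L).foldr f x :: P, walk_cons.2 ⟨?_, a1⟩, a2, rfl, by
        rw [List.foldr_cons, lf, a4]⟩
      simp only [List.getD_cons_succ, List.getD_cons_zero, a3, fi, a4, List.foldr_cons, and_true]
      exact h σ (by simp)
  refine ⟨⟨lv, f, p, h0, lf, fun σ x h => ((fi _ _ _).1 (h4 σ x _ (hf σ x h)).2.1).2,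
    fun x n h => (hp x n h).2, fun σ x h h' => ?_, fun n => (h8 n).imp fun x => (lvi _ _).1,
    fun x y h => ?_, fun x L a1 a2 a3 => ?_⟩, ?_⟩
  · exact ((fi _ _ _).1 (h7 σ x _ _ _ (hf σ x h) ((pi _ _).2 ⟨h', rfl⟩)
      ((pi _ _).2 ⟨by rwa [lf], rfl⟩))).2.symm
  · obtain ⟨L, P, a1, rfl, rfl⟩ := h9 _ x y (hlv x) ((lvi _ _).2 h.symm)
    exact ⟨L, (w1 L P a1).1, (w1 L P a1).2.1⟩
  · obtain ⟨P, b1, b2, b3, -⟩ := w2 x L a1
    exact h10 L P b1 (rdI_iff.2 a2) (by rw [b2, b3, a3])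
  · funext i x y
    rcases sym_cases i with rfl | ⟨n, rfl⟩ | ⟨σ, rfl⟩
    · rw [Sys.rel_zero, pi]
    · rw [Sys.rel_odd]
      exact propext ⟨fun h => by
        obtain rfl := (h2 n x y h).1
        exact ⟨rfl, (lvi _ _).1 h⟩, fun ⟨a, b⟩ => a ▸ (lvi _ _).2 b⟩
    · rw [Sys.rel_even, fi]

/-- The class of computable structures attached to systems. -/
def Cls (lev par : ℕ → ℕ) : Set Str := {M | IsComp M ∧ ∃ S : Sys lev par ℕ, M = S.rel}

theorem isClass_cls (lev par : ℕ → ℕ) : IsClass (Cls lev par) :=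
  ⟨fun _ h => h.1, by
    rintro M ⟨-, S, rfl⟩ N hN h
    exact ⟨hN, Sys.exists_of_iso h⟩⟩

theorem mem_cls {lev par : ℕ → ℕ} {M : Str} : M ∈ Cls lev par ↔ IsComp M ∧ Ax lev par M :=
  and_congr_right fun _ => ⟨fun ⟨S, h⟩ => h ▸ ax_rel S, Ax.exists_sys⟩

theorem dl_cls {lev par : ℕ → ℕ} (hl : Computable lev) (hp : Computable par) :
    Dl fun e => e ∈ indexSet (Cls lev par) := by
  have : Dl fun e => Tot e ∧ Ax lev par (Hold e) :=
    d_and (by fun_prop) (d_ax hl hp (by fun_prop))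
  refine this.of_eq fun e => ?_
  rw [mem_indexSet, mem_cls]
  exact and_congr_right fun h => ⟨fun h' => ⟨⟨e, codes_iff.2 ⟨h, rfl⟩⟩, h'⟩, And.right⟩

/-- The child relation with a witness. -/
def ChW (M N : Str) (u' u : ℕ × ℕ) (n : ℕ) (L P Q : List ℕ) : Prop :=
  M (2 * (n + 1) + 1) u'.1 u'.1 ∧ N (2 * (n + 1) + 1) u'.2 u'.2 ∧ M (2 * n + 1) u.1 u.1 ∧
    N (2 * n + 1) u.2 u.2 ∧ Walk M L P ∧ Walk N L Q ∧ P.getD L.length 0 = u.1 ∧
    Q.getD L.length 0 = u.2 ∧ M 0 u'.1 (P.getD 0 0) ∧ N 0 u'.2 (Q.getD 0 0)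

theorem ch_iff {lev par : ℕ → ℕ} (S S' : Sys lev par ℕ) (u' u : ℕ × ℕ) :
    S.Ch S' u' u ↔ ∃ n L P Q, ChW S.rel S'.rel u' u n L P Q := by
  unfold ChW
  simp only [Sys.rel_odd, Sys.rel_zero, true_and]
  constructor
  · rintro ⟨h1, h2, h3, L, h4, h5, h6⟩
    obtain ⟨P, a1, a2, a3⟩ := Sys.exists_walk h4
    obtain ⟨Q, b1, b2, b3⟩ := Sys.exists_walk (S := S') (x := u.2) (h3 ▸ h4)
    exact ⟨_, L, P, Q, h1, h2, rfl, h3, a1, b1, a2, b2, ⟨by omega, by rw [a3, h5]⟩,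
      ⟨by omega, by rw [b3, h6]⟩⟩
  · rintro ⟨n, L, P, Q, h1, h2, rfl, h3, a1, b1, a2, b2, a3, b3⟩
    obtain ⟨c1, c2⟩ := Sys.walk_spec a1
    obtain ⟨-, c3⟩ := Sys.walk_spec b1
    rw [a2] at c1 c2
    rw [b2] at c3
    exact ⟨h1, h2, h3, L, c1, c2.trans a3.2.symm, c3.trans b3.2.symm⟩

end Pool.Agent.MP_9125cf_lc
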