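import Pool.Agent.MP_9125cf_lc.KB

set_option autoImplicit false

namespace Pool.Agent.MP_9125cf_lc

open Classical

/-- Multiplication of a reduced word by a generator of order two. -/
def act (σ : ℕ) (w : List ℕ) : List ℕ := if w.head? = some σ then w.tail else σ :: w

/-- Reduction of a word. -/
def red (L : List ℕ) : List ℕ := L.foldr act []

/-- Reduced words. -/
abbrev Rd (w : List ℕ) : Prop := w.IsChain (· ≠ ·)

theorem Rd.act {w : List ℕ} (h : Rd w) (σ : ℕ) : Rd (act σ w) := by
  unfold MP_9125cf_lc.act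
  split_ifs with h1
  · exact List.IsChain.tail h
  · exact List.IsChain.cons h fun y hy e => h1 (by rw [e]; exact hy)

theorem mem_act {w : List ℕ} {σ τ : ℕ} (h : τ ∈ act σ w) : τ = σ ∨ τ ∈ w := by
  unfold act at h
  split_ifs at h
  · exact Or.inr (List.mem_of_mem_tail h)
  · simpa using h

theorem act_act {w : List ℕ} (h : Rd w) (σ : ℕ) : act σ (act σ w) = w := by
  by_cases h1 : w.head? = some σ
  · obtain ⟨t, rfl⟩ := List.head?_eq_some_iff.1 h1
    have : ¬ t.head? = some σ := fun e => (List.isChain_cons.1 h).1 σ e rfl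
    simp [act, this]
  · simp [act, h1]

theorem rd_foldr (L : List ℕ) {w : List ℕ} (h : Rd w) : Rd (L.foldr act w) := by
  induction L with
  | nil => exact h
  | cons σ L ih => exact ih.act σ

theorem mem_foldr {L w : List ℕ} {τ : ℕ} (h : τ ∈ L.foldr act w) : τ ∈ L ∨ τ ∈ w := by
  induction L with
  | nil => exact Or.inr h
  | cons σ L ih =>
    rcases mem_act h with h | h
    · simp [h]
    · rcases ih h with h | h <;> simp [h]

theorem rd_red (L : List ℕ) : Rd (red L) := rd_foldr L List.IsChain.nil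

theorem mem_red {L : List ℕ} {τ : ℕ} (h : τ ∈ red L) : τ ∈ L := by
  simpa using mem_foldr h

theorem red_cons (σ : ℕ) (L : List ℕ) : red (σ :: L) = act σ (red L) := rfl

theorem red_of_rd {w : List ℕ} (h : Rd w) : red w = w := by
  induction w with
  | nil => rfl
  | cons σ w ih =>
    have : ¬ w.head? = some σ := fun e => (List.isChain_cons.1 h).1 σ e rfl
    rw [red_cons, ih (List.isChain_cons.1 h).2]
    simp [act, this]

theorem length_red (L : List ℕ) : (red L).length ≤ L.length := by
  induction L with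
  | nil => simp [red]
  | cons σ L ih =>
    rw [red_cons, act]
    split_ifs <;> simp <;> omega

/-- A system of torsors over free products of groups of order two. -/
structure Sys (lev par : ℕ → ℕ) (α : Type) where
  lv : α → ℕ
  f : ℕ → α → α
  p : α → α
  lev_par : ∀ σ n, lev σ = n + 1 → lev (par σ) = n
  lv_f : ∀ σ x, lv (f σ x) = lv x
  f_f : ∀ σ x, lev σ = lv x → f σ (f σ x) = x
  lv_p : ∀ x n, lv x = n + 1 → lv (p x) = n
  p_f : ∀ σ x, lev σ = lv x → 0 < lv x → p (f σ x) = f (par σ) (p x)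
  ne : ∀ n, ∃ x, lv x = n
  conn : ∀ x y, lv x = lv y → ∃ L : List ℕ, (∀ σ ∈ L, lev σ = lv x) ∧ L.foldr f x = y
  free : ∀ x (L : List ℕ), (∀ σ ∈ L, lev σ = lv x) → Rd L → L.foldr f x = x → L = []

/-- All letters have level `n`. -/
def At (lev : ℕ → ℕ) (n : ℕ) (L : List ℕ) : Prop := ∀ σ ∈ L, lev σ = n

theorem At.red {lev : ℕ → ℕ} {n : ℕ} {L : List ℕ} (h : At lev n L) : At lev n (red L) :=
  fun σ hσ => h σ (mem_red hσ)

theorem At.append {lev : ℕ → ℕ} {n : ℕ} {L L' : List ℕ} (h : At lev n L) (h' : At lev n L') :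
    At lev n (L ++ L') := fun σ hσ => (List.mem_append.1 hσ).elim (h σ) (h' σ)

theorem At.reverse {lev : ℕ → ℕ} {n : ℕ} {L : List ℕ} (h : At lev n L) :
    At lev n L.reverse := fun σ hσ => h σ (List.mem_reverse.1 hσ)

theorem At.sub {lev : ℕ → ℕ} {n : ℕ} {L L' : List ℕ} (h : At lev n L) (h' : L' ⊆ L) :
    At lev n L' := fun σ hσ => h σ (h' hσ)

namespace Sys

variable {lev par : ℕ → ℕ} {α β : Type} (S : Sys lev par α) (S' : Sys lev par β)

/-- Action of a word. -/
def app (L : List ℕ) (x : α) : α := L.foldr S.f x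

@[simp] theorem app_nil (x : α) : S.app [] x = x := rfl
@[simp] theorem app_cons (σ : ℕ) (L : List ℕ) (x : α) :
    S.app (σ :: L) x = S.f σ (S.app L x) := rfl
theorem app_append (L L' : List ℕ) (x : α) : S.app (L ++ L') x = S.app L (S.app L' x) :=
  List.foldr_append

@[simp] theorem lv_app (L : List ℕ) (x : α) : S.lv (S.app L x) = S.lv x := by
  induction L with
  | nil => rfl
  | cons σ L ih => rw [app_cons, S.lv_f, ih]

theorem app_act {w : List ℕ} {σ : ℕ} {x : α} (hσ : lev σ = S.lv x) :
    S.app (act σ w) x = S.f σ (S.app w x) := by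
  unfold act
  split_ifs with h
  · obtain ⟨t, rfl⟩ := List.head?_eq_some_iff.1 h
    simp [S.f_f σ (S.app t x) (by simpa using hσ)]
  · rfl

theorem app_red {L : List ℕ} {x : α} (h : At lev (S.lv x) L) : S.app (red L) x = S.app L x := by
  induction L with
  | nil => rfl
  | cons σ L ih =>
    rw [red_cons, S.app_act (h σ (by simp)), ih (h.sub (by simp)), app_cons]

theorem app_rev {L : List ℕ} {x : α} (h : At lev (S.lv x) L) :
    S.app L.reverse (S.app L x) = x := by
  induction L with
  | nil => rfl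
  | cons σ L ih =>
    rw [List.reverse_cons, app_append, app_cons, app_cons, app_nil,
      S.f_f _ _ (by simpa using h σ (by simp)), ih (h.sub (by simp))]

theorem app_rev' {L : List ℕ} {x : α} (h : At lev (S.lv x) L) :
    S.app L (S.app L.reverse x) = x := by
  simpa using S.app_rev h.reverse

theorem suffix_red {L : List ℕ} {x : α} (h : At lev (S.lv x) L) {t : List ℕ}
    (ht : t <:+ red L) : ∃ t', t' <:+ L ∧ S.app t' x = S.app t x := by
  induction L generalizing t with
  | nil => exact ⟨t, ht, rfl⟩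
  | cons σ L ih =>
    have h' : At lev (S.lv x) L := h.sub (by simp)
    have step : ∀ t, t <:+ red L → ∃ t', t' <:+ σ :: L ∧ S.app t' x = S.app t x := fun t ht => by
      obtain ⟨t', h1, h2⟩ := ih h' ht
      exact ⟨t', h1.trans (List.suffix_cons _ _), h2⟩
    rw [red_cons, act] at ht
    split_ifs at ht with h1
    · exact step t (ht.trans (List.tail_suffix _))
    · rcases List.suffix_cons_iff.1 ht with rfl | ht
      · exact ⟨_, List.suffix_refl _, by rw [app_cons, app_cons, S.app_red h']⟩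
      · exact step t ht

theorem uniq {u v : List ℕ} {x : α} (hu : Rd u) (hv : Rd v) (au : At lev (S.lv x) u)
    (av : At lev (S.lv x) v) (h : S.app u x = S.app v x) : u = v := by
  induction u generalizing v with
  | nil => exact (S.free x v av hv h.symm).symm
  | cons σ u ih =>
    have hσ := au σ (by simp)
    have e : u = act σ v := by
      refine ih (List.isChain_cons.1 hu).2 (hv.act σ) (au.sub (by simp)) (fun τ hτ => ?_) ?_
      · rcases mem_act hτ with rfl | h
        · exact hσ
        · exact av τ h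
      · rw [S.app_act hσ, ← h, app_cons, S.f_f _ _ (by simpa using hσ)]
    have e2 := act_act hv σ
    rw [← e] at e2
    have : ¬ u.head? = some σ := fun e => (List.isChain_cons.1 hu).1 σ e rfl
    simpa [act, this] using e2

theorem exists_wd (x y : α) : ∃ w, S.lv x = S.lv y → Rd w ∧ At lev (S.lv x) w ∧ S.app w x = y := by
  by_cases h : S.lv x = S.lv y
  · obtain ⟨L, h1, h2⟩ := S.conn x y h
    exact ⟨red L, fun _ => ⟨rd_red L, At.red h1, (S.app_red h1).trans h2⟩⟩
  · exact ⟨[], fun h' => absurd h' h⟩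

/-- The reduced word leading from `x` to `y`. -/
noncomputable def wd (x y : α) : List ℕ := (S.exists_wd x y).choose

theorem wd_spec {x y : α} (h : S.lv x = S.lv y) :
    Rd (S.wd x y) ∧ At lev (S.lv x) (S.wd x y) ∧ S.app (S.wd x y) x = y :=
  (S.exists_wd x y).choose_spec h

theorem wd_app {x : α} {L : List ℕ} (h : At lev (S.lv x) L) : S.wd x (S.app L x) = red L := by
  obtain ⟨h1, h2, h3⟩ := S.wd_spec (x := x) (y := S.app L x) (by simp)
  exact S.uniq h1 (rd_red L) h2 h.red (h3.trans (S.app_red h).symm)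

include S in
theorem at_par {n : ℕ} {L : List ℕ} (h : At lev (n + 1) L) : At lev n (L.map par) := by
  intro σ hσ
  obtain ⟨τ, h1, rfl⟩ := List.mem_map.1 hσ
  exact S.lev_par τ n (h τ h1)

theorem p_app {x : α} {L : List ℕ} (h : At lev (S.lv x) L) (hx : 0 < S.lv x) :
    S.p (S.app L x) = S.app (L.map par) (S.p x) := by
  induction L with
  | nil => rfl
  | cons σ L ih =>
    rw [app_cons, S.p_f _ _ (by simpa using h σ (by simp)) (by simpa using hx),
      ih (h.sub (by simp))]
    rfl

/-- The level isomorphism sending `x` to `y`. -/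
noncomputable def tau (x : α) (y : β) (z : α) : β := S'.app (S.wd x z) y

theorem tau_app {x : α} {y : β} (hy : S'.lv y = S.lv x) {L : List ℕ} (h : At lev (S.lv x) L) :
    tau S S' x y (S.app L x) = S'.app L y := by
  rw [tau, S.wd_app h, S'.app_red (hy ▸ h)]

/-- Morphisms. -/
structure Mor (g : α → β) : Prop where
  lv : ∀ x, S'.lv (g x) = S.lv x
  f : ∀ σ x, lev σ = S.lv x → g (S.f σ x) = S'.f σ (g x)
  p : ∀ x, 0 < S.lv x → g (S.p x) = S'.p (g x)

variable {S S'}

theorem Mor.app {g : α → β} (h : Mor S S' g) {x : α} {L : List ℕ} (hL : At lev (S.lv x) L) :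
    g (S.app L x) = S'.app L (g x) := by
  induction L with
  | nil => rfl
  | cons σ L ih =>
    rw [app_cons, h.f _ _ (by simpa using hL σ (by simp)), ih (hL.sub (by simp)), app_cons]

theorem Mor.bij {g : α → β} (h : Mor S S' g) : Function.Bijective g := by
  constructor
  · intro x y e
    have hl : S.lv x = S.lv y := by rw [← h.lv, e, h.lv]
    obtain ⟨h1, h2, h3⟩ := S.wd_spec hl
    have := S'.free (g x) (S.wd x y) (by rw [h.lv]; exact h2) h1
      ((h.app h2).symm.trans (by rw [h3, e]))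
    rw [this] at h3
    exact h3
  · intro z
    obtain ⟨x, hx⟩ := S.ne (S'.lv z)
    obtain ⟨-, h2, h3⟩ := S'.wd_spec (x := g x) (y := z) (by rw [h.lv, hx])
    rw [h.lv] at h2
    exact ⟨_, (h.app h2).trans h3⟩

variable (S S')

/-- `u'` is a child of `u` in the tree of level isomorphisms. -/
def Ch (u' u : α × β) : Prop :=
  S.lv u'.1 = S.lv u.1 + 1 ∧ S'.lv u'.2 = S.lv u.1 + 1 ∧ S'.lv u.2 = S.lv u.1 ∧
    ∃ L, At lev (S.lv u.1) L ∧ S.app L u.1 = S.p u'.1 ∧ S'.app L u.2 = S'.p u'.2

theorem mor_of_chain0 (c : ℕ → α × β) (h0 : S.lv (c 0).1 = 0)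
    (hc : ∀ n, Ch S S' (c (n + 1)) (c n)) : ∃ g, Mor S S' g ∧ ∀ n, g (c n).1 = (c n).2 := by
  have l1 : ∀ n, S.lv (c n).1 = n := by
    intro n
    induction n with
    | zero => exact h0
    | succ n ih => rw [(hc n).1, ih]
  have l2 : ∀ n, S'.lv (c n).2 = S.lv (c n).1 := fun n => (hc n).2.2.1
  have key : ∀ n L, At lev n L →
      tau S S' (c n).1 (c n).2 (S.app L (c n).1) = S'.app L (c n).2 := by
    intro n L hL
    rw [tau_app S S' (l2 n) (by rw [l1]; exact hL)]
  have rep : ∀ z, ∃ n L, At lev n L ∧ S.app L (c n).1 = z := fun z => by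
    obtain ⟨-, h2, h3⟩ := S.wd_spec (x := (c (S.lv z)).1) (y := z) (l1 _)
    exact ⟨_, _, by rwa [l1] at h2, h3⟩
  have key' : ∀ n L, At lev n L → (fun z => tau S S' (c (S.lv z)).1 (c (S.lv z)).2 z)
      (S.app L (c n).1) = S'.app L (c n).2 := by
    intro n L hL
    simp only [lv_app, l1, key n L hL]
  have hlv : ∀ z, S'.lv ((fun z => tau S S' (c (S.lv z)).1 (c (S.lv z)).2 z) z) = S.lv z :=
    fun z => by simp only [tau, lv_app, l2, l1]
  generalize (fun z => tau S S' (c (S.lv z)).1 (c (S.lv z)).2 z) = g at key' hlv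
  refine ⟨g, ⟨hlv, fun σ z hσ => ?_, fun z hz => ?_⟩, fun n => key' n [] (by simp [At])⟩
  · obtain ⟨n, L, h1, rfl⟩ := rep z
    rw [lv_app, l1] at hσ
    exact (key' n (σ :: L) (fun τ hτ => by
      rcases List.mem_cons.1 hτ with rfl | h
      · exact hσ
      · exact h1 τ h)).trans (by rw [key' n L h1, app_cons])
  · obtain ⟨n, L, h1, rfl⟩ := rep z
    rw [lv_app, l1] at hz
    obtain ⟨n, rfl⟩ : ∃ m, n = m + 1 := ⟨n - 1, by omega⟩
    obtain ⟨-, -, -, L', a1, a2, a3⟩ := hc n
    rw [l1] at a1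
    rw [key' _ L h1, S.p_app (by rw [l1]; exact h1) (by rw [l1]; omega),
      S'.p_app (by rw [l2, l1]; exact h1) (by rw [l2, l1]; omega), ← a2, ← a3, ← app_append,
      ← app_append, key' n _ ((S.at_par h1).append a1)]

theorem mor_of_chain (c : ℕ → α × β) (hc : ∀ n, Ch S S' (c (n + 1)) (c n)) :
    ∃ g, Mor S S' g ∧ ∀ n, g (c n).1 = (c n).2 := by
  generalize hm : S.lv (c 0).1 = m
  induction m generalizing c with
  | zero => exact mor_of_chain0 S S' c hm hc
  | succ m ih =>
    have e1 := S.lv_p _ _ hm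
    have e2 := S'.lv_p (c 0).2 m ((hc 0).2.2.1.trans hm)
    obtain ⟨g, h1, h2⟩ := ih (fun n => Nat.casesOn n (S.p (c 0).1, S'.p (c 0).2) c)
      (fun n => by
        cases n with
        | zero => exact ⟨by simp [e1, hm], by simp [e1, (hc 0).2.2.1, hm], by simp [e1, e2],
            [], by simp [At], rfl, rfl⟩
        | succ n => exact hc n) e1
    exact ⟨g, h1, fun n => h2 (n + 1)⟩

/-- A thread through the system. -/
def Thread (e : ℕ → α) : Prop := ∀ n, S.lv (e n) = n ∧ S.p (e (n + 1)) = e n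

theorem mor_of_thread {e : ℕ → α} {e' : ℕ → β} (h : S.Thread e) (h' : S'.Thread e') :
    ∃ g, Mor S S' g :=
  (mor_of_chain S S' (fun n => (e n, e' n)) fun n =>
    ⟨by simp [(h _).1], by simp [(h _).1, (h' _).1], by simp [(h _).1, (h' _).1], [],
      by simp [At], (h n).2.symm, (h' n).2.symm⟩).imp fun _ h => h.1

end Sys

end Pool.Agent.MP_9125cf_lc
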