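import Pool.Agent.MP_9125cf_lc.Classes

set_option autoImplicit false

namespace Pool.Agent.MP_9125cf_lc

open Classical Nat.Partrec Denumerable

/-- The `i`-th tree. -/
def Rt (i : ℕ) (s : List ℕ) : Prop := Ball (s.length + 1) fun n =>
  Code.evaln n.unpair.2 (ofNat Code i) (Nat.pair i (Encodable.encode (s.take n.unpair.1))) ≠ some 0

/-- The `i`-th tree has an infinite path. -/
def U (i : ℕ) : Prop := ∃ f : ℕ → ℕ, ∀ n, Rt i ((List.range n).map f)

@[fun_prop] theorem p_rt {α : Type} [Primcodable α] {i : α → ℕ} {s : α → List ℕ}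
    (hi : Computable i) (hs : Computable s) : ComputablePred fun a => Rt (i a) (s a) := by
  unfold Rt
  fun_prop

theorem Rt.take {i : ℕ} {s : List ℕ} (h : Rt i s) (k : ℕ) : Rt i (s.take k) := by
  intro n hn
  simp only [List.length_take] at hn
  have := Nat.unpair_left_le n
  rw [List.take_take, min_eq_left (by omega)]
  exact h n (by omega)

theorem rt_nil (i : ℕ) : Rt i [] := by
  intro n hn
  obtain rfl : n = 0 := by simpa using hn
  simp [Nat.unpair, Code.evaln]

theorem take_range (f : ℕ → ℕ) (k n : ℕ) :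
    ((List.range n).map f).take k = (List.range (min k n)).map f := by
  rw [← List.map_take, List.take_range]

theorem univ_tree {Q : ℕ × List ℕ → Prop} (hQ : ComputablePred Q) :
    ∃ i, (∀ s : List ℕ, (∀ n, Q (i, s.take n)) → Rt i s) ∧
      ∀ f : ℕ → ℕ, (∀ n, Rt i ((List.range n).map f)) → ∀ n, Q (i, (List.range n).map f) := by
  have h : Computable fun t : ℕ => if Q (t.unpair.1, ofNat (List ℕ) t.unpair.2) then 1 else 0 := by
    fun_prop
  obtain ⟨c, hc⟩ := Code.exists_code.1 (Partrec.nat_iff.1 h.partrec)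
  refine ⟨Encodable.encode c, fun s hs n _ e => ?_, fun f hf n => by_contra fun hn => ?_⟩
  · have := Code.evaln_sound e
    simp [hc, hs] at this
  · obtain ⟨k, hk⟩ := (Code.evaln_complete (c := c) (x := 0) (n := Nat.pair (Encodable.encode c)
      (Encodable.encode ((List.range n).map f)))).1 (by simp [hc, hn])
    refine hf (Nat.pair n k) (Nat.pair n k) (by simp) ?_
    rw [Nat.unpair_pair, take_range, min_eq_left (Nat.left_le_pair _ _), ofNat_encode]
    exact hk

theorem not_sg_U : ¬ Sg fun i => ¬ U i := by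
  rintro ⟨R, hR, H⟩
  obtain ⟨i, h1, h2⟩ := univ_tree hR
  have : U i ↔ ¬ U i := by
    refine Iff.trans ?_ (H i).symm
    exact exists_congr fun f => ⟨h2 f, fun h n => h1 _ fun k => by rw [take_range]; exact h _⟩
  tauto

theorem exists_U : ∃ i, U i := by
  obtain ⟨i, h1, -⟩ := univ_tree (Q := fun _ => True) (cp_const _)
  exact ⟨i, id, fun n => h1 _ fun _ => trivial⟩

/-- Decoding of letters. -/
def dc (σ : ℕ) : ℕ × ℕ × List ℕ := ofNat _ σ

/-- Coding of letters. -/
def cd (N m : ℕ) (s : List ℕ) : ℕ := Encodable.encode (N, m, s)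

@[simp] theorem dc_cd (N m : ℕ) (s : List ℕ) : dc (cd N m s) = (N, m, s) := ofNat_encode _

theorem cd_dc (σ : ℕ) : cd (dc σ).1 (dc σ).2.1 (dc σ).2.2 = σ := encode_ofNat _

/-- Valid letters. -/
def Val (q : ℕ × ℕ × List ℕ) : Prop := q.2.2.length = q.2.1 - q.1 ∧ Rt q.1.unpair.1 q.2.2

/-- The level of a letter. -/
noncomputable def tlev (σ : ℕ) : ℕ := if Val (dc σ) then (dc σ).2.1 else 0

/-- The parent of a letter. -/
def tpar (σ : ℕ) : ℕ := cd (dc σ).1 ((dc σ).2.1 - 1) ((dc σ).2.2.take ((dc σ).2.1 - 1 - (dc σ).1))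

@[fun_prop] theorem c_tlev : Computable tlev := by
  unfold tlev Val dc
  fun_prop

@[fun_prop] theorem c_tpar : Computable tpar := by
  unfold tpar cd dc
  fun_prop

theorem tlev_cd {N m : ℕ} {s : List ℕ} (h1 : s.length = m - N) (h2 : Rt N.unpair.1 s) :
    tlev (cd N m s) = m := by
  simp [tlev, Val, h1, h2]

theorem tlev_pos {σ n : ℕ} (h : tlev σ = n + 1) : Val (dc σ) ∧ (dc σ).2.1 = n + 1 := by
  unfold tlev at h
  split_ifs at h with h1
  exact ⟨h1, h⟩

theorem tlev_tpar (σ n : ℕ) (h : tlev σ = n + 1) : tlev (tpar σ) = n := by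
  obtain ⟨⟨h1, h2⟩, h3⟩ := tlev_pos h
  rw [tpar, tlev_cd (by simp; omega) (h2.take _), h3, Nat.add_sub_cancel]

theorem fst_tpar (σ : ℕ) : (dc (tpar σ)).1 = (dc σ).1 := by simp [tpar]

/-- The branch of letters given by a function. -/
def br (N : ℕ) (φ : ℕ → ℕ) (n : ℕ) : ℕ := cd N n ((List.range (n - N)).map φ)

theorem tpar_br (N : ℕ) (φ : ℕ → ℕ) (n : ℕ) : tpar (br N φ (n + 1)) = br N φ n := by
  simp only [tpar, br, dc_cd, take_range, Nat.add_sub_cancel]
  rw [min_eq_left (by omega)]

theorem ill_of_U {N : ℕ} (h : U N.unpair.1) : Ill tlev tpar (cd N N []) := by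
  obtain ⟨f, hf⟩ := h
  refine ⟨fun k => br N f (N + k), by simp [br], fun k => ⟨?_, tpar_br N f (N + k)⟩⟩
  rw [tlev_cd (by simp) (rt_nil _)]
  exact tlev_cd (by simp) (hf _)

theorem Ill.U {σ : ℕ} (h : Ill tlev tpar σ) : U (dc σ).1.unpair.1 := by
  obtain ⟨t, h0, ht⟩ := h
  have e1 : ∀ k, (dc (t k)).1 = (dc σ).1 := by
    intro k
    induction k with
    | zero => rw [h0]
    | succ k ih => rw [← ih, ← (ht k).2, fst_tpar]
  have e2 := fun k => tlev_pos (ht (k + 1)).1
  have e3 : ∀ k, (dc (t (k + 1))).2.2.length = tlev σ + k + 1 - (dc σ).1 := fun k => by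
    rw [(e2 k).1.1, (e2 k).2, e1]
    rfl
  have e4 : ∀ k d, (dc (t (k + 1))).2.2 <+: (dc (t (k + d + 1))).2.2 := by
    intro k d
    induction d with
    | zero => exact List.prefix_rfl
    | succ d ih =>
      refine ih.trans ?_
      rw [← (ht (k + d + 1)).2, tpar, dc_cd]
      exact List.take_prefix _ _
  refine ⟨fun j => (dc (t ((dc σ).1 + j + 1))).2.2.getD j 0, fun n => ?_⟩
  have := ((e2 ((dc σ).1 + n)).1.2).take n
  rw [e1] at this
  convert this using 1
  refine List.ext_getElem (by simp [e3]; omega) fun j h1 h2 => ?_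
  have hj : j < n := by simpa using h1
  have h3 := e4 ((dc σ).1 + j) (n - j)
  rw [show (dc σ).1 + j + (n - j) = (dc σ).1 + n by omega] at h3
  have h4 : j < (dc (t ((dc σ).1 + j + 1))).2.2.length := by rw [e3]; omega
  simp only [List.getElem_map, List.getElem_range, List.getElem_take]
  rw [List.getD_eq_getElem _ _ h4, h3.getElem h4]

theorem good_tree (β : Ordinal.{0}) (hβ : CompOrd β) :
    ∃ m s, Good tlev tpar β m s ∧ ¬ Ill tlev tpar (s m) := by
  obtain ⟨T, r, wo, hT, hr, rfl⟩ := hβ
  let lx : ℕ → ℕ → Prop := fun a b =>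
    r a.unpair.1 b.unpair.1 ∨ (a.unpair.1 = b.unpair.1 ∧ a.unpair.2 < b.unpair.2)
  have e1 : ∀ {δ : Type} [Primcodable δ] {f : δ → ℕ}, Computable f →
      ComputablePred fun x => f x ∈ T := fun h => cp_comp hT h
  obtain ⟨i, h1, h2⟩ := univ_tree (Q := fun q => Ball q.2.length
    (fun t => (q.2.getD t 0).unpair.1 ∈ T) ∧ Ball (q.2.length - 1)
    fun t => lx (q.2.getD (t + 1) 0) (q.2.getD t 0))
    (p_and (p_ball (by fun_prop) (e1 (by fun_prop))) (by simp only [lx]; fun_prop))
  have hN : (Nat.pair i 0).unpair.1 = i := by simp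
  generalize Nat.pair i 0 = N at hN
  have key : ∀ β : Ordinal.{0}, ∀ k (φ : ℕ → ℕ), (∀ t < k, (φ t).unpair.1 ∈ T) →
      (∀ t, t + 1 < k → lx (φ (t + 1)) (φ t)) →
      (∀ δ < β, ∃ b : T, Ordinal.typein (fun x y : T => r x y) b = δ ∧
        ∀ t, t + 1 = k → r b (φ t).unpair.1) → Good tlev tpar β (N + k) (br N φ) := by
    intro β
    induction β using WellFoundedLT.induction with
    | ind β ih =>
      intro k φ a1 a2 a3
      refine good_iff.2 ⟨⟨fun n hn => tlev_cd (by simp) (hN ▸ h1 _ fun j => ?_),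
        fun n _ => tpar_br N φ n⟩, fun δ hδ M => ?_⟩
      · rw [take_range]
        refine ⟨fun t ht => ?_, fun t ht => ?_⟩
        · simp only [List.length_map, List.length_range] at ht
          simpa [List.getD_eq_getElem?_getD, ht] using a1 t (by omega)
        · simp only [List.length_map, List.length_range] at ht
          simpa [List.getD_eq_getElem?_getD, show t < min j (n - N) by omega,
            show t + 1 < min j (n - N) by omega] using a2 t (by omega)
      · obtain ⟨b, rfl, b2⟩ := a3 δ hδ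
        refine ⟨N + (k + M + 1), br N fun t => if t < k then φ t else Nat.pair b (M - (t - k)),
          by omega, by omega, fun n hn => ?_, ih _ hδ _ _ (fun t ht => ?_) (fun t ht => ?_)
          fun ε hε => ?_⟩
        · unfold br
          congr 1
          exact List.map_congr_left fun t ht => if_pos (by simp at ht; omega)
        · split_ifs with h
          · exact a1 t h
          · simp
        · by_cases c1 : t + 1 < k
          · rw [if_pos c1, if_pos (by omega)]
            exact a2 t c1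
          · by_cases c2 : t < k
            · rw [if_neg c1, if_pos c2]
              exact Or.inl (by simpa using b2 t (by omega))
            · rw [if_neg c1, if_neg c2]
              exact Or.inr ⟨by simp, by simp; omega⟩
        · obtain ⟨b', rfl⟩ := Ordinal.typein_surj _ (hε.trans (Ordinal.typein_lt_type _ b))
          refine ⟨b', rfl, fun t ht => ?_⟩
          rw [if_neg (by omega)]
          simpa using (Ordinal.typein_lt_typein _).1 hε
  refine ⟨N + 0, br N id, key _ 0 id (by simp) (by simp) fun δ hδ => ?_, fun h => ?_⟩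
  · obtain ⟨b, hb⟩ := Ordinal.typein_surj _ hδ
    exact ⟨b, hb, by simp⟩
  · obtain ⟨f, hf⟩ := h.U
    simp only [br, dc_cd, hN] at hf
    have c1 : ∀ n, (f n).unpair.1 ∈ T := fun n => by
      simpa using (h2 f hf (n + 1)).1 n (by simp)
    have c2 : ∀ n, lx (f (n + 1)) (f n) := fun n => by
      simpa [List.getD_eq_getElem?_getD] using (h2 f hf (n + 2)).2 n (by simp)
    refine (wellFounded_iff_isEmpty_descending_chain.1
      (WellFounded.prod_lex wo.wf (wellFounded_lt (α := ℕ)))).false
      ⟨fun n => (⟨_, c1 n⟩, (f n).unpair.2), fun n => ?_⟩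
    rcases c2 n with h | ⟨h, h'⟩
    · exact Prod.Lex.left _ _ h
    · simp only [h]
      exact Prod.Lex.right _ h'

end Pool.Agent.MP_9125cf_lc
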